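import Mathlib

/-!
# Transfer theorem, module ALGT: the algebra (the mapping cone of `N`)

The complex `D` on the Banach spaces `K q` is exact in the degrees `p, p+1, p+2`; `M` is a complex
of (semi)normed spaces, `U : M → Cone(N)` and `L : Cone(N) → M` (given as functionals) are bounded
chain maps with `L ∘ U = const ≠ 0`.  So `d ⊕ δ` is bounded below on `M p`.
-/

open Filter

noncomputable section

namespace Pool.Agent.ZSp

/-- exactness of a complex of linear relations at one place. -/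
def ExAt {K : ℕ → Type*} [∀ q, AddCommGroup (K q)] [∀ q, Module ℝ (K q)]
    (D : ∀ q, Submodule ℝ (K q × K (q + 1))) : ℕ → Prop
  | 0 => ∀ a, (a, 0) ∈ D 0 → a = 0
  | (q + 1) => ∀ a, (a, 0) ∈ D (q + 1) → ∃ c, (c, a) ∈ D q

/-- the data of the transfer argument. -/
structure TData (K M : ℕ → Type*) [∀ q, NormedAddCommGroup (K q)] [∀ q, NormedSpace ℝ (K q)]
    [∀ q, SeminormedAddCommGroup (M q)] [∀ q, Module ℝ (M q)] where
  D : ∀ q, Submodule ℝ (K q × K (q + 1))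
  D_closed : ∀ q, IsClosed (D q : Set (K q × K (q + 1)))
  D_D : ∀ q a b, (a, b) ∈ D q → (b, 0) ∈ D (q + 1)
  N : ∀ q, K q →L[ℝ] K q
  N_D : ∀ q a b, (a, b) ∈ D q → (N q a, N (q + 1) b) ∈ D q
  dM : ∀ q, M q →ₗ[ℝ] M (q + 1)
  dM_dM : ∀ q w, dM (q + 1) (dM q w) = 0
  U0 : ∀ q, M q →ₗ[ℝ] K q
  U1 : ∀ q, M q →ₗ[ℝ] K (q + 1)
  U0_bdd : ∀ q, ∃ C : ℝ, ∀ w, ‖U0 q w‖ ≤ C * ‖w‖
  U1_bdd : ∀ q, ∃ C : ℝ, ∀ w, ‖U1 q w‖ ≤ C * ‖w‖
  U0_D : ∀ q w, (U0 q w, N (q + 1) (U1 q w) + U0 (q + 1) (dM q w)) ∈ D q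
  U1_D : ∀ q w, (U1 q w, - U1 (q + 1) (dM q w)) ∈ D (q + 1)
  L0 : ∀ q, M q → K q →ₗ[ℝ] ℝ
  L1 : ∀ q, M q → K (q + 1) →ₗ[ℝ] ℝ
  L0_bdd : ∀ q, ∃ C : ℝ, ∀ w y, |L0 q w y| ≤ C * ‖w‖ * ‖y‖
  L1_bdd : ∀ q, ∃ C : ℝ, ∀ w y, |L1 q w y| ≤ C * ‖w‖ * ‖y‖
  Cod : ∀ q, M (q + 1) → M q → Prop
  stokes0 : ∀ q w c, Cod q w c → ∀ y y', (y, y') ∈ D q → L0 (q + 1) w y' = L0 q c y
  stokes1 : ∀ q w c, Cod q w c → ∀ x x', (x, x') ∈ D (q + 1) →
    L1 (q + 1) w x' = - L0 (q + 1) w (N (q + 1) x) - L1 q c x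
  stokes10 : ∀ w x x', (x, x') ∈ D 0 → L1 0 w x' = - L0 0 w (N 0 x)
  total : ∀ q w, L1 q w (U1 q w) + L0 q w (U0 q w) = -2 * ‖w‖ ^ 2

variable {K M : ℕ → Type*} [∀ q, NormedAddCommGroup (K q)] [∀ q, NormedSpace ℝ (K q)]
  [∀ q, CompleteSpace (K q)] [∀ q, SeminormedAddCommGroup (M q)] [∀ q, Module ℝ (M q)]

/-- exactness with bounds (open mapping theorem). -/
theorem TData.exAt_bound (A : TData K M) {q : ℕ} (h : ExAt A.D (q + 1)) :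
    ∃ C : ℝ, 0 ≤ C ∧ ∀ a, (a, 0) ∈ A.D (q + 1) → ∃ c, (c, a) ∈ A.D q ∧ ‖c‖ ≤ C * ‖a‖ := by
  -- the space of the cycles
  let Z : Submodule ℝ (K (q + 1)) :=
    (A.D (q + 1)).comap (LinearMap.inl ℝ (K (q + 1)) (K (q + 2)))
  have hZ : IsClosed (Z : Set (K (q + 1))) := by
    have h1 : Continuous fun a : K (q + 1) => ((a, 0) : K (q + 1) × K (q + 2)) := by fun_prop
    exact (A.D_closed (q + 1)).preimage h1
  have hZc : CompleteSpace Z := hZ.completeSpace_coe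
  have hDc : CompleteSpace (A.D q) := (A.D_closed q).completeSpace_coe
  let π : A.D q →L[ℝ] Z :=
    ((ContinuousLinearMap.snd ℝ (K q) (K (q + 1))).comp (A.D q).subtypeL).codRestrict Z
      (fun p => A.D_D q p.1.1 p.1.2 p.2)
  have hπ : Function.Surjective π := by
    rintro ⟨a, ha⟩
    obtain ⟨c, hc⟩ := h a ha
    exact ⟨⟨(c, a), hc⟩, rfl⟩
  obtain ⟨C, hC, hCb⟩ := π.exists_preimage_norm_le hπ
  refine ⟨C, hC.le, fun a ha => ?_⟩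
  obtain ⟨⟨⟨c, a'⟩, hp⟩, h1, h2⟩ := hCb ⟨a, ha⟩
  have h3 : a' = a := congrArg Subtype.val h1
  subst h3
  refine ⟨c, hp, le_trans ?_ h2⟩
  exact norm_fst_le (c, a')

/-- nonnegative constants -/
theorem exists_nonneg_bound {α : Type*} {f g : α → ℝ} (hg : ∀ x, 0 ≤ g x)
    (h : ∃ C : ℝ, ∀ x, f x ≤ C * g x) : ∃ C : ℝ, 0 ≤ C ∧ ∀ x, f x ≤ C * g x := by
  obtain ⟨C, hC⟩ := h
  exact ⟨max C 0, le_max_right _ _, fun x => (hC x).trans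
    (mul_le_mul_of_nonneg_right (le_max_left _ _) (hg x))⟩

theorem TData.U0b (A : TData K M) (q : ℕ) : ∃ C : ℝ, 0 ≤ C ∧ ∀ w, ‖A.U0 q w‖ ≤ C * ‖w‖ :=
  exists_nonneg_bound (fun w : M q => norm_nonneg w) (A.U0_bdd q)

theorem TData.U1b (A : TData K M) (q : ℕ) : ∃ C : ℝ, 0 ≤ C ∧ ∀ w, ‖A.U1 q w‖ ≤ C * ‖w‖ :=
  exists_nonneg_bound (fun w : M q => norm_nonneg w) (A.U1_bdd q)

theorem TData.L0b (A : TData K M) (q : ℕ) :
    ∃ C : ℝ, 0 ≤ C ∧ ∀ w y, |A.L0 q w y| ≤ C * ‖w‖ * ‖y‖ := by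
  obtain ⟨C, hC⟩ := A.L0_bdd q
  refine ⟨max C 0, le_max_right _ _, fun w y => (hC w y).trans ?_⟩
  gcongr
  exact le_max_left _ _

theorem TData.L1b (A : TData K M) (q : ℕ) :
    ∃ C : ℝ, 0 ≤ C ∧ ∀ w y, |A.L1 q w y| ≤ C * ‖w‖ * ‖y‖ := by
  obtain ⟨C, hC⟩ := A.L1_bdd q
  refine ⟨max C 0, le_max_right _ _, fun w y => (hC w y).trans ?_⟩
  gcongr
  exact le_max_left _ _

/-- the first two steps: `x'`, `y'`, `x''` -/
theorem TData.steps (A : TData K M) (q : ℕ) (h1 : ExAt A.D (q + 1)) (h2 : ExAt A.D (q + 2)) :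
    ∃ C : ℝ, 0 ≤ C ∧ ∀ w : M q, ∃ (x' : K (q + 1)) (y' x'' : K q),
      (x'', -(A.U1 q w - x')) ∈ A.D q ∧ (A.U0 q w - y' + A.N q x'', 0) ∈ A.D q ∧
      ‖x'‖ ≤ C * ‖A.dM q w‖ ∧ ‖y'‖ ≤ C * ‖A.dM q w‖ ∧
      ‖x''‖ ≤ C * (‖w‖ + ‖A.dM q w‖) ∧
      ‖A.U0 q w - y' + A.N q x''‖ ≤ C * (‖w‖ + ‖A.dM q w‖) := by
  obtain ⟨C₁, hC₁, e₁⟩ := A.exAt_bound h1
  obtain ⟨C₂, hC₂, e₂⟩ := A.exAt_bound h2
  obtain ⟨u, hu, bu⟩ := A.U0b q
  obtain ⟨v, hv, bv⟩ := A.U1b q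
  obtain ⟨u', hu', bu'⟩ := A.U0b (q + 1)
  obtain ⟨v', hv', bv'⟩ := A.U1b (q + 1)
  have hN := fun z => (A.N q).le_opNorm z
  have hN' := fun z => (A.N (q + 1)).le_opNorm z
  set ν := ‖A.N q‖ with hν
  set ν' := ‖A.N (q + 1)‖ with hν'
  have hν0 : 0 ≤ ν := norm_nonneg _
  have hν0' : 0 ≤ ν' := norm_nonneg _
  set α₁ := C₂ * v' with hα₁
  set α₂ := C₁ * (u' + ν' * α₁) with hα₂
  set α₃ := C₁ * (v + α₁) with hα₃
  set α₄ := u + α₂ + ν * α₃ with hα₄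
  have p1 : 0 ≤ α₁ := by positivity
  have p2 : 0 ≤ α₂ := by positivity
  have p3 : 0 ≤ α₃ := by positivity
  have p4 : 0 ≤ α₄ := by positivity
  refine ⟨α₁ + α₂ + α₃ + α₄, by positivity, fun w => ?_⟩
  set δ := ‖A.dM q w‖ with hδ
  have hδ0 : 0 ≤ δ := norm_nonneg _
  have hw0 : 0 ≤ ‖w‖ := norm_nonneg _
  -- the chain map
  have f1 : (A.U1 q w, -A.U1 (q + 1) (A.dM q w)) ∈ A.D (q + 1) := A.U1_D q w
  have f0 : (A.U0 q w, A.N (q + 1) (A.U1 q w) + A.U0 (q + 1) (A.dM q w)) ∈ A.D q := A.U0_D q w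
  have g1 : (A.U1 (q + 1) (A.dM q w), 0) ∈ A.D (q + 2) := by
    have := A.U1_D (q + 1) (A.dM q w)
    rwa [A.dM_dM, map_zero, neg_zero] at this
  have g0 : (A.U0 (q + 1) (A.dM q w), A.N (q + 2) (A.U1 (q + 1) (A.dM q w))) ∈ A.D (q + 1) := by
    have := A.U0_D (q + 1) (A.dM q w)
    rwa [A.dM_dM, map_zero, add_zero] at this
  -- `x'`
  obtain ⟨x', hx', bx'⟩ := e₂ (-A.U1 (q + 1) (A.dM q w)) (by
    have := (A.D (q + 2)).neg_mem g1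
    rwa [Prod.neg_mk, neg_zero] at this)
  rw [norm_neg] at bx'
  have bx1 : ‖x'‖ ≤ α₁ * δ := by
    refine bx'.trans ?_
    rw [hα₁, mul_assoc]
    exact mul_le_mul_of_nonneg_left (bv' _) hC₂
  -- `y'`
  obtain ⟨y', hy', by'⟩ := e₁ (A.U0 (q + 1) (A.dM q w) + A.N (q + 1) x') (by
    have := (A.D (q + 1)).add_mem g0 (A.N_D (q + 1) _ _ hx')
    rwa [Prod.mk_add_mk, map_neg, add_neg_cancel] at this)
  have by1 : ‖y'‖ ≤ α₂ * δ := by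
    refine by'.trans ?_
    rw [hα₂, mul_assoc]
    refine mul_le_mul_of_nonneg_left ?_ hC₁
    refine (norm_add_le _ _).trans ?_
    have h3 := bu' (A.dM q w)
    have h4 := (hN' x').trans (mul_le_mul_of_nonneg_left bx1 hν0')
    rw [add_mul, mul_assoc]
    exact add_le_add h3 h4
  -- `x''`
  obtain ⟨x'', hx'', bx''⟩ := e₁ (-(A.U1 q w - x')) (by
    have := (A.D (q + 1)).neg_mem ((A.D (q + 1)).sub_mem f1 hx')
    rwa [Prod.mk_sub_mk, sub_self, Prod.neg_mk, neg_zero] at this)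
  rw [norm_neg] at bx''
  have bx2 : ‖x''‖ ≤ α₃ * (‖w‖ + δ) := by
    refine bx''.trans ?_
    rw [hα₃, mul_assoc]
    refine mul_le_mul_of_nonneg_left ?_ hC₁
    refine (norm_sub_le _ _).trans ?_
    have h3 := bv w
    nlinarith [mul_nonneg hv hδ0, mul_nonneg p1 hw0]
  -- the last cycle
  have hz : (A.U0 q w - y' + A.N q x'', 0) ∈ A.D q := by
    have := (A.D q).add_mem ((A.D q).sub_mem f0 hy') (A.N_D q _ _ hx'')
    rw [Prod.mk_sub_mk, Prod.mk_add_mk, map_neg, map_sub] at this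
    have h3 : A.N (q + 1) (A.U1 q w) + A.U0 (q + 1) (A.dM q w) -
        (A.U0 (q + 1) (A.dM q w) + A.N (q + 1) x') +
        -(A.N (q + 1) (A.U1 q w) - A.N (q + 1) x') = 0 := by abel
    rwa [h3] at this
  have bz : ‖A.U0 q w - y' + A.N q x''‖ ≤ α₄ * (‖w‖ + δ) := by
    refine (norm_add_le _ _).trans ?_
    have h3 := norm_sub_le (A.U0 q w) y'
    have h4 := bu w
    have h5 := (hN x'').trans (mul_le_mul_of_nonneg_left bx2 hν0)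
    rw [hα₄]
    nlinarith [mul_nonneg hu hδ0, mul_nonneg p2 hw0]
  have hwd : 0 ≤ ‖w‖ + δ := by positivity
  refine ⟨x', y', x'', hx'', hz, ?_, ?_, ?_, ?_⟩
  · nlinarith [mul_nonneg p2 hδ0, mul_nonneg p3 hδ0, mul_nonneg p4 hδ0]
  · nlinarith [mul_nonneg p1 hδ0, mul_nonneg p3 hδ0, mul_nonneg p4 hδ0]
  · nlinarith [mul_nonneg p1 hwd, mul_nonneg p2 hwd, mul_nonneg p4 hwd]
  · nlinarith [mul_nonneg p1 hwd, mul_nonneg p2 hwd, mul_nonneg p3 hwd]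

theorem TData.bound_zero (A : TData K M) (h0 : ExAt A.D 0) (h1 : ExAt A.D 1)
    (h2 : ExAt A.D 2) : ∃ C : ℝ, 0 ≤ C ∧ ∀ w : M 0, ‖w‖ ^ 2 ≤ C * ‖A.dM 0 w‖ ^ 2 := by
  obtain ⟨C, hC, hst⟩ := A.steps 0 h1 h2
  obtain ⟨l, hl, bl⟩ := A.L0b 0
  obtain ⟨m, hm, bm⟩ := A.L1b 0
  refine ⟨((l + m) * C) ^ 2, by positivity, fun w => ?_⟩
  obtain ⟨x', y', x'', hx'', hz, bx', by', -, -⟩ := hst w
  have hz0 := h0 _ hz
  have s1 := A.stokes10 w _ _ hx''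
  rw [map_neg, neg_inj, map_sub] at s1
  have s0 : A.L0 0 w (A.U0 0 w) - A.L0 0 w y' + A.L0 0 w (A.N 0 x'') = 0 := by
    rw [← map_sub, ← map_add, hz0, map_zero]
  have ht := A.total 0 w
  have b1 := bm w x'
  have b0 := bl w y'
  set W := ‖w‖ with hW
  set δ := ‖A.dM 0 w‖ with hδ
  have hW0 : 0 ≤ W := norm_nonneg _
  have hδ0 : 0 ≤ δ := norm_nonneg _
  have c1 : |A.L1 0 w x'| ≤ m * C * (W * δ) := by
    refine b1.trans ?_
    calc m * W * ‖x'‖ ≤ m * W * (C * δ) := mul_le_mul_of_nonneg_left bx' (by positivity)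
      _ = m * C * (W * δ) := by ring
  have c0 : |A.L0 0 w y'| ≤ l * C * (W * δ) := by
    refine b0.trans ?_
    calc l * W * ‖y'‖ ≤ l * W * (C * δ) := mul_le_mul_of_nonneg_left by' (by positivity)
      _ = l * C * (W * δ) := by ring
  have c2 : 2 * W ^ 2 ≤ (l + m) * C * (W * δ) := by
    have a1 := (abs_le.1 c1).1
    have a0 := (abs_le.1 c0).1
    nlinarith
  nlinarith [sq_nonneg (W - (l + m) * C * δ), sq_nonneg W]

theorem TData.bound (A : TData K M) (q : ℕ) (h0 : ExAt A.D (q + 1)) (h1 : ExAt A.D (q + 2))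
    (h2 : ExAt A.D (q + 3)) : ∃ C : ℝ, 0 ≤ C ∧ ∀ (w : M (q + 1)) (c : M q), A.Cod q w c →
      ‖w‖ ^ 2 ≤ C * (‖A.dM (q + 1) w‖ ^ 2 + ‖c‖ ^ 2) := by
  obtain ⟨C, hC, hst⟩ := A.steps (q + 1) h1 h2
  obtain ⟨C₀, hC₀, e₀⟩ := A.exAt_bound h0
  obtain ⟨l, hl, bl⟩ := A.L0b (q + 1)
  obtain ⟨m, hm, bm⟩ := A.L1b (q + 1)
  obtain ⟨l', hl', bl'⟩ := A.L0b q
  obtain ⟨m', hm', bm'⟩ := A.L1b q
  set B := (l + m) * C + (l' * C₀ * C + m' * C) with hB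
  have hB0 : 0 ≤ B := by positivity
  refine ⟨B ^ 2 + B, by positivity, fun w c hwc => ?_⟩
  obtain ⟨x', y', x'', hx'', hz, bx', by', bx'', bz⟩ := hst w
  obtain ⟨y'', hy'', by''⟩ := e₀ _ hz
  have s1 := A.stokes1 q w c hwc _ _ hx''
  rw [map_neg, map_sub] at s1
  have s0 := A.stokes0 q w c hwc _ _ hy''
  rw [map_add, map_sub] at s0
  have ht := A.total (q + 1) w
  have b1 := bm w x'
  have b0 := bl w y'
  have b2 := bm' c x''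
  have b3 := bl' c y''
  set W := ‖w‖ with hW
  set δ := ‖A.dM (q + 1) w‖ with hδ
  set γ := ‖c‖ with hγ
  have hW0 : 0 ≤ W := norm_nonneg _
  have hδ0 : 0 ≤ δ := norm_nonneg _
  have hγ0 : 0 ≤ γ := norm_nonneg _
  have c1 : |A.L1 (q + 1) w x'| ≤ m * C * (W * δ) := by
    refine b1.trans ?_
    calc m * W * ‖x'‖ ≤ m * W * (C * δ) := mul_le_mul_of_nonneg_left bx' (by positivity)
      _ = m * C * (W * δ) := by ring
  have c0 : |A.L0 (q + 1) w y'| ≤ l * C * (W * δ) := by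
    refine b0.trans ?_
    calc l * W * ‖y'‖ ≤ l * W * (C * δ) := mul_le_mul_of_nonneg_left by' (by positivity)
      _ = l * C * (W * δ) := by ring
  have c2 : |A.L1 q c x''| ≤ m' * C * (γ * (W + δ)) := by
    refine b2.trans ?_
    calc m' * γ * ‖x''‖ ≤ m' * γ * (C * (W + δ)) :=
          mul_le_mul_of_nonneg_left bx'' (by positivity)
      _ = m' * C * (γ * (W + δ)) := by ring
  have c3 : |A.L0 q c y''| ≤ l' * C₀ * C * (γ * (W + δ)) := by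
    refine b3.trans ?_
    have h5 : ‖y''‖ ≤ C₀ * (C * (W + δ)) := by''.trans (mul_le_mul_of_nonneg_left bz hC₀)
    calc l' * γ * ‖y''‖ ≤ l' * γ * (C₀ * (C * (W + δ))) :=
          mul_le_mul_of_nonneg_left h5 (by positivity)
      _ = l' * C₀ * C * (γ * (W + δ)) := by ring
  have key : 2 * W ^ 2 ≤ B * (W * δ + γ * (W + δ)) := by
    have a1 := (abs_le.1 c1).1
    have a0 := (abs_le.1 c0).1
    have a2 := (abs_le.1 c2).1
    have a3 := (abs_le.1 c3).1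
    have k1 : 2 * W ^ 2 ≤ (l + m) * C * (W * δ) + (l' * C₀ * C + m' * C) * (γ * (W + δ)) := by
      nlinarith
    have k2 : 0 ≤ W * δ := by positivity
    have k3 : 0 ≤ γ * (W + δ) := by positivity
    have k4 : 0 ≤ (l + m) * C := by positivity
    have k5 : 0 ≤ l' * C₀ * C + m' * C := by positivity
    have k6 := mul_nonneg k4 k3
    have k7 := mul_nonneg k5 k2
    rw [hB]
    nlinarith
  nlinarith [sq_nonneg (W - B * δ), sq_nonneg (W - B * γ), mul_nonneg hB0 (sq_nonneg (γ - δ)),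
    mul_nonneg hB0 (sq_nonneg γ), mul_nonneg hB0 (sq_nonneg δ)]

end Pool.Agent.ZSp
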