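import Pool.Agent.Work.MP_058ed1_gt.G.Stmt

/-!
# A reflection with a uniformly collared mirror
-/

open scoped Manifold ContDiff Topology Bundle
open Set Bundle MeasureTheory

noncomputable section

namespace Pool.Agent.ZSp

/-- `0` is in the approximate point spectrum of `(Δ_p)_min`: `Δ_p` is not bounded below on
`Ω_c^p(X)`. -/
def ZeroApprox (E : Type*) [NormedAddCommGroup E] [InnerProductSpace ℝ E] [FiniteDimensional ℝ E]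
    (X : Type*) [EMetricSpace X] [ChartedSpace E X]
    [RiemannianBundle (fun x : X => TangentSpace 𝓘(ℝ, E) x)]
    [MeasurableSpace X] [BorelSpace X] (p : ℕ) : Prop :=
  ∀ C : ℝ, ∃ w η : PForm E X p, LapEq p w η ∧ C * l2 η η < l2 w w

/-- the differential of a real function. -/
def dReal (E : Type*) [NormedAddCommGroup E] [InnerProductSpace ℝ E] {X : Type*}
    [TopologicalSpace X] [ChartedSpace E X] (f : X → ℝ) (x : X) :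
    TangentSpace 𝓘(ℝ, E) x →L[ℝ] ℝ := mfderiv 𝓘(ℝ, E) 𝓘(ℝ, ℝ) f x

/-- `s` is a reflection of `X` with mirror `H`: `s` is a smooth involution, `τ` is a smooth
function with `τ ∘ s = - τ`, and the region `|τ| < r` is a collar `H × (-r, r)` of the mirror
(`Γ z t` is the point over `z ∈ H` with `τ = t`, and `ρ x` is the foot of `x`), in which `s` is
`(z, t) ↦ (z, - t)`; the derivatives of `s`, of `Γ` and of its inverse `(ρ, τ)` are bounded. -/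
structure Mirror (E : Type*) [NormedAddCommGroup E] [InnerProductSpace ℝ E]
    (E' : Type*) [NormedAddCommGroup E'] [InnerProductSpace ℝ E'] {X H : Type*}
    [EMetricSpace X] [ChartedSpace E X] [RiemannianBundle (fun x : X => TangentSpace 𝓘(ℝ, E) x)]
    [EMetricSpace H] [ChartedSpace E' H] [RiemannianBundle (fun x : H => TangentSpace 𝓘(ℝ, E') x)]
    (s : X → X) (τ : X → ℝ) (r : ℝ) (Γ : H → ℝ → X) (ρ : X → H) : Prop where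
  r_pos : 0 < r
  smooth_s : ContMDiff 𝓘(ℝ, E) 𝓘(ℝ, E) ∞ s
  invol : ∀ x, s (s x) = x
  smooth_τ : ContMDiff 𝓘(ℝ, E) 𝓘(ℝ, ℝ) ∞ τ
  odd : ∀ x, τ (s x) = - τ x
  smooth_Γ : ContMDiffOn (𝓘(ℝ, E').prod 𝓘(ℝ, ℝ)) 𝓘(ℝ, E) ∞ (fun z : H × ℝ => Γ z.1 z.2)
    {z | |z.2| < r}
  smooth_ρ : ContMDiffOn 𝓘(ℝ, E) 𝓘(ℝ, E') ∞ ρ {x | |τ x| < r}
  τ_Γ : ∀ z t, |t| < r → τ (Γ z t) = t
  ρ_Γ : ∀ z t, |t| < r → ρ (Γ z t) = z
  Γ_ρ : ∀ x, |τ x| < r → Γ (ρ x) (τ x) = x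
  flip : ∀ z t, |t| < r → s (Γ z t) = Γ z (-t)
  bdd : ∃ L : ℝ,
    (∀ (x : X) (u : TangentSpace 𝓘(ℝ, E) x), ‖mfderiv 𝓘(ℝ, E) 𝓘(ℝ, E) s x u‖ ≤ L * ‖u‖) ∧
    (∀ x, |τ x| < r → ∀ u : TangentSpace 𝓘(ℝ, E) x,
      ‖mfderiv 𝓘(ℝ, E) 𝓘(ℝ, E') ρ x u‖ ≤ L * ‖u‖ ∧
      |dReal E τ x u| ≤ L * ‖u‖) ∧
    (∀ z t, |t| < r → ∀ u : TangentSpace 𝓘(ℝ, E') z,
      ‖mfderiv 𝓘(ℝ, E') 𝓘(ℝ, E) (fun z' => Γ z' t) z u‖ ≤ L * ‖u‖) ∧
    (∀ z t, |t| < r → ‖mfderiv 𝓘(ℝ, ℝ) 𝓘(ℝ, E) (fun t' => Γ z t') t (1 : ℝ)‖ ≤ L)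

end Pool.Agent.ZSp
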