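import Pool.Agent.Work.MP_058ed1_gt.C.Base
import Pool.Agent.Work.MP_058ed1_gt.T.MirDef

/-!
# Transfer theorem: working definitions
-/

open scoped Manifold ContDiff Topology Bundle ENNReal NNReal
open Set MeasureTheory Bundle Filter

set_option linter.unusedSectionVars false

noncomputable section

namespace Pool.Agent.ZSp

section iota

variable {V V' : Type*} [NormedAddCommGroup V] [NormedSpace ℝ V] [NormedAddCommGroup V']
  [NormedSpace ℝ V'] {q : ℕ}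

/-- contraction of a form on `V` with `u`, pulled back by `D`. -/
def iotaD (W : V [⋀^Fin (q + 1)]→L[ℝ] ℝ) (u : V) (D : V' →L[ℝ] V) : V' [⋀^Fin q]→L[ℝ] ℝ :=
  (W.curryLeft u).compContinuousLinearMap D

theorem iotaD_apply (W : V [⋀^Fin (q + 1)]→L[ℝ] ℝ) (u : V) (D : V' →L[ℝ] V) (v : Fin q → V') :
    iotaD W u D v = W (Matrix.vecCons u fun k => D (v k)) := rfl

end iota

section defs

variable {E : Type*} [NormedAddCommGroup E] [InnerProductSpace ℝ E]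
  {X : Type*} [TopologicalSpace X] [ChartedSpace E X]
  {E' : Type*} [NormedAddCommGroup E'] [InnerProductSpace ℝ E']
  {H : Type*} [TopologicalSpace H] [ChartedSpace E' H] {q : ℕ}

/-- `Γ_t^* w`, a form on `H`. -/
def T0 (Γ : H → ℝ → X) (t : ℝ) (w : PForm E X q) : PForm E' H q := fun z =>
  (w (Γ z t)).compContinuousLinearMap (mfderiv 𝓘(ℝ, E') 𝓘(ℝ, E) (fun z' => Γ z' t) z)

/-- `Γ_t^*(ι_{∂_t} w)`, a form on `H`. -/
def T1 (Γ : H → ℝ → X) (t : ℝ) (w : PForm E X (q + 1)) : PForm E' H q := fun z =>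
  iotaD (V := E) (V' := E') (w (Γ z t)) (mfderiv 𝓘(ℝ, ℝ) 𝓘(ℝ, E) (fun t' => Γ z t') t (1 : ℝ))
    (mfderiv 𝓘(ℝ, E') 𝓘(ℝ, E) (fun z' => Γ z' t) z)

open Classical in
/-- `f(τ) ρ^* α`, a form on `X` (`f` has compact support in `(-r, r)`). -/
def uF (τ : X → ℝ) (r : ℝ) (ρ : X → H) (f : ℝ → ℝ) (α : PForm E' H q) : PForm E X q := fun x =>
  if |τ x| < r then f (τ x) • (α (ρ x)).compContinuousLinearMap
    (mfderiv 𝓘(ℝ, E) 𝓘(ℝ, E') ρ x) else 0

/-- `f'(τ) dτ ∧ ρ^* α`. -/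
def rF (τ : X → ℝ) (r : ℝ) (ρ : X → H) (f : ℝ → ℝ) (α : PForm E' H q) : PForm E X (q + 1) :=
  extD (uF τ r ρ f α) - uF τ r ρ f (extD α)

/-- `f` is smooth and vanishes for `|t| ≥ r'`, for some `r' < r`. -/
def CFun (r : ℝ) (f : ℝ → ℝ) : Prop := ContDiff ℝ ∞ f ∧ ∃ r' : ℝ, 0 < r' ∧ r' < r ∧
  ∀ t, r' ≤ |t| → f t = 0

/-- a family of forms on `H`, continuous in `(z, t)` for `|t| < r`. -/
def JCont (r : ℝ) (A : ℝ → PForm E' H q) : Prop := ∀ z₀ : H,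
  ContinuousOn (fun p : E' × ℝ => inChart (A p.2) z₀ p.1)
    ((ch E' z₀).target ×ˢ {t : ℝ | |t| < r})

end defs

/-- comparison of the measures on the collar: the volume of `X` and the product measure. -/
def Compare (E : Type*) [NormedAddCommGroup E] [InnerProductSpace ℝ E]
    (E' : Type*) [NormedAddCommGroup E'] [InnerProductSpace ℝ E'] {X H : Type*}
    [EMetricSpace X] [MeasurableSpace X] [BorelSpace X]
    [EMetricSpace H] [MeasurableSpace H] [BorelSpace H]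
    (τ : X → ℝ) (r : ℝ) (Γ : H → ℝ → X) : Prop :=
  ∃ K : ℝ, 0 ≤ K ∧ ∀ f : X → ℝ, Continuous f → HasCompactSupport f → (∀ x, 0 ≤ f x) →
    (∃ r' : ℝ, r' < r ∧ ∀ x, r' ≤ |τ x| → f x = 0) →
    ((∫ t in {t : ℝ | |t| < r}, ∫ z, f (Γ z t) ∂(vol E' H)) ≤ K * ∫ x, f x ∂(vol E X)) ∧
    ((∫ x, f x ∂(vol E X)) ≤ K * ∫ t in {t : ℝ | |t| < r}, ∫ z, f (Γ z t) ∂(vol E' H))

end Pool.Agent.ZSp
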