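import Pool.Agent.Work.MP_058ed1_gt.C.Leib
import Pool.Agent.Work.MP_058ed1_gt.T.Tdef

/-!
# Transfer theorem, module BOUND: pointwise bounds
-/

open scoped Manifold ContDiff Topology Bundle ENNReal NNReal
open Set MeasureTheory Bundle Filter

set_option linter.unusedSectionVars false

noncomputable section

namespace Pool.Agent.ZSp

section pointwiseT

variable {V : Type*} [NormedAddCommGroup V] [InnerProductSpace ℝ V] [FiniteDimensional ℝ V]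
  {W : Type*} [NormedAddCommGroup W] [InnerProductSpace ℝ W] [FiniteDimensional ℝ W] {p : ℕ}

/-- bound of the norm by the values on orthonormal vectors. -/
theorem ainner_self_le_of_basis (α : V [⋀^Fin p]→L[ℝ] ℝ) {B : ℝ}
    (h : ∀ i : Fin p → Fin (Module.finrank ℝ V),
      (α (fun k => stdOrthonormalBasis ℝ V (i k))) ^ 2 ≤ B) :
    ainner α α ≤ ((p.factorial : ℝ))⁻¹ * ((Module.finrank ℝ V : ℝ) ^ p * B) := by
  classical
  have h0 : (0 : ℝ) < (p.factorial : ℝ) := by positivity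
  unfold ainner
  refine mul_le_mul_of_nonneg_left ?_ (inv_nonneg.2 h0.le)
  have h3 := Finset.sum_le_sum fun i (_ : i ∈ (Finset.univ : Finset (Fin p →
    Fin (Module.finrank ℝ V)))) => h i
  rw [Finset.sum_const, Finset.card_univ, Fintype.card_fun, Fintype.card_fin, Fintype.card_fin,
    nsmul_eq_mul] at h3
  push_cast at h3
  refine le_trans (le_of_eq ?_) h3
  refine Finset.sum_congr rfl fun i _ => ?_
  rw [sq]

/-- the norm of a wedge product with a covector. -/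
theorem ainner_wedge_le (A : V [⋀^Fin (p + 1)]→L[ℝ] ℝ) (l : V →L[ℝ] ℝ)
    (α : V [⋀^Fin p]→L[ℝ] ℝ) {M : ℝ} (hM : ∀ u, |l u| ≤ M * ‖u‖)
    (hA : ∀ v : Fin (p + 1) → V, A v = ∑ k : Fin (p + 1), (-1 : ℝ) ^ (k : ℕ) *
      (l (v k) * α (k.removeNth v))) :
    ainner A A ≤ (((p + 1).factorial : ℝ))⁻¹ * ((Module.finrank ℝ V : ℝ) ^ (p + 1) *
      (((p + 1 : ℕ) : ℝ) * ((p + 1 : ℕ) * (M ^ 2 * ((p.factorial : ℝ) * ainner α α))))) := by
  classical
  refine ainner_self_le_of_basis A fun i => ?_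
  set e := stdOrthonormalBasis ℝ V with he
  rw [hA]
  have h1 : ∀ k : Fin (p + 1), ((-1 : ℝ) ^ (k : ℕ) *
      (l (e (i k)) * α (k.removeNth fun k => e (i k)))) ^ 2 ≤
        M ^ 2 * ((p.factorial : ℝ) * ainner α α) := by
    intro k
    have h2 : (l (e (i k))) ^ 2 ≤ M ^ 2 := by
      have h3 := hM (e (i k))
      rw [e.norm_eq_one, mul_one] at h3
      rw [← sq_abs]
      exact pow_le_pow_left₀ (abs_nonneg _) h3 2
    have h4 : (α (k.removeNth fun k => e (i k))) ^ 2 ≤ (p.factorial : ℝ) * ainner α α := by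
      refine (sq_apply_le α _).trans (le_of_eq ?_)
      have h5 : ∏ j : Fin p, ‖(k.removeNth fun k => e (i k)) j‖ ^ 2 = 1 := by
        refine Finset.prod_eq_one fun j _ => ?_
        show ‖e (i (k.succAbove j))‖ ^ 2 = 1
        rw [e.norm_eq_one, one_pow]
      rw [h5, mul_one]
    have h6 : ((-1 : ℝ) ^ (k : ℕ)) ^ 2 = 1 := by
      rw [← pow_mul, mul_comm, pow_mul]
      simp
    rw [mul_pow, h6, one_mul, mul_pow]
    exact mul_le_mul h2 h4 (sq_nonneg _) (sq_nonneg _)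
  have h7 := sq_sum_le_card_mul_sum_sq (s := (Finset.univ : Finset (Fin (p + 1))))
    (f := fun k => (-1 : ℝ) ^ (k : ℕ) * (l (e (i k)) * α (k.removeNth fun k => e (i k))))
  refine h7.trans ?_
  rw [Finset.card_univ, Fintype.card_fin]
  refine mul_le_mul_of_nonneg_left ?_ (Nat.cast_nonneg _)
  refine (Finset.sum_le_sum fun k _ => h1 k).trans (le_of_eq ?_)
  rw [Finset.sum_const, Finset.card_univ, Fintype.card_fin, nsmul_eq_mul]

/-- the norm of a contraction followed by a pull-back. -/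
theorem ainner_iotaD_le (α : W [⋀^Fin (p + 1)]→L[ℝ] ℝ) (u : W) (D : V →L[ℝ] W) {L : ℝ}
    (hu : ‖u‖ ≤ L) (hD : ∀ v, ‖D v‖ ≤ L * ‖v‖) :
    ainner (iotaD α u D) (iotaD α u D) ≤ ((p.factorial : ℝ))⁻¹ *
      ((Module.finrank ℝ V : ℝ) ^ p * (((p + 1).factorial : ℝ) * ainner α α *
        (L ^ 2 * (L ^ 2) ^ p))) := by
  classical
  refine ainner_self_le_of_basis _ fun i => ?_
  set e := stdOrthonormalBasis ℝ V with he
  rw [iotaD_apply]
  refine (sq_apply_le α _).trans ?_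
  have h0 : (0 : ℝ) ≤ ((p + 1).factorial : ℝ) := by positivity
  refine mul_le_mul_of_nonneg_left ?_ (mul_nonneg h0 (ainner_self_nonneg α))
  rw [Fin.prod_univ_succ]
  have h1 : ‖(Matrix.vecCons u fun k => D (e (i k)) : Fin (p + 1) → W) 0‖ ^ 2 ≤ L ^ 2 :=
    pow_le_pow_left₀ (norm_nonneg _) hu 2
  have h2 : ∏ k : Fin p, ‖(Matrix.vecCons u fun k => D (e (i k)) : Fin (p + 1) → W) k.succ‖ ^ 2 ≤
      (L ^ 2) ^ p := by
    have h3 : ∏ k : Fin p, ‖(Matrix.vecCons u fun k => D (e (i k)) : Fin (p + 1) → W) k.succ‖ ^ 2 ≤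
        ∏ _k : Fin p, L ^ 2 := by
      refine Finset.prod_le_prod (fun k _ => by positivity) fun k _ => ?_
      have h4 := hD (e (i k))
      rw [e.norm_eq_one, mul_one] at h4
      exact pow_le_pow_left₀ (norm_nonneg _) h4 2
    refine h3.trans (le_of_eq ?_)
    rw [Finset.prod_const, Finset.card_univ, Fintype.card_fin]
  exact mul_le_mul h1 h2 (Finset.prod_nonneg fun k _ => by positivity) (by positivity)

end pointwiseT

variable {E : Type*} [NormedAddCommGroup E] [InnerProductSpace ℝ E] [FiniteDimensional ℝ E]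
  {X : Type*} [EMetricSpace X] [ChartedSpace E X]
  [IsManifold 𝓘(ℝ, E) ∞ X] [RiemannianBundle (fun x : X => TangentSpace 𝓘(ℝ, E) x)]
  [IsContMDiffRiemannianBundle 𝓘(ℝ, E) ∞ E (fun x : X => TangentSpace 𝓘(ℝ, E) x)]
  [IsRiemannianManifold 𝓘(ℝ, E) X] [MeasurableSpace X] [BorelSpace X]
  {E' : Type*} [NormedAddCommGroup E'] [InnerProductSpace ℝ E'] [FiniteDimensional ℝ E']
  {H : Type*} [EMetricSpace H] [ChartedSpace E' H]
  [IsManifold 𝓘(ℝ, E') ∞ H] [RiemannianBundle (fun x : H => TangentSpace 𝓘(ℝ, E') x)]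
  [IsContMDiffRiemannianBundle 𝓘(ℝ, E') ∞ E' (fun x : H => TangentSpace 𝓘(ℝ, E') x)]
  [IsRiemannianManifold 𝓘(ℝ, E') H] [MeasurableSpace H] [BorelSpace H]
  {s : X → X} {τ : X → ℝ} {r : ℝ} {Γ : H → ℝ → X} {ρ : X → H} {q : ℕ}

variable (E X q) in
/-- `|df ∧ w| ≤ C |df| |w|`. -/
theorem pin_dwedge_le_of_bound : ∃ C : ℝ, 0 ≤ C ∧ ∀ (f : X → ℝ) (w : PForm E X q),
    ContMDiff 𝓘(ℝ, E) 𝓘(ℝ, ℝ) ∞ f → SmoothForm w → ∀ (x : X) (M : ℝ),
    (∀ u : TangentSpace 𝓘(ℝ, E) x, |dReal E f x u| ≤ M * ‖u‖) →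
    pin (dwedge f w) (dwedge f w) x ≤ C * M ^ 2 * pin w w x := by
  refine ⟨(((q + 1).factorial : ℝ))⁻¹ * ((Module.finrank ℝ E : ℝ) ^ (q + 1) *
      (((q + 1 : ℕ) : ℝ) * ((q + 1 : ℕ) * (q.factorial : ℝ)))), by positivity, ?_⟩
  intro f w hf hw x M hM
  have h1 := ainner_wedge_le (V := TangentSpace 𝓘(ℝ, E) x) (dwedge f w x) (dfun E f x) (w x)
    (M := M) hM (fun v => dwedge_apply hf hw x v)
  refine (show pin (dwedge f w) (dwedge f w) x = ainner (dwedge f w x) (dwedge f w x)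
    from rfl).le.trans (h1.trans (le_of_eq ?_))
  show (((q + 1).factorial : ℝ))⁻¹ * ((Module.finrank ℝ E : ℝ) ^ (q + 1) *
      (((q + 1 : ℕ) : ℝ) * ((q + 1 : ℕ) * (M ^ 2 * ((q.factorial : ℝ) * pin w w x))))) = _
  ring

variable (q) in
theorem Mirror.pin_T0_le (h : Mirror E E' s τ r Γ ρ) : ∃ C : ℝ, 0 ≤ C ∧
    ∀ (w : PForm E X q) (z : H) (t : ℝ), |t| < r →
      pin (T0 Γ t w : PForm E' H q) (T0 Γ t w) z ≤ C * pin w w (Γ z t) := by
  obtain ⟨L, -, -, hL, -⟩ := h.bdd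
  refine ⟨((Module.finrank ℝ E' : ℝ) * L ^ 2) ^ q, by positivity, ?_⟩
  intro w z t ht
  exact ainner_comp_le (V := TangentSpace 𝓘(ℝ, E') z) (W := TangentSpace 𝓘(ℝ, E) (Γ z t))
    (mfderiv 𝓘(ℝ, E') 𝓘(ℝ, E) (fun z' => Γ z' t) z) (hL z t ht) (w (Γ z t))

variable (q) in
theorem Mirror.pin_T1_le (h : Mirror E E' s τ r Γ ρ) : ∃ C : ℝ, 0 ≤ C ∧
    ∀ (w : PForm E X (q + 1)) (z : H) (t : ℝ), |t| < r →
      pin (T1 Γ t w : PForm E' H q) (T1 Γ t w) z ≤ C * pin w w (Γ z t) := by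
  obtain ⟨L, -, -, hL, hL'⟩ := h.bdd
  refine ⟨((q.factorial : ℝ))⁻¹ * ((Module.finrank ℝ E' : ℝ) ^ q * (((q + 1).factorial : ℝ) *
        (L ^ 2 * (L ^ 2) ^ q))), by positivity, ?_⟩
  intro w z t ht
  have h1 := ainner_iotaD_le (V := TangentSpace 𝓘(ℝ, E') z) (W := TangentSpace 𝓘(ℝ, E) (Γ z t))
    (w (Γ z t)) (mfderiv 𝓘(ℝ, ℝ) 𝓘(ℝ, E) (fun t' => Γ z t') t (1 : ℝ))
    (mfderiv 𝓘(ℝ, E') 𝓘(ℝ, E) (fun z' => Γ z' t) z) (hL' z t ht) (hL z t ht)
  refine h1.trans (le_of_eq ?_)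
  show ((q.factorial : ℝ))⁻¹ * ((Module.finrank ℝ E' : ℝ) ^ q * (((q + 1).factorial : ℝ) *
    pin w w (Γ z t) * (L ^ 2 * (L ^ 2) ^ q))) = _
  ring

variable (q) in
theorem Mirror.pin_uF_le (h : Mirror E E' s τ r Γ ρ) : ∃ C : ℝ, 0 ≤ C ∧
    ∀ (f : ℝ → ℝ) (α : PForm E' H q) (x : X), |τ x| < r →
      pin (uF τ r ρ f α : PForm E X q) (uF τ r ρ f α) x ≤ C * f (τ x) ^ 2 * pin α α (ρ x) := by
  classical
  obtain ⟨L, -, hL, -, -⟩ := h.bdd
  refine ⟨((Module.finrank ℝ E : ℝ) * L ^ 2) ^ q, by positivity, ?_⟩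
  intro f α x hx
  have h1 := ainner_comp_le (V := TangentSpace 𝓘(ℝ, E) x) (W := TangentSpace 𝓘(ℝ, E') (ρ x))
    (mfderiv 𝓘(ℝ, E) 𝓘(ℝ, E') ρ x) (fun u => (hL x hx u).1) (α (ρ x))
  have h2 : (uF τ r ρ f α : PForm E X q) x = f (τ x) • (α (ρ x)).compContinuousLinearMap
      (mfderiv 𝓘(ℝ, E) 𝓘(ℝ, E') ρ x) := by
    unfold uF
    rw [if_pos hx]
  show ainner ((uF τ r ρ f α : PForm E X q) x) ((uF τ r ρ f α : PForm E X q) x) ≤ _
  rw [h2, ainner_smul_left, ainner_comm, ainner_smul_left]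
  have h3 := mul_le_mul_of_nonneg_left h1 (sq_nonneg (f (τ x)))
  refine le_trans (le_of_eq (by ring)) (h3.trans (le_of_eq ?_))
  show f (τ x) ^ 2 * (((Module.finrank ℝ E : ℝ) * L ^ 2) ^ q * pin α α (ρ x)) = _
  ring

end Pool.Agent.ZSp
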