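import Pool.Agent.Work.MP_058ed1_gt.T.Chart
import Pool.Agent.Work.MP_058ed1_gt.G.FormsA

/-!
# Transfer theorem, module CARTAN: `∂_t Γ_t^* w = Γ_t^* ι_{∂_t} dw + d Γ_t^* ι_{∂_t} w`
-/

open scoped Manifold ContDiff Topology Bundle ENNReal NNReal
open Set MeasureTheory Bundle Filter

set_option linter.unusedSectionVars false

noncomputable section

namespace Pool.Agent.ZSp

section vec

variable {V' : Type*} [NormedAddCommGroup V'] [NormedSpace ℝ V'] {q : ℕ}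

/-- `(u, 0)`. -/
def upV (u : Fin q → V') : Fin q → V' × ℝ := fun k => (u k, 0)

/-- `((0, 1), (u_1, 0), …, (u_q, 0))`. -/
def dtV (u : Fin q → V') : Fin (q + 1) → V' × ℝ := Matrix.vecCons ((0 : V'), (1 : ℝ)) (upV u)

theorem removeNth_zero_dtV (u : Fin q → V') : (0 : Fin (q + 1)).removeNth (dtV u) = upV u := by
  funext i
  simp [Fin.removeNth, dtV]

theorem removeNth_succ_dtV (u : Fin (q + 1) → V') (k : Fin (q + 1)) :
    k.succ.removeNth (dtV u) = dtV (k.removeNth u) := by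
  funext i
  refine Fin.cases ?_ (fun j => ?_) i
  · simp [Fin.removeNth, dtV]
  · simp [Fin.removeNth, dtV, upV]

theorem contDiffAt_slice [FiniteDimensional ℝ V'] {W : V' × ℝ → (V' × ℝ) [⋀^Fin (q + 1)]→L[ℝ] ℝ}
    {y : V'} {t : ℝ} {m : WithTop ℕ∞} (hW : ContDiffAt ℝ m W (y, t)) :
    ContDiffAt ℝ m (fun y' : V' => iotaD (V := V' × ℝ) (V' := V') (W (y', t))
      ((0 : V'), (1 : ℝ)) (ContinuousLinearMap.inl ℝ V' ℝ)) y := by
  apply contDiffAt_altV
  intro v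
  have h1 : ContDiffAt ℝ m (fun p => W p (dtV v)) (y, t) := contDiffAt_altV_apply hW _
  have h2 : ContDiffAt ℝ m (fun y' : V' => ((y', t) : V' × ℝ)) y :=
    contDiffAt_id.prodMk contDiffAt_const
  exact h1.comp y h2

/-- Cartan's formula on `V' × ℝ`. -/
theorem cartan_vec [FiniteDimensional ℝ V'] {W : V' × ℝ → (V' × ℝ) [⋀^Fin (q + 1)]→L[ℝ] ℝ}
    {y : V'} {t : ℝ} (hW : ContDiffAt ℝ ∞ W (y, t)) (u : Fin (q + 1) → V') :
    HasDerivAt (fun t' : ℝ => W (y, t') (upV u))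
      (extDeriv W (y, t) (dtV u) +
        extDeriv (fun y' : V' => iotaD (V := V' × ℝ) (V' := V') (W (y', t))
          ((0 : V'), (1 : ℝ)) (ContinuousLinearMap.inl ℝ V' ℝ)) y u) t := by
  have hd : DifferentiableAt ℝ W (y, t) := hW.differentiableAt (by simp)
  have hap : ∀ X : Fin (q + 1) → V' × ℝ, DifferentiableAt ℝ (fun p => W p X) (y, t) :=
    fun X => (contDiffAt_altV_apply hW X).differentiableAt (by simp)
  have hd2 : DifferentiableAt ℝ (fun y' : V' => iotaD (V := V' × ℝ) (V' := V') (W (y', t))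
      ((0 : V'), (1 : ℝ)) (ContinuousLinearMap.inl ℝ V' ℝ)) y :=
    (contDiffAt_slice hW).differentiableAt (by simp)
  have h1 : HasDerivAt (fun t' : ℝ => W (y, t') (upV u))
      (fderiv ℝ (fun p => W p (upV u)) (y, t) ((0 : V'), (1 : ℝ))) t := by
    have h2 : HasDerivAt (fun t' : ℝ => ((y, t') : V' × ℝ)) ((0 : V'), (1 : ℝ)) t :=
      (hasDerivAt_const t y).prodMk (hasDerivAt_id t)
    exact (hap (upV u)).hasFDerivAt.comp_hasDerivAt t h2
  have h3 : ∀ k : Fin (q + 1), fderiv ℝ (fun y' : V' => iotaD (V := V' × ℝ) (V' := V')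
      (W (y', t)) ((0 : V'), (1 : ℝ)) (ContinuousLinearMap.inl ℝ V' ℝ) (k.removeNth u)) y (u k) =
      fderiv ℝ (fun p => W p (dtV (k.removeNth u))) (y, t) ((u k, 0) : V' × ℝ) := by
    intro k
    have h4 : HasFDerivAt (fun y' : V' => ((y', t) : V' × ℝ))
        (ContinuousLinearMap.inl ℝ V' ℝ) y := (hasFDerivAt_id y).prodMk (hasFDerivAt_const t y)
    have h5 := HasFDerivAt.comp y (hap (dtV (k.removeNth u))).hasFDerivAt h4
    have h6 : (fun y' : V' => iotaD (V := V' × ℝ) (V' := V')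
      (W (y', t)) ((0 : V'), (1 : ℝ)) (ContinuousLinearMap.inl ℝ V' ℝ) (k.removeNth u)) =
      (fun p => W p (dtV (k.removeNth u))) ∘ (fun y' : V' => ((y', t) : V' × ℝ)) := rfl
    rw [h6, h5.fderiv]
    rfl
  have h7 : extDeriv W (y, t) (dtV u) +
        extDeriv (fun y' : V' => iotaD (V := V' × ℝ) (V' := V') (W (y', t))
          ((0 : V'), (1 : ℝ)) (ContinuousLinearMap.inl ℝ V' ℝ)) y u =
      fderiv ℝ (fun p => W p (upV u)) (y, t) ((0 : V'), (1 : ℝ)) := by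
    rw [extDeriv_apply hd, extDeriv_apply hd2, Fin.sum_univ_succ, removeNth_zero_dtV]
    have h8 : ∀ k : Fin (q + 1), (-1 : ℤ) ^ (k.succ : Fin (q + 2)).val •
        fderiv ℝ (fun p => W p (k.succ.removeNth (dtV u))) (y, t) (dtV u k.succ) +
        (-1 : ℤ) ^ k.val • fderiv ℝ (fun y' : V' => iotaD (V := V' × ℝ) (V' := V')
          (W (y', t)) ((0 : V'), (1 : ℝ)) (ContinuousLinearMap.inl ℝ V' ℝ) (k.removeNth u)) y
          (u k) = 0 := by
      intro k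
      rw [h3 k, removeNth_succ_dtV, Fin.val_succ, pow_succ]
      have h9 : dtV u k.succ = ((u k, 0) : V' × ℝ) := rfl
      rw [h9, mul_neg_one, neg_smul, neg_add_cancel]
    rw [add_assoc, ← Finset.sum_add_distrib, Finset.sum_congr rfl fun k _ => h8 k,
      Finset.sum_const_zero, add_zero, Fin.val_zero, pow_zero, one_smul]
    rfl
  rw [h7]
  exact h1

/-- Cartan's formula on `V' × ℝ`, functions. -/
theorem cartan_vec_zero {W : V' × ℝ → (V' × ℝ) [⋀^Fin 0]→L[ℝ] ℝ}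
    {y : V'} {t : ℝ} (hW : ContDiffAt ℝ ∞ W (y, t)) (u : Fin 0 → V') :
    HasDerivAt (fun t' : ℝ => W (y, t') (upV u)) (extDeriv W (y, t) (dtV u)) t := by
  have hd : DifferentiableAt ℝ W (y, t) := hW.differentiableAt (by simp)
  have hap : ∀ X : Fin 0 → V' × ℝ, DifferentiableAt ℝ (fun p => W p X) (y, t) :=
    fun X => ((ContinuousAlternatingMap.apply ℝ (V' × ℝ) ℝ X).differentiableAt).comp (y, t) hd
  have h1 : HasDerivAt (fun t' : ℝ => W (y, t') (upV u))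
      (fderiv ℝ (fun p => W p (upV u)) (y, t) ((0 : V'), (1 : ℝ))) t := by
    have h2 : HasDerivAt (fun t' : ℝ => ((y, t') : V' × ℝ)) ((0 : V'), (1 : ℝ)) t :=
      (hasDerivAt_const t y).prodMk (hasDerivAt_id t)
    exact (hap (upV u)).hasFDerivAt.comp_hasDerivAt t h2
  have h7 : extDeriv W (y, t) (dtV u) =
      fderiv ℝ (fun p => W p (upV u)) (y, t) ((0 : V'), (1 : ℝ)) := by
    rw [extDeriv_apply hd, Fin.sum_univ_succ, removeNth_zero_dtV, Fin.sum_univ_zero, add_zero,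
      Fin.val_zero, pow_zero, one_smul]
    rfl
  rw [h7]
  exact h1

end vec

variable {E : Type*} [NormedAddCommGroup E] [InnerProductSpace ℝ E] [FiniteDimensional ℝ E]
  {X : Type*} [EMetricSpace X] [ChartedSpace E X]
  [IsManifold 𝓘(ℝ, E) ∞ X] [RiemannianBundle (fun x : X => TangentSpace 𝓘(ℝ, E) x)]
  [IsContMDiffRiemannianBundle 𝓘(ℝ, E) ∞ E (fun x : X => TangentSpace 𝓘(ℝ, E) x)]
  [IsRiemannianManifold 𝓘(ℝ, E) X] [MeasurableSpace X] [BorelSpace X]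
  {E' : Type*} [NormedAddCommGroup E'] [InnerProductSpace ℝ E'] [FiniteDimensional ℝ E']
  {H : Type*} [EMetricSpace H] [ChartedSpace E' H]
  [IsManifold 𝓘(ℝ, E') ∞ H] [RiemannianBundle (fun x : H => TangentSpace 𝓘(ℝ, E') x)]
  [IsContMDiffRiemannianBundle 𝓘(ℝ, E') ∞ E' (fun x : H => TangentSpace 𝓘(ℝ, E') x)]
  [IsRiemannianManifold 𝓘(ℝ, E') H] [MeasurableSpace H] [BorelSpace H]
  {s : X → X} {τ : X → ℝ} {r : ℝ} {Γ : H → ℝ → X} {ρ : X → H} {q : ℕ}

/-- a form at `z`, computed in the chart around `z`. -/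
theorem apply_eq_inChart (w : PForm E' H q) (z : H) (v : Fin q → TangentSpace 𝓘(ℝ, E') z) :
    w z v = inChart w z (ch E' z z)
      (fun i => (mfderiv 𝓘(ℝ, E') 𝓘(ℝ, E') (ch E' z) z (v i) : E')) := by
  have h1 : (ch E' z).symm (ch E' z z) = z := extChartAt_to_inv z
  change w z v = w ((ch E' z).symm (ch E' z z)) (fun i =>
    (mfderiv 𝓘(ℝ, E') 𝓘(ℝ, E') (ch E' z).symm (ch E' z z)
      (mfderiv 𝓘(ℝ, E') 𝓘(ℝ, E') (ch E' z) z (v i)) : E'))
  refine Eq.trans ?_ (form_congr w h1.symm _)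
  congr 1
  funext i
  exact (mfderiv_ch_symm_comp (mem_extChartAt_source z) (v i)).symm

theorem Mirror.contDiffAt_pullV (h : Mirror E E' s τ r Γ ρ) {w : PForm E X q}
    (hw : SmoothForm w) {z₀ : H} {y : E'} (hy : y ∈ (ch E' z₀).target) {t : ℝ} (ht : |t| < r) :
    ContDiffAt ℝ ∞ (pullV (Gz Γ z₀ : E' × ℝ → X) w) (y, t) :=
  (pullV_contDiffOn (isOpen_Gz_dom z₀ r) (h.smooth_Gz z₀) hw).contDiffAt
    ((isOpen_Gz_dom z₀ r).mem_nhds (mk_mem_prod hy ht))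

/-- Cartan's formula: `∂_t Γ_t^* w = Γ_t^* ι_{∂_t} dw + d Γ_t^* ι_{∂_t} w`. -/
theorem Mirror.hasDerivAt_T0 (h : Mirror E E' s τ r Γ ρ) {t : ℝ} (ht : |t| < r)
    {w : PForm E X (q + 1)} (hw : SmoothForm w) (z : H)
    (v : Fin (q + 1) → TangentSpace 𝓘(ℝ, E') z) :
    HasDerivAt (fun t' : ℝ => (T0 Γ t' w : PForm E' H (q + 1)) z v)
      ((T1 Γ t (extD w) : PForm E' H (q + 1)) z v + extD (T1 Γ t w : PForm E' H q) z v) t := by
  have hy : ch E' z z ∈ (ch E' z).target := ch_self_mem_target z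
  have hev : ∀ᶠ t' in 𝓝 t, |t'| < r := (isOpen_abs_lt r).mem_nhds ht
  have hc := cartan_vec (h.contDiffAt_pullV hw hy ht)
    (fun i => (mfderiv 𝓘(ℝ, E') 𝓘(ℝ, E') (ch E' z) z (v i) : E'))
  have h1 : (fun t' : ℝ => (T0 Γ t' w : PForm E' H (q + 1)) z v) =ᶠ[𝓝 t] fun t' : ℝ =>
      pullV (Gz Γ z : E' × ℝ → X) w (ch E' z z, t') (upV
        (fun i => (mfderiv 𝓘(ℝ, E') 𝓘(ℝ, E') (ch E' z) z (v i) : E'))) := by
    filter_upwards [hev] with t' ht'
    rw [apply_eq_inChart, h.inChart_T0 hy ht' w]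
    rfl
  have h2 : (T1 Γ t (extD w) : PForm E' H (q + 1)) z v =
      extDeriv (pullV (Gz Γ z : E' × ℝ → X) w) (ch E' z z, t) (dtV
        (fun i => (mfderiv 𝓘(ℝ, E') 𝓘(ℝ, E') (ch E' z) z (v i) : E'))) := by
    rw [apply_eq_inChart, h.inChart_T1 hy ht (extD w),
      extDeriv_pullV (isOpen_Gz_dom z r) (h.smooth_Gz z) hw (mk_mem_prod hy ht)]
    rfl
  have h3 : extD (T1 Γ t w : PForm E' H q) z v =
      extDeriv (fun y' : E' => iotaD (V := E' × ℝ) (V' := E')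
        (pullV (Gz Γ z : E' × ℝ → X) w (y', t))
          ((0 : E'), (1 : ℝ)) (ContinuousLinearMap.inl ℝ E' ℝ)) (ch E' z z)
        (fun i => (mfderiv 𝓘(ℝ, E') 𝓘(ℝ, E') (ch E' z) z (v i) : E')) := by
    have h4 : inChart (T1 Γ t w : PForm E' H q) z =ᶠ[𝓝 (ch E' z z)]
        fun y' : E' => iotaD (V := E' × ℝ) (V' := E')
        (pullV (Gz Γ z : E' × ℝ → X) w (y', t))
          ((0 : E'), (1 : ℝ)) (ContinuousLinearMap.inl ℝ E' ℝ) := by
      filter_upwards [ch_target_nhds hy] with y' hy'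
      exact h.inChart_T1 hy' ht w
    rw [← h4.extDeriv_eq]
    rfl
  rw [h2, h3]
  exact hc.congr_of_eventuallyEq h1

theorem Mirror.hasDerivAt_T0_zero (h : Mirror E E' s τ r Γ ρ) {t : ℝ} (ht : |t| < r)
    {w : PForm E X 0} (hw : SmoothForm w) (z : H) (v : Fin 0 → TangentSpace 𝓘(ℝ, E') z) :
    HasDerivAt (fun t' : ℝ => (T0 Γ t' w : PForm E' H 0) z v)
      ((T1 Γ t (extD w) : PForm E' H 0) z v) t := by
  have hy : ch E' z z ∈ (ch E' z).target := ch_self_mem_target z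
  have hev : ∀ᶠ t' in 𝓝 t, |t'| < r := (isOpen_abs_lt r).mem_nhds ht
  have hc := cartan_vec_zero (h.contDiffAt_pullV hw hy ht)
    (fun i => (mfderiv 𝓘(ℝ, E') 𝓘(ℝ, E') (ch E' z) z (v i) : E'))
  have h1 : (fun t' : ℝ => (T0 Γ t' w : PForm E' H 0) z v) =ᶠ[𝓝 t] fun t' : ℝ =>
      pullV (Gz Γ z : E' × ℝ → X) w (ch E' z z, t') (upV
        (fun i => (mfderiv 𝓘(ℝ, E') 𝓘(ℝ, E') (ch E' z) z (v i) : E'))) := by
    filter_upwards [hev] with t' ht'
    rw [apply_eq_inChart, h.inChart_T0 hy ht' w]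
    rfl
  have h2 : (T1 Γ t (extD w) : PForm E' H 0) z v =
      extDeriv (pullV (Gz Γ z : E' × ℝ → X) w) (ch E' z z, t) (dtV
        (fun i => (mfderiv 𝓘(ℝ, E') 𝓘(ℝ, E') (ch E' z) z (v i) : E'))) := by
    rw [apply_eq_inChart, h.inChart_T1 hy ht (extD w),
      extDeriv_pullV (isOpen_Gz_dom z r) (h.smooth_Gz z) hw (mk_mem_prod hy ht)]
    rfl
  rw [h2]
  exact hc.congr_of_eventuallyEq h1

end Pool.Agent.ZSp
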