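import Pool.Agent.Work.MP_058ed1_gt.C.PullV
import Pool.Agent.Work.MP_058ed1_gt.G.FormsA
import Pool.Agent.Work.MP_058ed1_gt.T.Tdef

/-!
# Transfer theorem, module CHART: `Γ_t^*` in charts
-/

open scoped Manifold ContDiff Topology Bundle ENNReal NNReal
open Set MeasureTheory Bundle Filter

set_option linter.unusedSectionVars false

noncomputable section

namespace Pool.Agent.ZSp

variable {E : Type*} [NormedAddCommGroup E] [InnerProductSpace ℝ E] [FiniteDimensional ℝ E]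
  {X : Type*} [EMetricSpace X] [ChartedSpace E X]
  [IsManifold 𝓘(ℝ, E) ∞ X] [RiemannianBundle (fun x : X => TangentSpace 𝓘(ℝ, E) x)]
  [IsContMDiffRiemannianBundle 𝓘(ℝ, E) ∞ E (fun x : X => TangentSpace 𝓘(ℝ, E) x)]
  [IsRiemannianManifold 𝓘(ℝ, E) X] [MeasurableSpace X] [BorelSpace X]
  {E' : Type*} [NormedAddCommGroup E'] [InnerProductSpace ℝ E'] [FiniteDimensional ℝ E']
  {H : Type*} [EMetricSpace H] [ChartedSpace E' H]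
  [IsManifold 𝓘(ℝ, E') ∞ H] [RiemannianBundle (fun x : H => TangentSpace 𝓘(ℝ, E') x)]
  [IsContMDiffRiemannianBundle 𝓘(ℝ, E') ∞ E' (fun x : H => TangentSpace 𝓘(ℝ, E') x)]
  [IsRiemannianManifold 𝓘(ℝ, E') H] [MeasurableSpace H] [BorelSpace H]
  {s : X → X} {τ : X → ℝ} {r : ℝ} {Γ : H → ℝ → X} {ρ : X → H} {q : ℕ}


/-- the map `(y, t) ↦ Γ(ψ(y), t)`, `ψ` the inverse of the chart around `z₀`. -/
def Gz (Γ : H → ℝ → X) (z₀ : H) : E' × ℝ → X := fun p => Γ ((ch E' z₀).symm p.1) p.2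

theorem contMDiffOn_chR (z₀ : H) :
    ContMDiffOn 𝓘(ℝ, E' × ℝ) (𝓘(ℝ, E').prod 𝓘(ℝ, ℝ)) ∞
      (fun p : E' × ℝ => (((ch E' z₀).symm p.1, p.2) : H × ℝ))
      ((ch E' z₀).target ×ˢ (univ : Set ℝ)) := by
  have h1 : ContMDiffOn 𝓘(ℝ, E') 𝓘(ℝ, E') ∞ (ch E' z₀).symm (ch E' z₀).target :=
    contMDiffOn_extChartAt_symm z₀
  have h2 : ContMDiffOn 𝓘(ℝ, E' × ℝ) 𝓘(ℝ, E') ∞ (fun p : E' × ℝ => p.1)
      ((ch E' z₀).target ×ˢ (univ : Set ℝ)) := contDiff_fst.contMDiff.contMDiffOn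
  have h3 : ContMDiffOn 𝓘(ℝ, E' × ℝ) 𝓘(ℝ, ℝ) ∞ (fun p : E' × ℝ => p.2)
      ((ch E' z₀).target ×ˢ (univ : Set ℝ)) := contDiff_snd.contMDiff.contMDiffOn
  exact (h1.comp h2 fun p hp => hp.1).prodMk h3

theorem Mirror.smooth_Gz (h : Mirror E E' s τ r Γ ρ) (z₀ : H) :
    ContMDiffOn 𝓘(ℝ, E' × ℝ) 𝓘(ℝ, E) ∞ (Gz Γ z₀ : E' × ℝ → X)
      ((ch E' z₀).target ×ˢ {t : ℝ | |t| < r}) := by
  have h1 := (contMDiffOn_chR (E' := E') z₀).mono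
    (prod_mono_right (subset_univ {t : ℝ | |t| < r}))
  exact h.smooth_Γ.comp h1 fun p hp => hp.2

theorem isOpen_abs_lt (r : ℝ) : IsOpen {t : ℝ | |t| < r} :=
  isOpen_lt continuous_abs continuous_const

theorem isOpen_abs_lt_prod (r : ℝ) : IsOpen {z : H × ℝ | |z.2| < r} :=
  isOpen_lt (continuous_abs.comp continuous_snd) continuous_const

theorem isOpen_Gz_dom (z₀ : H) (r : ℝ) :
    IsOpen ((ch E' z₀).target ×ˢ {t : ℝ | |t| < r}) :=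
  (ch_target_open z₀).prod (isOpen_abs_lt r)

/-- `z ↦ Γ z t` is smooth. -/
theorem Mirror.smooth_left (h : Mirror E E' s τ r Γ ρ) {t : ℝ} (ht : |t| < r) :
    ContMDiff 𝓘(ℝ, E') 𝓘(ℝ, E) ∞ (fun z : H => Γ z t) := by
  have h1 : ContMDiff 𝓘(ℝ, E') (𝓘(ℝ, E').prod 𝓘(ℝ, ℝ)) ∞ (fun z : H => (z, t)) :=
    contMDiff_id.prodMk contMDiff_const
  rw [← contMDiffOn_univ]
  exact h.smooth_Γ.comp h1.contMDiffOn fun z _ => ht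

/-- `t ↦ Γ z t` is smooth on `(-r, r)`. -/
theorem Mirror.smooth_right (h : Mirror E E' s τ r Γ ρ) (z : H) :
    ContMDiffOn 𝓘(ℝ, ℝ) 𝓘(ℝ, E) ∞ (fun t : ℝ => Γ z t) {t : ℝ | |t| < r} := by
  have h1 : ContMDiff 𝓘(ℝ, ℝ) (𝓘(ℝ, E').prod 𝓘(ℝ, ℝ)) ∞ (fun t : ℝ => (z, t)) :=
    contMDiff_const.prodMk contMDiff_id
  exact h.smooth_Γ.comp h1.contMDiffOn fun t ht => ht

theorem Mirror.mdiff_Gz (h : Mirror E E' s τ r Γ ρ) {z₀ : H} {y : E'}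
    (hy : y ∈ (ch E' z₀).target) {t : ℝ} (ht : |t| < r) :
    MDifferentiableAt 𝓘(ℝ, E' × ℝ) 𝓘(ℝ, E) (Gz Γ z₀ : E' × ℝ → X) (y, t) :=
  ((h.smooth_Gz z₀).contMDiffAt (x := (y, t))
    ((isOpen_Gz_dom z₀ r).mem_nhds (mk_mem_prod hy ht))).mdifferentiableAt (by simp)

theorem Mirror.mdiff_left (h : Mirror E E' s τ r Γ ρ) {t : ℝ} (ht : |t| < r) (z : H) :
    MDifferentiableAt 𝓘(ℝ, E') 𝓘(ℝ, E) (fun z : H => Γ z t) z :=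
  (h.smooth_left ht).mdifferentiableAt (by simp)

theorem Mirror.mdiff_right (h : Mirror E E' s τ r Γ ρ) {t : ℝ} (ht : |t| < r) (z : H) :
    MDifferentiableAt 𝓘(ℝ, ℝ) 𝓘(ℝ, E) (fun t : ℝ => Γ z t) t :=
  ((h.smooth_right z).contMDiffAt ((isOpen_abs_lt r).mem_nhds ht)).mdifferentiableAt
    (by simp)

/-- the derivative of `Gz` in the direction of `H`. -/
theorem Mirror.mfderiv_Gz_inl (h : Mirror E E' s τ r Γ ρ) {z₀ : H} {y : E'}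
    (hy : y ∈ (ch E' z₀).target) {t : ℝ} (ht : |t| < r) (v : E') :
    (mfderiv 𝓘(ℝ, E' × ℝ) 𝓘(ℝ, E) (Gz Γ z₀ : E' × ℝ → X) (y, t) ((v, 0) : E' × ℝ) : E) =
      mfderiv 𝓘(ℝ, E') 𝓘(ℝ, E) (fun z' => Γ z' t) ((ch E' z₀).symm y)
        (mfderiv 𝓘(ℝ, E') 𝓘(ℝ, E') (ch E' z₀).symm y v) := by
  have h1 : HasMFDerivAt 𝓘(ℝ, E') 𝓘(ℝ, E) (fun y' : E' => Gz Γ z₀ (y', t)) y
      ((mfderiv 𝓘(ℝ, E' × ℝ) 𝓘(ℝ, E) (Gz Γ z₀ : E' × ℝ → X) (y, t)).comp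
        (ContinuousLinearMap.inl ℝ E' ℝ)) := by
    refine HasMFDerivAt.comp y (f := fun y' : E' => ((y', t) : E' × ℝ))
      (h.mdiff_Gz hy ht).hasMFDerivAt ?_
    exact ((hasFDerivAt_id y).prodMk (hasFDerivAt_const t y)).hasMFDerivAt
  have h2 : HasMFDerivAt 𝓘(ℝ, E') 𝓘(ℝ, E) (fun y' : E' => Gz Γ z₀ (y', t)) y
      ((mfderiv 𝓘(ℝ, E') 𝓘(ℝ, E) (fun z' => Γ z' t) ((ch E' z₀).symm y)).comp
        (mfderiv 𝓘(ℝ, E') 𝓘(ℝ, E') (ch E' z₀).symm y)) :=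
    HasMFDerivAt.comp y (h.mdiff_left ht _).hasMFDerivAt (mdiff_ch_symm hy).hasMFDerivAt
  have h3 := hasMFDerivAt_unique h1 h2
  exact congrArg (fun A : E' →L[ℝ] E => A v) h3

/-- the derivative of `Gz` in the direction of `t`. -/
theorem Mirror.mfderiv_Gz_inr (h : Mirror E E' s τ r Γ ρ) {z₀ : H} {y : E'}
    (hy : y ∈ (ch E' z₀).target) {t : ℝ} (ht : |t| < r) :
    (mfderiv 𝓘(ℝ, E' × ℝ) 𝓘(ℝ, E) (Gz Γ z₀ : E' × ℝ → X) (y, t) ((0, 1) : E' × ℝ) : E) =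
      mfderiv 𝓘(ℝ, ℝ) 𝓘(ℝ, E) (fun t' => Γ ((ch E' z₀).symm y) t') t (1 : ℝ) := by
  have h1 : HasMFDerivAt 𝓘(ℝ, ℝ) 𝓘(ℝ, E) (fun t' : ℝ => Gz Γ z₀ (y, t')) t
      ((mfderiv 𝓘(ℝ, E' × ℝ) 𝓘(ℝ, E) (Gz Γ z₀ : E' × ℝ → X) (y, t)).comp
        (ContinuousLinearMap.inr ℝ E' ℝ)) := by
    refine HasMFDerivAt.comp t (f := fun t' : ℝ => ((y, t') : E' × ℝ))
      (h.mdiff_Gz hy ht).hasMFDerivAt ?_
    exact ((hasFDerivAt_const y t).prodMk (hasFDerivAt_id t)).hasMFDerivAt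
  have h2 : HasMFDerivAt 𝓘(ℝ, ℝ) 𝓘(ℝ, E) (fun t' : ℝ => Gz Γ z₀ (y, t')) t
      (mfderiv 𝓘(ℝ, ℝ) 𝓘(ℝ, E) (fun t' => Γ ((ch E' z₀).symm y) t') t) :=
    (h.mdiff_right ht _).hasMFDerivAt
  have h3 := hasMFDerivAt_unique h1 h2
  exact congrArg (fun A : ℝ →L[ℝ] E => A 1) h3

theorem Mirror.inChart_T0 (h : Mirror E E' s τ r Γ ρ) {z₀ : H} {y : E'}
    (hy : y ∈ (ch E' z₀).target) {t : ℝ} (ht : |t| < r) (w : PForm E X q) :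
    inChart (T0 Γ t w : PForm E' H q) z₀ y =
      (pullV (Gz Γ z₀) w (y, t)).compContinuousLinearMap (ContinuousLinearMap.inl ℝ E' ℝ) := by
  ext v
  change w (Γ ((ch E' z₀).symm y) t) (fun i => mfderiv 𝓘(ℝ, E') 𝓘(ℝ, E) (fun z' => Γ z' t)
      ((ch E' z₀).symm y) (mfderiv 𝓘(ℝ, E') 𝓘(ℝ, E') (ch E' z₀).symm y (v i))) =
    w (Γ ((ch E' z₀).symm y) t) (fun i => mfderiv 𝓘(ℝ, E' × ℝ) 𝓘(ℝ, E)
      (Gz Γ z₀ : E' × ℝ → X) (y, t) ((v i, 0) : E' × ℝ))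
  congr 1
  funext i
  exact (h.mfderiv_Gz_inl hy ht (v i)).symm

theorem Mirror.inChart_T1 (h : Mirror E E' s τ r Γ ρ) {z₀ : H} {y : E'}
    (hy : y ∈ (ch E' z₀).target) {t : ℝ} (ht : |t| < r) (w : PForm E X (q + 1)) :
    inChart (T1 Γ t w : PForm E' H q) z₀ y =
      iotaD (V := E' × ℝ) (V' := E') (pullV (Gz Γ z₀) w (y, t)) ((0 : E'), (1 : ℝ))
        (ContinuousLinearMap.inl ℝ E' ℝ) := by
  ext v
  change w (Γ ((ch E' z₀).symm y) t) (Matrix.vecCons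
      (mfderiv 𝓘(ℝ, ℝ) 𝓘(ℝ, E) (fun t' => Γ ((ch E' z₀).symm y) t') t (1 : ℝ))
      (fun i => mfderiv 𝓘(ℝ, E') 𝓘(ℝ, E) (fun z' => Γ z' t)
      ((ch E' z₀).symm y) (mfderiv 𝓘(ℝ, E') 𝓘(ℝ, E') (ch E' z₀).symm y (v i)))) =
    w (Γ ((ch E' z₀).symm y) t) (fun i => mfderiv 𝓘(ℝ, E' × ℝ) 𝓘(ℝ, E)
      (Gz Γ z₀ : E' × ℝ → X) (y, t)
      (Matrix.vecCons ((0, 1) : E' × ℝ) (fun k => ((v k, 0) : E' × ℝ)) i))
  congr 1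
  funext i
  refine Fin.cases ?_ (fun k => ?_) i
  · exact (h.mfderiv_Gz_inr hy ht).symm
  · exact (h.mfderiv_Gz_inl hy ht (v k)).symm

end Pool.Agent.ZSp
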