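import Pool.Agent.Work.MP_058ed1_gt.T.Tdef
import Pool.Agent.Work.MP_058ed1_gt.D.Lip

/-!
# Transfer theorem, module COMP: comparison of the measures
-/

open scoped Manifold ContDiff Topology Bundle ENNReal NNReal
open Set MeasureTheory Bundle Filter

set_option linter.unusedSectionVars false

noncomputable section

namespace Pool.Agent.ZSp

variable {E : Type*} [NormedAddCommGroup E] [InnerProductSpace ℝ E] [FiniteDimensional ℝ E]
  {X : Type*} [EMetricSpace X] [ChartedSpace E X]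
  [IsManifold 𝓘(ℝ, E) ∞ X] [RiemannianBundle (fun x : X => TangentSpace 𝓘(ℝ, E) x)]
  [IsContMDiffRiemannianBundle 𝓘(ℝ, E) ∞ E (fun x : X => TangentSpace 𝓘(ℝ, E) x)]
  [IsRiemannianManifold 𝓘(ℝ, E) X] [MeasurableSpace X] [BorelSpace X]
  {E' : Type*} [NormedAddCommGroup E'] [InnerProductSpace ℝ E'] [FiniteDimensional ℝ E']
  {H : Type*} [EMetricSpace H] [ChartedSpace E' H]
  [IsManifold 𝓘(ℝ, E') ∞ H] [RiemannianBundle (fun x : H => TangentSpace 𝓘(ℝ, E') x)]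
  [IsContMDiffRiemannianBundle 𝓘(ℝ, E') ∞ E' (fun x : H => TangentSpace 𝓘(ℝ, E') x)]
  [IsRiemannianManifold 𝓘(ℝ, E') H] [MeasurableSpace H] [BorelSpace H]
  {s : X → X} {τ : X → ℝ} {r : ℝ} {Γ : H → ℝ → X} {ρ : X → H} {q : ℕ}

/-! ### Lipschitz bounds -/

section lip

variable {F : Type*} [NormedAddCommGroup F] [InnerProductSpace ℝ F]
  {Y : Type*} [EMetricSpace Y] [ChartedSpace F Y]
  [IsManifold 𝓘(ℝ, F) 1 Y] [RiemannianBundle (fun x : Y => TangentSpace 𝓘(ℝ, F) x)]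
  [IsRiemannianManifold 𝓘(ℝ, F) Y]
  {F' : Type*} [NormedAddCommGroup F'] [InnerProductSpace ℝ F']
  {Z : Type*} [EMetricSpace Z] [ChartedSpace F' Z]
  [IsManifold 𝓘(ℝ, F') 1 Z] [RiemannianBundle (fun x : Z => TangentSpace 𝓘(ℝ, F') x)]
  [IsRiemannianManifold 𝓘(ℝ, F') Z]

open Manifold in
/-- a map with bounded derivative on an open set is Lipschitz, for nearby points. -/
theorem edist_map_le_of_ball {g : Y → Z} {U : Set Y} (hU : IsOpen U)
    (hg : ContMDiffOn 𝓘(ℝ, F) 𝓘(ℝ, F') 1 g U) {K : ℝ≥0} (hK : 0 < K)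
    (hi : ∀ x ∈ U, ∀ v : TangentSpace 𝓘(ℝ, F) x,
      ‖mfderiv 𝓘(ℝ, F) 𝓘(ℝ, F') g x v‖ ≤ K * ‖v‖)
    {x y : Y} {R : ℝ≥0∞} (hR : Metric.eball x R ⊆ U) (hxy : edist x y < R) :
    edist (g x) (g y) ≤ K * edist x y := by
  have hK0 : (K : ℝ≥0∞) ≠ 0 := by simpa using hK.ne'
  have hK1 : (K : ℝ≥0∞) ≠ ⊤ := ENNReal.coe_ne_top
  rw [mul_comm, ← ENNReal.div_le_iff hK0 hK1]
  rw [IsRiemannianManifold.out (I := 𝓘(ℝ, F')), IsRiemannianManifold.out (I := 𝓘(ℝ, F)) x y]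
  rw [IsRiemannianManifold.out (I := 𝓘(ℝ, F)) x y] at hxy
  refine le_of_forall_gt fun r hr => ?_
  obtain ⟨γ, hγ0, hγ1, hγs, hγl, -⟩ :=
    Manifold.exists_lt_locally_constant_of_riemannianEDist_lt (lt_min hr hxy) zero_lt_one
  have hmem : ∀ t ∈ Icc (0 : ℝ) 1, γ t ∈ U := by
    intro t ht
    apply hR
    rw [Metric.mem_eball', IsRiemannianManifold.out (I := 𝓘(ℝ, F)) x (γ t)]
    have h1 : riemannianEDist 𝓘(ℝ, F) x (γ t) ≤ pathELength 𝓘(ℝ, F) γ 0 t := by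
      apply riemannianEDist_le_pathELength _ _ _ ht.1
      · exact hγs.contMDiffOn
      · exact hγ0
      · rfl
    have h2 : pathELength 𝓘(ℝ, F) γ 0 t ≤ pathELength 𝓘(ℝ, F) γ 0 1 :=
      pathELength_mono le_rfl ht.2
    exact (h1.trans h2).trans_lt (hγl.trans_le (min_le_right _ _))
  have h1 : riemannianEDist 𝓘(ℝ, F') (g x) (g y) ≤ pathELength 𝓘(ℝ, F') (g ∘ γ) 0 1 := by
    apply riemannianEDist_le_pathELength _ _ _ zero_le_one
    · exact hg.comp hγs.contMDiffOn hmem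
    · simp [hγ0]
    · simp [hγ1]
  have h2 : pathELength 𝓘(ℝ, F') (g ∘ γ) 0 1 ≤ K * pathELength 𝓘(ℝ, F) γ 0 1 := by
    rw [pathELength_eq_lintegral_mfderiv_Icc, pathELength_eq_lintegral_mfderiv_Icc,
      ← lintegral_const_mul' _ _ hK1]
    refine setLIntegral_mono' measurableSet_Icc fun t ht => ?_
    rw [mfderiv_comp (I' := 𝓘(ℝ, F)) t
      ((hg.mdifferentiableOn one_ne_zero).mdifferentiableAt (hU.mem_nhds (hmem t ht)))
      (hγs.mdifferentiable one_ne_zero _)]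
    have h3 := hi (γ t) (hmem t ht) (mfderiv 𝓘(ℝ, ℝ) 𝓘(ℝ, F) γ t 1)
    rw [← ofReal_norm, ← ofReal_norm]
    have h4 : (K : ℝ≥0∞) = ENNReal.ofReal (K : ℝ) := (ENNReal.ofReal_coe_nnreal).symm
    rw [h4, ← ENNReal.ofReal_mul (NNReal.coe_nonneg K)]
    exact ENNReal.ofReal_le_ofReal h3
  rw [ENNReal.div_lt_iff (Or.inl hK0) (Or.inl hK1), mul_comm]
  exact (h1.trans h2).trans_lt (ENNReal.mul_lt_mul_right hK0 hK1 (hγl.trans_le (min_le_left _ _)))

end lip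

/-- the constant. -/
theorem Mirror.exists_const (h : Mirror E E' s τ r Γ ρ) : ∃ L : ℝ≥0, 0 < L ∧
    (∀ x, |τ x| < r → ∀ u : TangentSpace 𝓘(ℝ, E) x,
      ‖mfderiv 𝓘(ℝ, E) 𝓘(ℝ, E') ρ x u‖ ≤ L * ‖u‖) ∧
    (∀ x, |τ x| < r → ∀ u : TangentSpace 𝓘(ℝ, E) x, |dReal E τ x u| ≤ L * ‖u‖) ∧
    (∀ z t, |t| < r → ∀ u : TangentSpace 𝓘(ℝ, E') z,
      ‖mfderiv 𝓘(ℝ, E') 𝓘(ℝ, E) (fun z' => Γ z' t) z u‖ ≤ L * ‖u‖) ∧
    (∀ z t, |t| < r → ‖mfderiv 𝓘(ℝ, ℝ) 𝓘(ℝ, E) (fun t' => Γ z t') t (1 : ℝ)‖ ≤ L) := by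
  obtain ⟨L, -, h2, h3, h4⟩ := h.bdd
  have hLL : L ≤ ((Real.toNNReal L + 1 : ℝ≥0) : ℝ) := by
    push_cast
    have := Real.le_coe_toNNReal L
    linarith
  refine ⟨Real.toNNReal L + 1, by positivity, fun x hx u => ?_, fun x hx u => ?_,
    fun z t ht u => ?_, fun z t ht => ?_⟩
  · exact (h2 x hx u).1.trans (mul_le_mul_of_nonneg_right hLL (norm_nonneg _))
  · exact (h2 x hx u).2.trans (mul_le_mul_of_nonneg_right hLL (norm_nonneg _))
  · exact (h3 z t ht u).trans (mul_le_mul_of_nonneg_right hLL (norm_nonneg _))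
  · exact (h4 z t ht).trans hLL

theorem Mirror.isOpen_collar (h : Mirror E E' s τ r Γ ρ) : IsOpen {x : X | |τ x| < r} :=
  isOpen_lt h.smooth_τ.continuous.abs continuous_const

theorem isOpen_strip (r : ℝ) : IsOpen {z : H × ℝ | |z.2| < r} :=
  isOpen_lt continuous_snd.abs continuous_const

/-- `(ρ, τ)` is continuous on the collar. -/
theorem Mirror.continuousOn_inv (h : Mirror E E' s τ r Γ ρ) :
    ContinuousOn (fun x : X => (ρ x, τ x)) {x : X | |τ x| < r} :=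
  h.smooth_ρ.continuousOn.prodMk h.smooth_τ.continuous.continuousOn

/-- `Γ` is Lipschitz in the first variable. -/
theorem Mirror.edist_Γ_left (h : Mirror E E' s τ r Γ ρ) {L : ℝ≥0} (hL : 0 < L)
    (h3 : ∀ z t, |t| < r → ∀ u : TangentSpace 𝓘(ℝ, E') z,
      ‖mfderiv 𝓘(ℝ, E') 𝓘(ℝ, E) (fun z' => Γ z' t) z u‖ ≤ L * ‖u‖) {t : ℝ} (ht : |t| < r)
    (z z' : H) : edist (Γ z t) (Γ z' t) ≤ L * edist z z' := by
  by_cases hzz : edist z z' = ⊤
  · rw [hzz, ENNReal.mul_top (by simpa using hL.ne')]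
    exact le_top
  have hsm : ContMDiff 𝓘(ℝ, E') 𝓘(ℝ, E) ∞ (fun z' : H => Γ z' t) := by
    have h1 : ContMDiff 𝓘(ℝ, E') (𝓘(ℝ, E').prod 𝓘(ℝ, ℝ)) ∞ (fun z' : H => (z', t)) :=
      contMDiff_id.prodMk contMDiff_const
    exact h.smooth_Γ.comp_contMDiff h1 (fun _ => ht)
  exact edist_map_le_of_ball (g := fun z' : H => Γ z' t) isOpen_univ
    (hsm.of_le (by norm_cast)).contMDiffOn hL
    (fun z _ u => h3 z t ht u) (R := ⊤) (subset_univ _) (lt_top_iff_ne_top.2 hzz)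

open Manifold in
/-- `Γ` is Lipschitz in the second variable. -/
theorem Mirror.edist_Γ_right (h : Mirror E E' s τ r Γ ρ) {L : ℝ≥0}
    (h4 : ∀ z t, |t| < r → ‖mfderiv 𝓘(ℝ, ℝ) 𝓘(ℝ, E) (fun t' => Γ z t') t (1 : ℝ)‖ ≤ L)
    {t t' : ℝ} (ht : |t| < r) (ht' : |t'| < r) (z : H) :
    edist (Γ z t) (Γ z t') ≤ L * edist t t' := by
  wlog htt : t ≤ t' generalizing t t'
  · rw [edist_comm, edist_comm t]
    exact this ht' ht (le_of_not_ge htt)
  have hsub : Icc t t' ⊆ {u : ℝ | |u| < r} := by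
    intro u hu
    show |u| < r
    rw [abs_lt] at ht ht' ⊢
    exact ⟨by linarith [hu.1], by linarith [hu.2]⟩
  have hsm : ContMDiffOn 𝓘(ℝ, ℝ) 𝓘(ℝ, E) ∞ (fun u : ℝ => Γ z u) {u : ℝ | |u| < r} := by
    have h1 : ContMDiff 𝓘(ℝ, ℝ) (𝓘(ℝ, E').prod 𝓘(ℝ, ℝ)) ∞ (fun u : ℝ => (z, u)) :=
      contMDiff_const.prodMk contMDiff_id
    exact h.smooth_Γ.comp h1.contMDiffOn (fun _ hu => hu)
  rw [IsRiemannianManifold.out (I := 𝓘(ℝ, E))]
  have h1 : riemannianEDist 𝓘(ℝ, E) (Γ z t) (Γ z t') ≤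
      pathELength 𝓘(ℝ, E) (fun u : ℝ => Γ z u) t t' := by
    apply riemannianEDist_le_pathELength _ _ _ htt
    · exact (hsm.mono hsub).of_le (by norm_cast)
    · rfl
    · rfl
  refine h1.trans ?_
  rw [pathELength_eq_lintegral_mfderiv_Icc]
  have h2 : ∫⁻ u in Icc t t', ‖mfderiv 𝓘(ℝ, ℝ) 𝓘(ℝ, E) (fun u : ℝ => Γ z u) u (1 : ℝ)‖ₑ ≤
      ∫⁻ _ in Icc t t', (L : ℝ≥0∞) := by
    refine setLIntegral_mono' measurableSet_Icc fun u hu => ?_
    have h5 := h4 z u (hsub hu)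
    rw [← ofReal_norm, ← ENNReal.ofReal_coe_nnreal]
    exact ENNReal.ofReal_le_ofReal h5
  refine h2.trans (le_of_eq ?_)
  rw [setLIntegral_const, Real.volume_Icc, edist_comm, edist_dist, Real.dist_eq,
    abs_of_nonneg (by linarith)]

/-- `Γ` is Lipschitz on the strip. -/
theorem Mirror.lip_Γ (h : Mirror E E' s τ r Γ ρ) {L : ℝ≥0} (hL : 0 < L)
    (h3 : ∀ z t, |t| < r → ∀ u : TangentSpace 𝓘(ℝ, E') z,
      ‖mfderiv 𝓘(ℝ, E') 𝓘(ℝ, E) (fun z' => Γ z' t) z u‖ ≤ L * ‖u‖)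
    (h4 : ∀ z t, |t| < r → ‖mfderiv 𝓘(ℝ, ℝ) 𝓘(ℝ, E) (fun t' => Γ z t') t (1 : ℝ)‖ ≤ L) :
    LipschitzOnWith (2 * L) (fun p : H × ℝ => Γ p.1 p.2) {z | |z.2| < r} := by
  rintro ⟨z, t⟩ ht ⟨z', t'⟩ ht'
  have h5 : edist (Γ z t) (Γ z' t) ≤ L * edist (z, t) (z', t') :=
    (h.edist_Γ_left hL h3 ht z z').trans (by
      gcongr
      exact le_max_left _ _)
  have h6 : edist (Γ z' t) (Γ z' t') ≤ L * edist (z, t) (z', t') :=
    (h.edist_Γ_right h4 ht ht' z').trans (by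
      gcongr
      exact le_max_right _ _)
  calc edist (Γ z t) (Γ z' t') ≤ edist (Γ z t) (Γ z' t) + edist (Γ z' t) (Γ z' t') :=
        edist_triangle _ _ _
    _ ≤ L * edist (z, t) (z', t') + L * edist (z, t) (z', t') := add_le_add h5 h6
    _ = ((2 * L : ℝ≥0) : ℝ≥0∞) * edist (z, t) (z', t') := by
        push_cast
        ring

/-- the inverse of `Γ` is locally Lipschitz on the collar. -/
theorem Mirror.lip_inv (h : Mirror E E' s τ r Γ ρ) {L : ℝ≥0} (hL : 0 < L)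
    (h1 : ∀ x, |τ x| < r → ∀ u : TangentSpace 𝓘(ℝ, E) x,
      ‖mfderiv 𝓘(ℝ, E) 𝓘(ℝ, E') ρ x u‖ ≤ L * ‖u‖)
    (h2 : ∀ x, |τ x| < r → ∀ u : TangentSpace 𝓘(ℝ, E) x, |dReal E τ x u| ≤ L * ‖u‖)
    {x₀ : X} (hx₀ : |τ x₀| < r) : ∃ δ : ℝ≥0∞, 0 < δ ∧
    LipschitzOnWith L (fun x : X => (ρ x, τ x)) (Metric.eball x₀ δ) := by
  obtain ⟨ε, hε, hball⟩ := EMetric.isOpen_iff.1 h.isOpen_collar x₀ hx₀
  obtain ⟨δ, hδ, hδε⟩ : ∃ δ : ℝ≥0∞, 0 < δ ∧ δ + (δ + δ) ≤ ε := by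
    refine ⟨ε / 3, ENNReal.div_pos hε.ne' (by norm_num), ?_⟩
    have h3 : ε / 3 + (ε / 3 + ε / 3) = 3 * (ε / 3) := by ring
    rw [h3]
    exact ENNReal.mul_div_le
  refine ⟨δ, hδ, fun x hx y hy => ?_⟩
  have hxy : edist x y < δ + δ := by
    have h3 := edist_triangle_right x y x₀
    exact h3.trans_lt (ENNReal.add_lt_add hx hy)
  have hR : Metric.eball x (δ + δ) ⊆ {x : X | |τ x| < r} := by
    intro w hw
    apply hball
    have h3 := edist_triangle w x x₀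
    refine h3.trans_lt (lt_of_lt_of_le (ENNReal.add_lt_add hw hx) ?_)
    rw [add_comm]
    exact hδε
  refine max_le ?_ ?_
  · exact edist_map_le_of_ball h.isOpen_collar (h.smooth_ρ.of_le (by norm_cast)) hL h1 hR hxy
  · refine edist_map_le_of_ball h.isOpen_collar
      ((h.smooth_τ.of_le (by norm_cast)).contMDiffOn) hL (fun x hx v => ?_) hR hxy
    rw [norm_tangentSpace_vectorSpace]
    exact h2 x hx v

/-! ### the product measure in a chart -/

section prodm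

/-- on `E' × ℝ` the Hausdorff measure is a multiple of the product measure. -/
theorem exists_prod_smul (E' : Type*) [NormedAddCommGroup E'] [InnerProductSpace ℝ E']
    [FiniteDimensional ℝ E'] [MeasurableSpace E'] [BorelSpace E'] : ∃ κ : ℝ≥0, 0 < κ ∧
    (Measure.hausdorffMeasure ((Module.finrank ℝ E' + 1 : ℕ) : ℝ) : Measure (E' × ℝ)) =
      κ • ((Measure.hausdorffMeasure (Module.finrank ℝ E' : ℝ) : Measure E').prod
        (volume : Measure ℝ)) := by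
  have h1 : Module.finrank ℝ (E' × ℝ) = Module.finrank ℝ E' + 1 := by
    rw [Module.finrank_prod, Module.finrank_self]
  rw [← h1]
  exact ⟨_, Measure.addHaarScalarFactor_pos_of_isAddHaarMeasure _ _,
    Measure.isAddLeftInvariant_eq_smul _ _⟩

theorem lipschitzOnWith_prodMap {α β : Type*} [EMetricSpace α] [EMetricSpace β] {e : α → β}
    {c : ℝ≥0} (hc : 1 ≤ c) {V : Set α} (h : LipschitzOnWith c e V) :
    LipschitzOnWith c (Prod.map e (id : ℝ → ℝ)) (V ×ˢ (univ : Set ℝ)) := by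
  rintro ⟨z, t⟩ hz ⟨z', t'⟩ hz'
  refine max_le ?_ ?_
  · refine (h hz.1 hz'.1).trans ?_
    gcongr
    exact le_max_left _ _
  · calc edist t t' ≤ 1 * edist (z, t) (z', t') := by
          rw [one_mul]
          exact le_max_right _ _
      _ ≤ c * edist (z, t) (z', t') := by
          gcongr
          exact_mod_cast hc

/-- comparison of the `(m+1)`-dimensional Hausdorff measure and of the product measure for a set
over the domain of a bi-Lipschitz map to `E'`. -/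
theorem prod_compare_of_biLip {α : Type*} [EMetricSpace α] [MeasurableSpace α] [BorelSpace α]
    (E' : Type*) [NormedAddCommGroup E'] [InnerProductSpace ℝ E']
    [FiniteDimensional ℝ E'] [MeasurableSpace E'] [BorelSpace E'] {κ : ℝ≥0} (hκ0 : 0 < κ)
    (hκ : (Measure.hausdorffMeasure ((Module.finrank ℝ E' + 1 : ℕ) : ℝ) : Measure (E' × ℝ)) =
      κ • ((Measure.hausdorffMeasure (Module.finrank ℝ E' : ℝ) : Measure E').prod
        (volume : Measure ℝ)))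
    {V : Set α} {W : Set E'} (hW : IsOpen W) {e : α → E'} {e' : E' → α}
    (he : MapsTo e V W) (hee : ∀ z ∈ V, e' (e z) = z)
    (hee' : ∀ y ∈ W, e (e' y) = y) {c : ℝ≥0} (hc : 1 ≤ c) (hl : LipschitzOnWith c e V)
    (hl' : LipschitzOnWith c e' W) (μ : Measure α) [SFinite μ]
    (hμ : ∀ S ⊆ V, μ S = Measure.hausdorffMeasure (Module.finrank ℝ E' : ℝ) S)
    {B : Set (α × ℝ)} (hB : MeasurableSet B) (hBV : B ⊆ V ×ˢ univ) :
    (Measure.hausdorffMeasure ((Module.finrank ℝ E' + 1 : ℕ) : ℝ) : Measure (α × ℝ)) B ≤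
      ((c ^ (Module.finrank ℝ E' + 1) * (κ * c ^ Module.finrank ℝ E') : ℝ≥0) : ℝ≥0∞) *
        μ.prod (volume : Measure ℝ) B ∧
    μ.prod (volume : Measure ℝ) B ≤
      ((c ^ Module.finrank ℝ E' * (κ⁻¹ * c ^ (Module.finrank ℝ E' + 1)) : ℝ≥0) : ℝ≥0∞) *
      (Measure.hausdorffMeasure ((Module.finrank ℝ E' + 1 : ℕ) : ℝ) : Measure (α × ℝ)) B := by
  set m := Module.finrank ℝ E' with hm
  set g : α × ℝ → E' × ℝ := Prod.map e id with hg
  set g' : E' × ℝ → α × ℝ := Prod.map e' id with hg'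
  set B' : Set (E' × ℝ) := g '' B with hB'
  have hB'W : B' ⊆ W ×ˢ univ := by
    rintro _ ⟨⟨z, t⟩, hz, rfl⟩
    exact ⟨he (hBV hz).1, mem_univ _⟩
  have hgB : g' '' B' = B := by
    ext p
    constructor
    · rintro ⟨_, ⟨⟨z, t⟩, hz, rfl⟩, rfl⟩
      have h1 : g' (g (z, t)) = (z, t) := by
        show (e' (e z), t) = (z, t)
        rw [hee z (hBV hz).1]
      rw [h1]
      exact hz
    · intro hp
      refine ⟨g p, ⟨p, hp, rfl⟩, ?_⟩
      show (e' (e p.1), p.2) = p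
      rw [hee p.1 (hBV hp).1]
  have hB'eq : B' = (W ×ˢ (univ : Set ℝ)) ∩ g' ⁻¹' B := by
    ext ⟨y, t⟩
    constructor
    · rintro ⟨⟨z, t'⟩, hz, hzt⟩
      have hz1 := (hBV hz).1
      have h1 : e z = y := congrArg Prod.fst hzt
      have h2 : t' = t := congrArg Prod.snd hzt
      subst h1 h2
      refine ⟨⟨he hz1, mem_univ _⟩, ?_⟩
      show (e' (e z), t') ∈ B
      rw [hee z hz1]
      exact hz
    · rintro ⟨h1, h2⟩
      refine ⟨g' (y, t), h2, ?_⟩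
      show (e (e' y), t) = (y, t)
      rw [hee' y h1.1]
  have L1 : LipschitzOnWith c g B := (lipschitzOnWith_prodMap hc hl).mono hBV
  have L2 : LipschitzOnWith c g' (W ×ˢ univ) := lipschitzOnWith_prodMap hc hl'
  have hB'm : MeasurableSet B' := by
    have hWm : MeasurableSet (W ×ˢ (univ : Set ℝ)) := hW.measurableSet.prod MeasurableSet.univ
    have h1 : Measurable ((W ×ˢ (univ : Set ℝ)).domRestrict g') :=
      (continuousOn_iff_continuous_domRestrict.1 L2.continuousOn).measurable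
    have h2 := MeasurableSet.subtype_image hWm (h1 hB)
    rw [hB'eq]
    convert h2 using 1
    ext p
    constructor
    · rintro ⟨h3, h4⟩
      exact ⟨⟨p, h3⟩, h4, rfl⟩
    · rintro ⟨⟨p', h3⟩, h4, rfl⟩
      exact ⟨h3, h4⟩
  have hd : (0 : ℝ) ≤ ((m + 1 : ℕ) : ℝ) := Nat.cast_nonneg _
  have hd' : (0 : ℝ) ≤ (m : ℝ) := Nat.cast_nonneg _
  have P1 := (L2.mono hB'W).hausdorffMeasure_image_le hd
  have P2 := L1.hausdorffMeasure_image_le hd
  rw [hgB, ENNReal.rpow_natCast] at P1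
  rw [ENNReal.rpow_natCast] at P2
  -- slices
  have hslice : ∀ t : ℝ, (fun y : E' => (y, t)) ⁻¹' B' = e '' ((fun z : α => (z, t)) ⁻¹' B) := by
    intro t
    ext y
    constructor
    · rintro ⟨⟨z, t'⟩, hz, hzt⟩
      have h1 : e z = y := congrArg Prod.fst hzt
      have h2 : t' = t := congrArg Prod.snd hzt
      subst h1 h2
      exact ⟨z, hz, rfl⟩
    · rintro ⟨z, hz, rfl⟩
      exact ⟨(z, t), hz, rfl⟩
  have hSV : ∀ t : ℝ, (fun z : α => (z, t)) ⁻¹' B ⊆ V := fun t z hz => (hBV hz).1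
  have hc1 : ((c : ℝ≥0∞) ^ m) ≠ ⊤ := by finiteness
  have Q1 : μ.prod (volume : Measure ℝ) B ≤ (c : ℝ≥0∞) ^ m *
      ((Measure.hausdorffMeasure (m : ℝ) : Measure E').prod (volume : Measure ℝ)) B' := by
    rw [Measure.prod_apply_symm hB, Measure.prod_apply_symm hB'm, ← lintegral_const_mul' _ _ hc1]
    refine lintegral_mono fun t => ?_
    show μ ((fun z : α => (z, t)) ⁻¹' B) ≤ (c : ℝ≥0∞) ^ m *
      Measure.hausdorffMeasure (m : ℝ) ((fun y : E' => (y, t)) ⁻¹' B')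
    rw [hμ _ (hSV t), hslice]
    have h1 : e' '' (e '' ((fun z : α => (z, t)) ⁻¹' B)) = (fun z : α => (z, t)) ⁻¹' B := by
      rw [← image_comp]
      have h2 : ∀ z ∈ (fun z : α => (z, t)) ⁻¹' B, (e' ∘ e) z = z := fun z hz =>
        hee z (hSV t hz)
      rw [image_congr h2]
      simp
    have h3 : LipschitzOnWith c e' (e '' ((fun z : α => (z, t)) ⁻¹' B)) := hl'.mono (by
      rintro _ ⟨z, hz, rfl⟩
      exact he (hSV t hz))
    have h4 := h3.hausdorffMeasure_image_le hd'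
    rw [h1, ENNReal.rpow_natCast] at h4
    exact h4
  have Q2 : ((Measure.hausdorffMeasure (m : ℝ) : Measure E').prod (volume : Measure ℝ)) B' ≤
      (c : ℝ≥0∞) ^ m * μ.prod (volume : Measure ℝ) B := by
    rw [Measure.prod_apply_symm hB, Measure.prod_apply_symm hB'm, ← lintegral_const_mul' _ _ hc1]
    refine lintegral_mono fun t => ?_
    show Measure.hausdorffMeasure (m : ℝ) ((fun y : E' => (y, t)) ⁻¹' B') ≤ (c : ℝ≥0∞) ^ m *
      μ ((fun z : α => (z, t)) ⁻¹' B)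
    rw [hμ _ (hSV t), hslice]
    have h4 := (hl.mono (hSV t)).hausdorffMeasure_image_le hd'
    rw [ENNReal.rpow_natCast] at h4
    exact h4
  have hκB : (Measure.hausdorffMeasure ((m + 1 : ℕ) : ℝ) : Measure (E' × ℝ)) B' =
      κ * ((Measure.hausdorffMeasure (m : ℝ) : Measure E').prod (volume : Measure ℝ)) B' := by
    rw [hκ]
    rfl
  have hκ1 : ((κ⁻¹ : ℝ≥0) : ℝ≥0∞) * (κ : ℝ≥0∞) = 1 := by
    rw [← ENNReal.coe_mul, inv_mul_cancel₀ hκ0.ne', ENNReal.coe_one]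
  constructor
  · calc (Measure.hausdorffMeasure ((m + 1 : ℕ) : ℝ) : Measure (α × ℝ)) B
        ≤ (c : ℝ≥0∞) ^ (m + 1) * (Measure.hausdorffMeasure ((m + 1 : ℕ) : ℝ) :
            Measure (E' × ℝ)) B' := P1
      _ ≤ (c : ℝ≥0∞) ^ (m + 1) * (κ * ((c : ℝ≥0∞) ^ m * μ.prod (volume : Measure ℝ) B)) := by
          rw [hκB]
          gcongr
      _ = _ := by
          push_cast
          ring
  · calc μ.prod (volume : Measure ℝ) B
        ≤ (c : ℝ≥0∞) ^ m *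
      ((Measure.hausdorffMeasure (m : ℝ) : Measure E').prod (volume : Measure ℝ)) B' := Q1
      _ = (c : ℝ≥0∞) ^ m * (((κ⁻¹ : ℝ≥0) : ℝ≥0∞) *
        (Measure.hausdorffMeasure ((m + 1 : ℕ) : ℝ) : Measure (E' × ℝ)) B') := by
          rw [hκB, ← mul_assoc ((κ⁻¹ : ℝ≥0) : ℝ≥0∞), hκ1, one_mul]
      _ ≤ (c : ℝ≥0∞) ^ m * (((κ⁻¹ : ℝ≥0) : ℝ≥0∞) * ((c : ℝ≥0∞) ^ (m + 1) *
        (Measure.hausdorffMeasure ((m + 1 : ℕ) : ℝ) : Measure (α × ℝ)) B)) := by
          gcongr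
      _ = _ := by
          push_cast
          ring

end prodm

/-- comparison of the `(m+1)`-dimensional Hausdorff measure of `H × ℝ` and of the product measure,
near each point of `H`, with a uniform constant. -/
theorem exists_prod_compare (E' : Type*) [NormedAddCommGroup E'] [InnerProductSpace ℝ E']
    [FiniteDimensional ℝ E'] (H : Type*) [EMetricSpace H] [ChartedSpace E' H]
    [IsManifold 𝓘(ℝ, E') ∞ H] [RiemannianBundle (fun x : H => TangentSpace 𝓘(ℝ, E') x)]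
    [IsContMDiffRiemannianBundle 𝓘(ℝ, E') ∞ E' (fun x : H => TangentSpace 𝓘(ℝ, E') x)]
    [IsRiemannianManifold 𝓘(ℝ, E') H] [MeasurableSpace H] [BorelSpace H] :
    ∃ K₀ : ℝ≥0, ∀ z₀ : H, ∃ V₀ : Set H, IsOpen V₀ ∧ z₀ ∈ V₀ ∧ vol E' H V₀ < ⊤ ∧
    ∀ V : Set H, IsOpen V → V ⊆ V₀ → ∀ B : Set (H × ℝ), MeasurableSet B → B ⊆ V ×ˢ univ →
      (Measure.hausdorffMeasure ((Module.finrank ℝ E' + 1 : ℕ) : ℝ) : Measure (H × ℝ)) B ≤
        K₀ * ((vol E' H).restrict V).prod (volume : Measure ℝ) B ∧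
      ((vol E' H).restrict V).prod (volume : Measure ℝ) B ≤
        K₀ * (Measure.hausdorffMeasure ((Module.finrank ℝ E' + 1 : ℕ) : ℝ) :
          Measure (H × ℝ)) B := by
  borelize E'
  obtain ⟨κ, hκ0, hκ⟩ := exists_prod_smul E'
  set m := Module.finrank ℝ E' with hm
  set K₁ : ℝ≥0 := 2 ^ (m + 1) * (κ * 2 ^ m) with hK₁
  set K₂ : ℝ≥0 := 2 ^ m * (κ⁻¹ * 2 ^ (m + 1)) with hK₂
  refine ⟨max K₁ K₂, fun z₀ => ?_⟩
  have hy₀ : ch E' z₀ z₀ ∈ (ch E' z₀).target := mem_extChartAt_target z₀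
  obtain ⟨A, hA⟩ := exists_linear_iso (E := E') z₀ hy₀
  obtain ⟨V', hV'n, hV'o, hV't, hV'⟩ := almost_isometry z₀ hy₀ hA one_pos
  have h2 : ENNReal.ofReal (1 + 1) = ((2 : ℝ≥0) : ℝ≥0∞) := by
    rw [one_add_one_eq_two]
    simp
  have := ChartedSpace.locallyCompactSpace E' H
  obtain ⟨V₁, hzV₁, hV₁o, hV₁⟩ := Measure.exists_isOpen_measure_lt_top (vol E' H) z₀
  set V₂ : Set H := (ch E' z₀).source ∩ ch E' z₀ ⁻¹' V' with hV₂
  have hV₂o : IsOpen V₂ := by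
    have h3 := isOpen_extChartAt_preimage (I := 𝓘(ℝ, E')) z₀ hV'o
    rwa [← extChartAt_source 𝓘(ℝ, E') z₀] at h3
  set W : Set E' := A.symm ⁻¹' V' with hW
  have hWo : IsOpen W := hV'o.preimage A.symm.continuous
  set e : H → E' := fun z => A (ch E' z₀ z) with he
  set e' : E' → H := fun y => (ch E' z₀).symm (A.symm y) with he'
  have hmaps : MapsTo e V₂ W := by
    intro z hz
    show A.symm (A (ch E' z₀ z)) ∈ V'
    rw [A.symm_apply_apply]
    exact hz.2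
  have hee : ∀ z ∈ V₂, e' (e z) = z := by
    intro z hz
    show (ch E' z₀).symm (A.symm (A (ch E' z₀ z))) = z
    rw [A.symm_apply_apply, (ch E' z₀).left_inv hz.1]
  have hee' : ∀ y ∈ W, e (e' y) = y := by
    intro y hy
    show A (ch E' z₀ ((ch E' z₀).symm (A.symm y))) = y
    rw [(ch E' z₀).right_inv (hV't hy), A.apply_symm_apply]
  have hl : LipschitzOnWith 2 e V₂ := by
    intro z hz z' hz'
    have h3 := (hV' _ hz.2 _ hz'.2).2
    rw [(ch E' z₀).left_inv hz.1, (ch E' z₀).left_inv hz'.1, h2] at h3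
    exact h3
  have hl' : LipschitzOnWith 2 e' W := by
    intro y hy y' hy'
    have h3 := (hV' _ hy _ hy').1
    rw [A.apply_symm_apply, A.apply_symm_apply, h2] at h3
    exact h3
  refine ⟨V₁ ∩ V₂, hV₁o.inter hV₂o, ⟨hzV₁, mem_extChartAt_source z₀,
      (show ch E' z₀ z₀ ∈ V' from mem_of_mem_nhds hV'n)⟩,
    (measure_mono inter_subset_left).trans_lt hV₁, fun V hVo hVV B hB hBV => ?_⟩
  have hVV₂ : V ⊆ V₂ := hVV.trans inter_subset_right
  have hfin : IsFiniteMeasure ((vol E' H).restrict V) := by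
    refine ⟨?_⟩
    rw [Measure.restrict_apply_univ]
    exact (measure_mono (hVV.trans inter_subset_left)).trans_lt hV₁
  have hμ : ∀ S ⊆ V, (vol E' H).restrict V S =
      Measure.hausdorffMeasure (Module.finrank ℝ E' : ℝ) S := fun S hS =>
    Measure.restrict_eq_self _ hS
  obtain ⟨h3, h4⟩ := prod_compare_of_biLip E' hκ0 hκ hWo (hmaps.mono_left hVV₂)
    (fun z hz => hee z (hVV₂ hz)) hee' (c := 2) (by norm_num) (hl.mono hVV₂) hl'
    ((vol E' H).restrict V) hμ hB hBV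
  constructor
  · refine h3.trans ?_
    gcongr
    exact le_max_left _ _
  · refine h4.trans ?_
    gcongr
    exact le_max_right _ _

/-- local comparison of the measures, with a uniform constant. -/
theorem Mirror.local_compare_collar (h : Mirror E E' s τ r Γ ρ)
    (hd : Module.finrank ℝ E = Module.finrank ℝ E' + 1) : ∃ K : ℝ≥0, ∀ (z₀ : H) (t₀ : ℝ),
    |t₀| < r → ∃ V : Set H, ∃ J : Set ℝ, IsOpen V ∧ z₀ ∈ V ∧ IsOpen J ∧ t₀ ∈ J ∧
      (∀ t ∈ J, |t| < r) ∧ vol E' H V < ⊤ ∧ ∀ B : Set (H × ℝ), MeasurableSet B → B ⊆ V ×ˢ J →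
        vol E X ((fun p : H × ℝ => Γ p.1 p.2) '' B) ≤
          K * (((vol E' H).restrict V).prod (volume : Measure ℝ)) B ∧
        (((vol E' H).restrict V).prod (volume : Measure ℝ)) B ≤
          K * vol E X ((fun p : H × ℝ => Γ p.1 p.2) '' B) := by
  obtain ⟨L, hL, h1, h2, h3, h4⟩ := h.exists_const
  obtain ⟨K₀, hK₀⟩ := exists_prod_compare E' H
  set m := Module.finrank ℝ E' with hm
  set K₁ : ℝ≥0 := (2 * L) ^ (m + 1) * K₀ with hK₁
  set K₂ : ℝ≥0 := K₀ * L ^ (m + 1) with hK₂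
  refine ⟨max K₁ K₂, fun z₀ t₀ ht₀ => ?_⟩
  obtain ⟨V₀, hV₀o, hzV₀, hV₀f, hV₀⟩ := hK₀ z₀
  set Φ : H × ℝ → X := fun p => Γ p.1 p.2 with hΦ
  have hx₀ : |τ (Γ z₀ t₀)| < r := by
    rw [h.τ_Γ z₀ t₀ ht₀]
    exact ht₀
  obtain ⟨δ, hδ, hlip⟩ := h.lip_inv hL h1 h2 hx₀
  have hlΓ := h.lip_Γ hL h3 h4
  have hcont : ContinuousAt Φ (z₀, t₀) :=
    hlΓ.continuousOn.continuousAt ((isOpen_strip r).mem_nhds ht₀)
  have hn : Φ ⁻¹' (Metric.eball (Γ z₀ t₀) δ) ∩ {z : H × ℝ | |z.2| < r} ∈ 𝓝 (z₀, t₀) :=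
    inter_mem (hcont (Metric.eball_mem_nhds _ hδ)) ((isOpen_strip r).mem_nhds ht₀)
  rw [mem_nhds_prod_iff'] at hn
  obtain ⟨V₁, J, hV₁o, hzV₁, hJo, htJ, hVJ⟩ := hn
  have hJr : ∀ t ∈ J, |t| < r := fun t ht => (hVJ (⟨hzV₁, ht⟩ : (z₀, t) ∈ V₁ ×ˢ J)).2
  refine ⟨V₀ ∩ V₁, J, hV₀o.inter hV₁o, ⟨hzV₀, hzV₁⟩, hJo, htJ, hJr,
    (measure_mono inter_subset_left).trans_lt hV₀f, fun B hB hBV => ?_⟩
  have hBstrip : B ⊆ {z : H × ℝ | |z.2| < r} := fun p hp => hJr _ (hBV hp).2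
  have hBU : B ⊆ (V₀ ∩ V₁) ×ˢ univ := fun p hp => ⟨(hBV hp).1, mem_univ _⟩
  obtain ⟨P1, P2⟩ := hV₀ (V₀ ∩ V₁) (hV₀o.inter hV₁o) inter_subset_left B hB hBU
  have hd' : (0 : ℝ) ≤ ((m + 1 : ℕ) : ℝ) := Nat.cast_nonneg _
  have hvol : vol E X = Measure.hausdorffMeasure ((m + 1 : ℕ) : ℝ) := by
    show Measure.hausdorffMeasure (Module.finrank ℝ E : ℝ) = _
    rw [hd]
  have Q1 := (hlΓ.mono hBstrip).hausdorffMeasure_image_le hd'
  have hsub : Φ '' B ⊆ Metric.eball (Γ z₀ t₀) δ := by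
    rintro _ ⟨p, hp, rfl⟩
    exact (hVJ (⟨(hBV hp).1.2, (hBV hp).2⟩ : p ∈ V₁ ×ˢ J)).1
  have Q2 := (hlip.mono hsub).hausdorffMeasure_image_le hd'
  have hRB : (fun x : X => (ρ x, τ x)) '' (Φ '' B) = B := by
    rw [← image_comp]
    have h5 : ∀ p ∈ B, ((fun x : X => (ρ x, τ x)) ∘ Φ) p = p := by
      intro p hp
      show (ρ (Γ p.1 p.2), τ (Γ p.1 p.2)) = p
      rw [h.ρ_Γ _ _ (hBstrip hp), h.τ_Γ _ _ (hBstrip hp)]
    rw [image_congr h5]
    simp
  rw [ENNReal.rpow_natCast] at Q1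
  rw [hRB, ENNReal.rpow_natCast] at Q2
  rw [hvol]
  constructor
  · calc (Measure.hausdorffMeasure ((m + 1 : ℕ) : ℝ) : Measure X) (Φ '' B)
        ≤ ((2 * L : ℝ≥0) : ℝ≥0∞) ^ (m + 1) *
          (Measure.hausdorffMeasure ((m + 1 : ℕ) : ℝ) : Measure (H × ℝ)) B := Q1
      _ ≤ ((2 * L : ℝ≥0) : ℝ≥0∞) ^ (m + 1) *
          (K₀ * ((vol E' H).restrict (V₀ ∩ V₁)).prod (volume : Measure ℝ) B) := by
          gcongr
      _ = K₁ * ((vol E' H).restrict (V₀ ∩ V₁)).prod (volume : Measure ℝ) B := by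
          rw [hK₁]
          push_cast
          ring
      _ ≤ _ := by
          gcongr
          exact le_max_left _ _
  · calc ((vol E' H).restrict (V₀ ∩ V₁)).prod (volume : Measure ℝ) B
        ≤ K₀ * (Measure.hausdorffMeasure ((m + 1 : ℕ) : ℝ) : Measure (H × ℝ)) B := P2
      _ ≤ K₀ * ((L : ℝ≥0∞) ^ (m + 1) *
          (Measure.hausdorffMeasure ((m + 1 : ℕ) : ℝ) : Measure X) (Φ '' B)) := by
          gcongr
      _ = K₂ * (Measure.hausdorffMeasure ((m + 1 : ℕ) : ℝ) : Measure X) (Φ '' B) := by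
          rw [hK₂]
          push_cast
          ring
      _ ≤ _ := by
          gcongr
          exact le_max_right _ _

/-- a finite cover by sets on which `μ₁ ≤ K μ₂`. -/
theorem measure_le_of_cover {α ι : Type*} [MeasurableSpace α] {μ₁ μ₂ : Measure α} {K : ℝ≥0∞}
    {S : ι → Set α} (t : Finset ι) (hS : ∀ i ∈ t, MeasurableSet (S i))
    (h : ∀ i ∈ t, ∀ B, MeasurableSet B → B ⊆ S i → μ₁ B ≤ K * μ₂ B) :
    ∀ B, MeasurableSet B → B ⊆ ⋃ i ∈ t, S i → μ₁ B ≤ K * μ₂ B := by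
  classical
  induction t using Finset.induction_on with
  | empty =>
      intro B _ hB
      have h1 : B = ∅ := by simpa using hB
      rw [h1]
      simp
  | insert a t _ ih =>
      intro B hBm hB
      have hSa := hS a (Finset.mem_insert_self a t)
      rw [← measure_inter_add_sdiff B hSa, ← measure_inter_add_sdiff (μ := μ₂) B hSa, mul_add]
      refine add_le_add (h a (Finset.mem_insert_self a t) _ (hBm.inter hSa) inter_subset_right)
        (ih (fun i hi => hS i (Finset.mem_insert_of_mem hi))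
          (fun i hi => h i (Finset.mem_insert_of_mem hi)) _ (hBm.diff hSa) ?_)
      rintro x ⟨hx, hxa⟩
      have h1 := hB hx
      rw [Finset.set_biUnion_insert] at h1
      exact h1.resolve_left hxa

theorem lintegral_le_of_cover {α : Type*} [MeasurableSpace α] {μ₁ μ₂ : Measure α} {K : ℝ≥0∞}
    {W : Set α} (hW : MeasurableSet W)
    (h : ∀ B, MeasurableSet B → B ⊆ W → μ₁ B ≤ K * μ₂ B) {g : α → ℝ≥0∞}
    (hg : ∀ x, x ∉ W → g x = 0) : ∫⁻ x, g x ∂μ₁ ≤ K * ∫⁻ x, g x ∂μ₂ := by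
  have h1 : ∀ μ : Measure α, ∫⁻ x, g x ∂μ = ∫⁻ x in W, g x ∂μ := by
    intro μ
    rw [← lintegral_indicator hW]
    refine lintegral_congr fun x => ?_
    by_cases hx : x ∈ W
    · rw [indicator_of_mem hx]
    · rw [indicator_of_notMem hx, hg x hx]
  have h2 : μ₁.restrict W ≤ K • μ₂.restrict W := by
    refine Measure.le_iff.2 fun B hB => ?_
    rw [Measure.restrict_apply hB, Measure.smul_apply, Measure.restrict_apply hB, smul_eq_mul]
    exact h _ (hB.inter hW) inter_subset_right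
  rw [h1 μ₁, h1 μ₂, ← smul_eq_mul, ← lintegral_smul_measure]
  exact lintegral_mono' h2 le_rfl

theorem Mirror.compare (h : Mirror E E' s τ r Γ ρ)
    (hd : Module.finrank ℝ E = Module.finrank ℝ E' + 1) : Compare E E' τ r Γ := by
  classical
  obtain ⟨K, hK⟩ := h.local_compare_collar hd
  refine ⟨K, K.2, fun f hfc hfs hf0 ⟨r', hr', hfr'⟩ => ?_⟩
  set Φ : H × ℝ → X := fun p => Γ p.1 p.2 with hΦ
  set R : X → H × ℝ := fun x => (ρ x, τ x) with hR
  set C : Set X := {x : X | |τ x| < r} with hC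
  have hCo : IsOpen C := h.isOpen_collar
  have hCm : MeasurableSet C := hCo.measurableSet
  set S : Set (H × ℝ) := {p : H × ℝ | |p.2| < r} with hSdef
  have hSo : IsOpen S := isOpen_strip r
  have hRΦ : ∀ p ∈ S, R (Φ p) = p := by
    intro p hp
    show (ρ (Γ p.1 p.2), τ (Γ p.1 p.2)) = p
    rw [h.ρ_Γ _ _ hp, h.τ_Γ _ _ hp]
  have hΦC : ∀ p ∈ S, Φ p ∈ C := by
    intro p hp
    show |τ (Γ p.1 p.2)| < r
    rw [h.τ_Γ _ _ hp]
    exact hp
  have hΦR : ∀ x ∈ C, Φ (R x) = x := fun x hx => h.Γ_ρ x hx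
  -- the support
  set Q : Set X := tsupport f with hQ
  have hQr' : Q ⊆ {x : X | |τ x| ≤ r'} := by
    refine closure_minimal ?_ (isClosed_le h.smooth_τ.continuous.abs continuous_const)
    intro x hx
    by_contra hcon
    exact hx (hfr' x (not_le.1 hcon).le)
  have hQC : Q ⊆ C := fun x hx => (hQr' hx).trans_lt hr'
  set P : Set (H × ℝ) := R '' Q with hP
  have hPc : IsCompact P := hfs.isCompact.image_of_continuousOn (h.continuousOn_inv.mono hQC)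
  have hPS : ∀ p ∈ P, |p.2| < r := by
    rintro _ ⟨x, hx, rfl⟩
    exact hQC hx
  choose! V J hVJ using hK
  have hcov := hPc.elim_nhds_subcover (fun p : H × ℝ => V p.1 p.2 ×ˢ J p.1 p.2) (fun p hp => by
    obtain ⟨h1, h2, h3, h4, -⟩ := hVJ p.1 p.2 (hPS p hp)
    exact (h1.prod h3).mem_nhds ⟨h2, h4⟩)
  obtain ⟨t, htP, htc⟩ := hcov
  -- the compact set
  set W : Set (H × ℝ) := ⋃ p ∈ t, V p.1 p.2 ×ˢ J p.1 p.2 with hW
  set VV : Set H := ⋃ p ∈ t, V p.1 p.2 with hVV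
  have hWo : IsOpen W := isOpen_biUnion fun p hp =>
    (hVJ p.1 p.2 (hPS p (htP p hp))).1.prod (hVJ p.1 p.2 (hPS p (htP p hp))).2.2.1
  have hVVf : vol E' H VV < ⊤ := by
    refine (measure_biUnion_finset_le t _).trans_lt (ENNReal.sum_lt_top.2 fun p hp => ?_)
    exact (hVJ p.1 p.2 (hPS p (htP p hp))).2.2.2.2.2.1
  have hfin : IsFiniteMeasure ((vol E' H).restrict VV) := by
    refine ⟨?_⟩
    rw [Measure.restrict_apply_univ]
    exact hVVf
  set μ₁ : Measure (H × ℝ) := ((vol E X).restrict C).map R with hμ₁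
  set μ₂ : Measure (H × ℝ) := ((vol E' H).restrict VV).prod volume with hμ₂
  have hRm : AEMeasurable R ((vol E X).restrict C) := h.continuousOn_inv.aemeasurable hCm
  have hμ₁B : ∀ B, MeasurableSet B → B ⊆ S → μ₁ B = vol E X (Φ '' B) := by
    intro B hB hBS
    rw [hμ₁, Measure.map_apply_of_aemeasurable hRm hB, Measure.restrict_apply' hCm]
    congr 1
    ext x
    constructor
    · rintro ⟨h1, h2⟩
      exact ⟨R x, h1, hΦR x h2⟩
    · rintro ⟨p, hp, rfl⟩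
      refine ⟨?_, hΦC p (hBS hp)⟩
      rw [mem_preimage, hRΦ p (hBS hp)]
      exact hp
  have hμ₂B : ∀ p ∈ t, ∀ B, B ⊆ V p.1 p.2 ×ˢ J p.1 p.2 →
      μ₂ B = ((vol E' H).restrict (V p.1 p.2)).prod volume B := by
    intro p hp B hB
    have hsub : V p.1 p.2 ⊆ VV := subset_biUnion_of_mem (u := fun p : H × ℝ => V p.1 p.2) hp
    have h1 : (vol E' H).restrict (V p.1 p.2) =
        ((vol E' H).restrict VV).restrict (V p.1 p.2) := by
      rw [Measure.restrict_restrict_of_subset hsub]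
    have h2 : ((vol E' H).restrict (V p.1 p.2)).prod (volume : Measure ℝ) =
        μ₂.restrict (V p.1 p.2 ×ˢ univ) := by
      rw [h1, hμ₂, ← Measure.prod_restrict, Measure.restrict_univ]
    rw [h2]
    symm
    exact Measure.restrict_eq_self _ (hB.trans (prod_mono le_rfl (subset_univ _)))
  have hSm : ∀ p : H × ℝ, p ∈ t → MeasurableSet (V p.1 p.2 ×ˢ J p.1 p.2) := fun p hp =>
    ((hVJ p.1 p.2 (hPS p (htP p hp))).1.prod
      (hVJ p.1 p.2 (hPS p (htP p hp))).2.2.1).measurableSet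
  have hSS : ∀ p ∈ t, V p.1 p.2 ×ˢ J p.1 p.2 ⊆ S := fun p hp w hw =>
    (hVJ p.1 p.2 (hPS p (htP p hp))).2.2.2.2.1 _ hw.2
  have hWS : W ⊆ S := iUnion₂_subset hSS
  have c1 : ∀ B, MeasurableSet B → B ⊆ W → μ₁ B ≤ K * μ₂ B := by
    refine measure_le_of_cover t hSm fun p hp B hB hBV => ?_
    rw [hμ₁B B hB (hBV.trans (hSS p hp)), hμ₂B p hp B hBV]
    exact ((hVJ p.1 p.2 (hPS p (htP p hp))).2.2.2.2.2.2 B hB hBV).1
  have c2 : ∀ B, MeasurableSet B → B ⊆ W → μ₂ B ≤ K * μ₁ B := by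
    refine measure_le_of_cover t hSm fun p hp B hB hBV => ?_
    rw [hμ₁B B hB (hBV.trans (hSS p hp)), hμ₂B p hp B hBV]
    exact ((hVJ p.1 p.2 (hPS p (htP p hp))).2.2.2.2.2.2 B hB hBV).2
  -- the function
  set g : H × ℝ → ℝ := S.piecewise (fun p => f (Φ p)) (fun _ => 0) with hg
  have hgS : ∀ p ∈ S, g p = f (Φ p) := fun p hp => piecewise_eq_of_mem _ _ _ hp
  have hgS' : ∀ p, p ∉ S → g p = 0 := fun p hp => piecewise_eq_of_notMem _ _ _ hp
  have hg0 : ∀ p, 0 ≤ g p := by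
    intro p
    by_cases hp : p ∈ S
    · rw [hgS p hp]
      exact hf0 _
    · rw [hgS' p hp]
  have hgW : ∀ p, p ∉ W → g p = 0 := by
    intro p hp
    by_cases hpS : p ∈ S
    · rw [hgS p hpS]
      by_contra hne
      apply hp
      apply htc
      exact ⟨Φ p, subset_tsupport f hne, hRΦ p hpS⟩
    · exact hgS' p hpS
  have hgm : Measurable g := by
    refine ContinuousOn.measurable_piecewise ?_ continuousOn_const hSo.measurableSet
    exact hfc.comp_continuousOn h.smooth_Γ.continuousOn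
  have i1 : ∫ x, f x ∂(vol E X) = ∫ p, g p ∂μ₁ := by
    rw [hμ₁, integral_map hRm hgm.aestronglyMeasurable]
    have h1 : ∫ x in C, g (R x) ∂(vol E X) = ∫ x in C, f x ∂(vol E X) := by
      refine setIntegral_congr_fun hCm fun x hx => ?_
      have h2 : R x ∈ S := hx
      show g (R x) = f x
      rw [hgS _ h2, hΦR x hx]
    rw [h1]
    refine (setIntegral_eq_integral_of_forall_compl_eq_zero fun x hx => ?_).symm
    refine hfr' x ?_
    have h3 : ¬ |τ x| < r := hx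
    exact hr'.le.trans (not_lt.1 h3)
  have hfint : Integrable f (vol E X) := hfc.integrable_of_hasCompactSupport hfs
  have hgint1 : Integrable g μ₁ := by
    rw [hμ₁, integrable_map_measure hgm.aestronglyMeasurable hRm]
    refine (hfint.restrict (s := C)).congr ?_
    filter_upwards [ae_restrict_mem hCm] with x hx
    have h2 : R x ∈ S := hx
    show f x = g (R x)
    rw [hgS _ h2, hΦR x hx]
  have hl1 : ∫⁻ p, ENNReal.ofReal (g p) ∂μ₁ ≤ K * ∫⁻ p, ENNReal.ofReal (g p) ∂μ₂ :=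
    lintegral_le_of_cover hWo.measurableSet c1 fun p hp => by rw [hgW p hp, ENNReal.ofReal_zero]
  have hl2 : ∫⁻ p, ENNReal.ofReal (g p) ∂μ₂ ≤ K * ∫⁻ p, ENNReal.ofReal (g p) ∂μ₁ :=
    lintegral_le_of_cover hWo.measurableSet c2 fun p hp => by rw [hgW p hp, ENNReal.ofReal_zero]
  have hfin1 : ∫⁻ p, ENNReal.ofReal (g p) ∂μ₁ < ⊤ := hgint1.lintegral_lt_top
  have hfin2 : ∫⁻ p, ENNReal.ofReal (g p) ∂μ₂ < ⊤ :=
    hl2.trans_lt (ENNReal.mul_lt_top ENNReal.coe_lt_top hfin1)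
  have hgint2 : Integrable g μ₂ :=
    (lintegral_ofReal_ne_top_iff_integrable hgm.aestronglyMeasurable
      (Eventually.of_forall hg0)).1 hfin2.ne
  have e1 : ∫ p, g p ∂μ₁ = (∫⁻ p, ENNReal.ofReal (g p) ∂μ₁).toReal :=
    integral_eq_lintegral_of_nonneg_ae (Eventually.of_forall hg0) hgm.aestronglyMeasurable
  have e2 : ∫ p, g p ∂μ₂ = (∫⁻ p, ENNReal.ofReal (g p) ∂μ₂).toReal :=
    integral_eq_lintegral_of_nonneg_ae (Eventually.of_forall hg0) hgm.aestronglyMeasurable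
  have r1 : ∫ p, g p ∂μ₁ ≤ K * ∫ p, g p ∂μ₂ := by
    rw [e1, e2]
    have h1 := ENNReal.toReal_mono (ENNReal.mul_lt_top ENNReal.coe_lt_top hfin2).ne hl1
    rwa [ENNReal.toReal_mul, ENNReal.coe_toReal] at h1
  have r2 : ∫ p, g p ∂μ₂ ≤ K * ∫ p, g p ∂μ₁ := by
    rw [e1, e2]
    have h1 := ENNReal.toReal_mono (ENNReal.mul_lt_top ENNReal.coe_lt_top hfin1).ne hl2
    rwa [ENNReal.toReal_mul, ENNReal.coe_toReal] at h1
  have i2 : ∫ t in {t : ℝ | |t| < r}, ∫ z, f (Γ z t) ∂(vol E' H) = ∫ p, g p ∂μ₂ := by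
    rw [hμ₂, integral_prod_symm g hgint2]
    have h1 : ∀ t : ℝ, t ∉ {t : ℝ | |t| < r} →
        ∫ z, g (z, t) ∂((vol E' H).restrict VV) = 0 := by
      intro t ht
      have h2 : ∀ z : H, g (z, t) = 0 := fun z => hgS' (z, t) ht
      simp only [h2, integral_zero]
    rw [← setIntegral_eq_integral_of_forall_compl_eq_zero h1]
    refine setIntegral_congr_fun
      (isOpen_lt continuous_abs continuous_const).measurableSet fun t ht => ?_
    show ∫ z, f (Γ z t) ∂(vol E' H) = ∫ z in VV, g (z, t) ∂(vol E' H)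
    have h2 : ∀ z : H, f (Γ z t) = g (z, t) := fun z => (hgS (z, t) ht).symm
    simp only [h2]
    refine (setIntegral_eq_integral_of_forall_compl_eq_zero fun z hz => ?_).symm
    refine hgW (z, t) fun hzW => hz ?_
    obtain ⟨p, hp, hp'⟩ := mem_iUnion₂.1 hzW
    exact mem_iUnion₂.2 ⟨p, hp, hp'.1⟩
  rw [i1, i2]
  exact ⟨r2, r1⟩

end Pool.Agent.ZSp
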