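import Pool.Agent.Work.MP_058ed1_gt.T.Tdef
import Pool.Agent.Work.MP_058ed1_gt.G.Pw
import Pool.Agent.Work.MP_058ed1_gt.G.L2Def

/-!
# Transfer theorem, module JOINT: continuous families of forms on `H`, integration by parts in `t`
-/

open scoped Manifold ContDiff Topology Bundle ENNReal NNReal
open Set MeasureTheory Bundle Filter

set_option linter.unusedSectionVars false

noncomputable section

namespace Pool.Agent.ZSp

variable {E : Type*} [NormedAddCommGroup E] [InnerProductSpace ℝ E] [FiniteDimensional ℝ E]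
  {X : Type*} [EMetricSpace X] [ChartedSpace E X]
  [IsManifold 𝓘(ℝ, E) ∞ X] [RiemannianBundle (fun x : X => TangentSpace 𝓘(ℝ, E) x)]
  [IsContMDiffRiemannianBundle 𝓘(ℝ, E) ∞ E (fun x : X => TangentSpace 𝓘(ℝ, E) x)]
  [IsRiemannianManifold 𝓘(ℝ, E) X] [MeasurableSpace X] [BorelSpace X]
  {E' : Type*} [NormedAddCommGroup E'] [InnerProductSpace ℝ E'] [FiniteDimensional ℝ E']
  {H : Type*} [EMetricSpace H] [ChartedSpace E' H]
  [IsManifold 𝓘(ℝ, E') ∞ H] [RiemannianBundle (fun x : H => TangentSpace 𝓘(ℝ, E') x)]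
  [IsContMDiffRiemannianBundle 𝓘(ℝ, E') ∞ E' (fun x : H => TangentSpace 𝓘(ℝ, E') x)]
  [IsRiemannianManifold 𝓘(ℝ, E') H] [MeasurableSpace H] [BorelSpace H]
  {s : X → X} {τ : X → ℝ} {r : ℝ} {Γ : H → ℝ → X} {ρ : X → H} {q : ℕ}

/-- the pointwise product of two continuous families, in a chart. -/
theorem pin_joint_chart {A B : ℝ → PForm E' H q} (hA : JCont r A) (hB : JCont r B) (z₀ : H) :
    ContinuousOn (fun p : E' × ℝ => pin (A p.2) (B p.2) ((ch E' z₀).symm p.1))
      ((ch E' z₀).target ×ˢ {t : ℝ | |t| < r}) := by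
  classical
  set n := Module.finrank ℝ E' with hn0
  set bE : OrthonormalBasis (Fin n) ℝ E' := stdOrthonormalBasis ℝ E'
  set G : E' → Matrix (Fin n) (Fin n) ℝ := fun y => Matrix.of fun k l => inner ℝ
    (mfderiv 𝓘(ℝ, E') 𝓘(ℝ, E') (ch E' z₀).symm y (bE k) :
      TangentSpace 𝓘(ℝ, E') ((ch E' z₀).symm y))
    (mfderiv 𝓘(ℝ, E') 𝓘(ℝ, E') (ch E' z₀).symm y (bE l) :
      TangentSpace 𝓘(ℝ, E') ((ch E' z₀).symm y)) with hGdef
  have hfr : ∀ y ∈ (ch E' z₀).target, ∀ α β : PForm E' H q,
      (G y).det ≠ 0 ∧ pin α β ((ch E' z₀).symm y) =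
      ((q.factorial : ℝ))⁻¹ * ∑ i : Fin q → Fin n, ∑ j : Fin q → Fin n,
      (∏ k, (G y)⁻¹ (i k) (j k)) *
        (inChart α z₀ y (fun k => bE (i k)) *
          inChart β z₀ y (fun k => bE (j k))) := by
    intro y hy α β
    have hn : Module.finrank ℝ (TangentSpace 𝓘(ℝ, E') ((ch E' z₀).symm y)) = n := rfl
    exact ainner_frame (V := TangentSpace 𝓘(ℝ, E') ((ch E' z₀).symm y)) bE
      (mfderiv 𝓘(ℝ, E') 𝓘(ℝ, E') (ch E' z₀).symm y) (mfderiv_ch_symm_surjective z₀ hy) hn
      (α ((ch E' z₀).symm y)) (β ((ch E' z₀).symm y)) (G y) (fun k l => rfl)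
  have hG : ContinuousOn G (ch E' z₀).target := by
    rw [continuousOn_iff_continuous_domRestrict]
    exact continuous_matrix fun k l =>
      continuousOn_iff_continuous_domRestrict.1 (continuousOn_gram z₀ _ _)
  have hGi : ContinuousOn (fun y => (G y)⁻¹) (ch E' z₀).target := by
    have h1 : ContinuousOn (fun y => ((G y).det)⁻¹ • (G y).adjugate) (ch E' z₀).target := by
      rw [continuousOn_iff_continuous_domRestrict] at hG ⊢
      have hd : Continuous (fun y : (ch E' z₀).target => (G y).det) := hG.matrix_det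
      have ha : Continuous (fun y : (ch E' z₀).target => (G y).adjugate) := hG.matrix_adjugate
      exact (hd.inv₀ fun y => (hfr y y.2 0 0).1).smul ha
    refine h1.congr fun y hy => ?_
    simp only [Matrix.inv_def, Ring.inverse_eq_inv']
  have hGi' : ContinuousOn (fun p : E' × ℝ => (G p.1)⁻¹)
      ((ch E' z₀).target ×ˢ {t : ℝ | |t| < r}) :=
    hGi.comp continuousOn_fst fun p hp => hp.1
  have hA' : ∀ i : Fin q → Fin n, ContinuousOn
      (fun p : E' × ℝ => inChart (A p.2) z₀ p.1 (fun k => bE (i k)))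
      ((ch E' z₀).target ×ˢ {t : ℝ | |t| < r}) := fun i =>
    (ContinuousAlternatingMap.apply ℝ E' ℝ
      (fun k => bE (i k))).continuous.comp_continuousOn (hA z₀)
  have hB' : ∀ i : Fin q → Fin n, ContinuousOn
      (fun p : E' × ℝ => inChart (B p.2) z₀ p.1 (fun k => bE (i k)))
      ((ch E' z₀).target ×ˢ {t : ℝ | |t| < r}) := fun i =>
    (ContinuousAlternatingMap.apply ℝ E' ℝ
      (fun k => bE (i k))).continuous.comp_continuousOn (hB z₀)
  refine ContinuousOn.congr ?_ fun p hp => (hfr p.1 hp.1 _ _).2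
  refine continuousOn_const.mul ?_
  refine continuousOn_finsetSum _ fun i _ => continuousOn_finsetSum _ fun j _ => ?_
  refine ContinuousOn.mul ?_ ((hA' i).mul (hB' j))
  refine continuousOn_finsetProd _ fun k _ => ?_
  exact (continuousOn_pi.1 ((continuousOn_pi.1 hGi') (i k))) (j k)

omit [IsManifold 𝓘(ℝ, E') ∞ H] [RiemannianBundle (fun x : H => TangentSpace 𝓘(ℝ, E') x)]
  [IsContMDiffRiemannianBundle 𝓘(ℝ, E') ∞ E' (fun x : H => TangentSpace 𝓘(ℝ, E') x)]
  [IsRiemannianManifold 𝓘(ℝ, E') H] [MeasurableSpace H] [BorelSpace H] in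
theorem contAt_of_chart (Φ : H × ℝ → ℝ) (z₀ : H) (t₀ : ℝ)
    (h : ContinuousAt (fun p : E' × ℝ => Φ ((ch E' z₀).symm p.1, p.2)) (ch E' z₀ z₀, t₀)) :
    ContinuousAt Φ (z₀, t₀) := by
  have h3 : ContinuousAt (fun p : H × ℝ => ((ch E' z₀ p.1, p.2) : E' × ℝ)) (z₀, t₀) := by
    refine ContinuousAt.prodMk ?_ continuousAt_snd
    exact ContinuousAt.comp (f := fun p : H × ℝ => p.1) (g := ch E' z₀)
      (continuousAt_extChartAt z₀) continuousAt_fst
  have h4 := ContinuousAt.comp (f := fun p : H × ℝ => ((ch E' z₀ p.1, p.2) : E' × ℝ))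
    (g := fun p : E' × ℝ => Φ ((ch E' z₀).symm p.1, p.2)) (x := (z₀, t₀)) h h3
  refine h4.congr ?_
  have h5 : ∀ᶠ p : H × ℝ in 𝓝 (z₀, t₀), p.1 ∈ (ch E' z₀).source :=
    continuousAt_fst.eventually (extChartAt_source_mem_nhds (I := 𝓘(ℝ, E')) z₀)
  filter_upwards [h5] with p hp
  simp only [Function.comp]
  rw [(ch E' z₀).left_inv hp]

theorem JCont.pin_continuousAt {A B : ℝ → PForm E' H q} (hA : JCont r A) (hB : JCont r B)
    (z₀ : H) {t₀ : ℝ} (ht₀ : |t₀| < r) :
    ContinuousAt (fun p : H × ℝ => pin (A p.2) (B p.2) p.1) (z₀, t₀) := by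
  have hop : IsOpen (ch E' z₀).target := isOpen_extChartAt_target (I := 𝓘(ℝ, E')) z₀
  have hopt : IsOpen {t : ℝ | |t| < r} := isOpen_lt continuous_abs continuous_const
  exact contAt_of_chart (fun p : H × ℝ => pin (A p.2) (B p.2) p.1) z₀ t₀
    ((pin_joint_chart hA hB z₀).continuousAt
      ((hop.prod hopt).mem_nhds ⟨mem_extChartAt_target z₀, ht₀⟩))

theorem JCont.pin {A B : ℝ → PForm E' H q} (hA : JCont r A) (hB : JCont r B) :
    ContinuousOn (fun p : H × ℝ => pin (A p.2) (B p.2) p.1) (univ ×ˢ {t : ℝ | |t| < r}) := by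
  rintro ⟨z, t⟩ ⟨-, ht⟩
  exact (JCont.pin_continuousAt hA hB z ht).continuousWithinAt

/-- `t ↦ f(t) ⟨A_t, B_t⟩` is continuous. -/
theorem JCont.continuous_l2 {A B : ℝ → PForm E' H q} (hA : JCont r A) (hB : JCont r B)
    {f : ℝ → ℝ} (hf : Continuous f) {r' : ℝ} (hr' : r' < r) (hf0 : ∀ t, r' ≤ |t| → f t = 0)
    {K : Set H} (hK : IsCompact K) (hB0 : ∀ t : ℝ, |t| ≤ r' → ∀ z, z ∉ K → B t z = 0) :
    Continuous (fun t : ℝ => f t * l2 (A t) (B t)) := by
  have hlc : LocallyCompactSpace H := ChartedSpace.locallyCompactSpace E' H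
  set g : ℝ → H → ℝ := fun t z => f t * Pool.Agent.ZSp.pin (A t) (B t) z with hg
  have hgc : Continuous (Function.uncurry g) := by
    rw [continuous_iff_continuousAt]
    rintro ⟨t, z⟩
    rcases lt_or_ge |t| r with h | h
    · have h1 := JCont.pin_continuousAt hA hB z h
      have h2 : ContinuousAt (fun p : ℝ × H => ((p.2, p.1) : H × ℝ)) (t, z) :=
        continuous_swap.continuousAt
      have h3 := ContinuousAt.comp (f := fun p : ℝ × H => ((p.2, p.1) : H × ℝ))
        (g := fun p : H × ℝ => Pool.Agent.ZSp.pin (A p.2) (B p.2) p.1) (x := (t, z)) h1 h2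
      exact ((hf.comp continuous_fst).continuousAt).mul h3
    · have h1 : ∀ᶠ p : ℝ × H in 𝓝 (t, z), Function.uncurry g p = 0 := by
        have h2 : ∀ᶠ p : ℝ × H in 𝓝 (t, z), r' < |p.1| :=
          ((continuous_abs.comp continuous_fst).continuousAt).eventually
            (lt_mem_nhds (hr'.trans_le h))
        filter_upwards [h2] with p hp
        show f p.1 * _ = 0
        rw [hf0 p.1 hp.le, zero_mul]
      refine (continuousAt_const (y := (0 : ℝ))).congr ?_
      filter_upwards [h1] with p hp using hp.symm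
  have hz : ∀ t z, z ∉ K → g t z = 0 := by
    intro t z hzK
    show f t * _ = 0
    rcases le_or_gt |t| r' with h | h
    · have : Pool.Agent.ZSp.pin (A t) (B t) z = 0 := by
        rw [pin_comm]
        exact pin_eq_zero _ (hB0 t h z hzK)
      rw [this, mul_zero]
    · rw [hf0 t h.le, zero_mul]
  have hloc : IsLocallyFiniteMeasure (vol E' H) := inferInstance
  have h1 : Continuous (fun t => ∫ z in K, g t z ∂(vol E' H)) :=
    continuous_parametric_integral_of_continuous hgc hK
  refine h1.congr fun t => ?_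
  rw [setIntegral_eq_integral_of_forall_compl_eq_zero (hz t)]
  show ∫ z, f t * _ ∂(vol E' H) = _
  rw [integral_const_mul]
  rfl

theorem JCont.const {w : PForm E' H q} (hw : SmoothForm w) : JCont r (fun _ => w) := fun z₀ =>
  (hw z₀).continuousOn.comp continuousOn_fst fun _ hp => hp.1

/-- the derivative of the pointwise product. -/
theorem hasDerivAt_pin {A B : ℝ → PForm E' H q} {t : ℝ} {z : H}
    (hAB : ∀ v : Fin q → TangentSpace 𝓘(ℝ, E') z, HasDerivAt (fun t' => A t' z v) (B t z v) t)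
    (w : PForm E' H q) : HasDerivAt (fun t' => Pool.Agent.ZSp.pin (A t') w z)
      (Pool.Agent.ZSp.pin (B t) w z) t := by
  unfold Pool.Agent.ZSp.pin ainner
  refine HasDerivAt.const_mul _ ?_
  refine HasDerivAt.fun_sum fun i _ => ?_
  exact (hAB _).mul_const _

theorem hasDerivAt_l2 {A B : ℝ → PForm E' H q} (hA : JCont r A) (hB : JCont r B)
    (hAB : ∀ t : ℝ, |t| < r → ∀ (z : H) (v : Fin q → TangentSpace 𝓘(ℝ, E') z),
      HasDerivAt (fun t' => A t' z v) (B t z v) t)
    {w : PForm E' H q} (hw : w ∈ OmegaC E' H q) {t : ℝ} (ht : |t| < r) :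
    HasDerivAt (fun t' => l2 (A t') w) (l2 (B t) w) t := by
  have hW : JCont r (fun _ : ℝ => w) := JCont.const hw.1
  set K : Set H := closure {z | w z ≠ 0} with hKdef
  have hK : IsCompact K := hw.2
  have hw0 : ∀ z, z ∉ K → w z = 0 := by
    intro z hz
    by_contra h
    exact hz (subset_closure h)
  have hopt : IsOpen {t : ℝ | |t| < r} := isOpen_lt continuous_abs continuous_const
  obtain ⟨ε, hε, hεs⟩ := Metric.isOpen_iff.1 hopt t ht
  set S : Set ℝ := Metric.closedBall t (ε / 2) with hS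
  have hSr : S ⊆ {t : ℝ | |t| < r} :=
    (Metric.closedBall_subset_ball (by linarith)).trans hεs
  have hSn : S ∈ 𝓝 t := Metric.closedBall_mem_nhds t (by linarith)
  have hSc : IsCompact S := isCompact_closedBall t (ε / 2)
  have hcontz : ∀ {C : ℝ → PForm E' H q}, JCont r C → ∀ t', |t'| < r →
      Continuous (Pool.Agent.ZSp.pin (C t') w) := by
    intro C hC t' ht'
    rw [continuous_iff_continuousAt]
    intro z
    have h1 := JCont.pin_continuousAt hC hW z ht'
    have h2 : ContinuousAt (fun z' : H => ((z', t') : H × ℝ)) z :=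
      (Continuous.prodMk_left t').continuousAt
    exact ContinuousAt.comp (f := fun z' : H => ((z', t') : H × ℝ))
      (g := fun p : H × ℝ => Pool.Agent.ZSp.pin (C p.2) w p.1) (x := z) h1 h2
  have hcs : ∀ (C : PForm E' H q), HasCompactSupport (Pool.Agent.ZSp.pin C w) := by
    intro C
    rw [pin_comm]
    exact hasCompactSupport_pin hw C
  obtain ⟨M, hM⟩ := (hK.prod hSc).exists_bound_of_continuousOn
    ((JCont.pin hB hW).mono (Set.prod_mono (subset_univ K) hSr))
  have key := hasDerivAt_integral_of_dominated_loc_of_deriv_le (μ := vol E' H) (𝕜 := ℝ)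
    (F := fun t' z => Pool.Agent.ZSp.pin (A t') w z) (F' := fun t' z => Pool.Agent.ZSp.pin (B t') w z)
    (x₀ := t) (s := S) (bound := K.indicator fun _ => M) hSn ?_ ?_ ?_ ?_ ?_ ?_
  · exact key.2
  · filter_upwards [hopt.mem_nhds ht] with t' ht'
    exact (hcontz hA t' ht').aestronglyMeasurable
  · exact (hcontz hA t ht).integrable_of_hasCompactSupport (hcs _)
  · exact (hcontz hB t ht).aestronglyMeasurable
  · refine Eventually.of_forall fun z t' ht' => ?_
    by_cases hz : z ∈ K
    · rw [indicator_of_mem hz]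
      exact hM (z, t') ⟨hz, ht'⟩
    · rw [indicator_of_notMem hz, pin_comm, pin_eq_zero _ (hw0 z hz), norm_zero]
  · rw [integrable_indicator_iff hK.isClosed.measurableSet]
    exact integrableOn_const hK.measure_ne_top
  · refine Eventually.of_forall fun z t' ht' => ?_
    exact hasDerivAt_pin (fun v => hAB t' (hSr ht') z v) w

/-- integration by parts in `t`. -/
theorem ibp_l2 {A B : ℝ → PForm E' H q} (hA : JCont r A) (hB : JCont r B)
    (hAB : ∀ t : ℝ, |t| < r → ∀ (z : H) (v : Fin q → TangentSpace 𝓘(ℝ, E') z),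
      HasDerivAt (fun t' => A t' z v) (B t z v) t) {f : ℝ → ℝ} (hf : CFun r f)
    {w : PForm E' H q} (hw : w ∈ OmegaC E' H q) :
    ∫ t in {t : ℝ | |t| < r}, f t * l2 (B t) w =
      - ∫ t in {t : ℝ | |t| < r}, deriv f t * l2 (A t) w := by
  obtain ⟨hfs, r', hr'0, hr', hf0⟩ := hf
  have hW : JCont r (fun _ : ℝ => w) := JCont.const hw.1
  set K : Set H := closure {z | w z ≠ 0} with hKdef
  have hK : IsCompact K := hw.2
  have hw0 : ∀ z, z ∉ K → w z = 0 := by
    intro z hz
    by_contra h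
    exact hz (subset_closure h)
  have hfd : ∀ t, HasDerivAt f (deriv f t) t := fun t =>
    (hfs.differentiable (by simp)).differentiableAt.hasDerivAt
  have hdc : Continuous (deriv f) := hfs.continuous_deriv (by simp)
  have hnear : ∀ t, r' < |t| → ∀ᶠ t' in 𝓝 t, f t' = 0 := by
    intro t ht
    filter_upwards [continuous_abs.continuousAt.eventually (lt_mem_nhds ht)] with t' ht'
    exact hf0 t' ht'.le
  have hd0 : ∀ t, r' < |t| → deriv f t = 0 := by
    intro t ht
    have : f =ᶠ[𝓝 t] fun _ => 0 := hnear t ht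
    rw [this.deriv_eq, deriv_const]
  have hr0 : 0 < r := hr'0.trans hr'
  set r₂ : ℝ := (r' + r) / 2 with hr₂
  have c1 : Continuous (fun t : ℝ => f t * l2 (B t) w) :=
    JCont.continuous_l2 hB hW hfs.continuous hr' hf0 hK fun t _ z hz => hw0 z hz
  have c2 : Continuous (fun t : ℝ => deriv f t * l2 (A t) w) :=
    JCont.continuous_l2 hA hW hdc (r' := r₂) (by linarith) (fun t ht => hd0 t (by linarith)) hK
      fun t _ z hz => hw0 z hz
  have hderiv : ∀ t ∈ uIcc (-r) r, HasDerivAt (fun t' => f t' * l2 (A t') w)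
      (deriv f t * l2 (A t) w + f t * l2 (B t) w) t := by
    intro t _
    rcases lt_or_ge |t| r with h | h
    · exact (hfd t).mul (hasDerivAt_l2 hA hB hAB hw h)
    · have h1 : r' < |t| := hr'.trans_le h
      rw [hd0 t h1, hf0 t h1.le, zero_mul, zero_mul, add_zero]
      refine (hasDerivAt_const t (0 : ℝ)).congr_of_eventuallyEq ?_
      filter_upwards [hnear t h1] with t' ht'
      rw [ht', zero_mul]
  have hint := intervalIntegral.integral_eq_sub_of_hasDerivAt hderiv
    ((c2.add c1).intervalIntegrable _ _)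
  have e1 : f r = 0 := hf0 r (by rw [abs_of_pos hr0]; exact hr'.le)
  have e2 : f (-r) = 0 := hf0 (-r) (by rw [abs_neg, abs_of_pos hr0]; exact hr'.le)
  rw [e1, e2, zero_mul, zero_mul, sub_zero,
    intervalIntegral.integral_add (c2.intervalIntegrable _ _) (c1.intervalIntegrable _ _)] at hint
  have hset : {t : ℝ | |t| < r} = Ioo (-r) r := by
    ext t; simp [abs_lt]
  have hI : ∀ g : ℝ → ℝ, ∫ t in {t : ℝ | |t| < r}, g t = ∫ t in (-r)..r, g t := by
    intro g
    rw [intervalIntegral.integral_of_le (by linarith), integral_Ioc_eq_integral_Ioo, hset]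
  rw [hI, hI]
  linarith

end Pool.Agent.ZSp
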