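import Pool.Agent.Work.MP_058ed1_gt.T.Tprop
import Pool.Agent.Work.MP_058ed1_gt.T.Joint
import Pool.Agent.Work.MP_058ed1_gt.T.Bound

/-!
# Transfer theorem, module LOW: the functionals `λ_0`, `λ_1`
-/

open scoped Manifold ContDiff Topology Bundle ENNReal NNReal
open Set MeasureTheory Bundle Filter

set_option linter.unusedSectionVars false

noncomputable section

namespace Pool.Agent.ZSp

theorem low_le_of_scaling {x A B : ℝ} (hA : 0 ≤ A) (hB : 0 ≤ B)
    (h : ∀ a : ℝ, 0 < a → x ≤ a * A ^ 2 + a⁻¹ * B ^ 2) : x ≤ 2 * A * B := by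
  refine le_of_forall_pos_le_add fun ε hε => ?_
  set δ := ε / (A + B + 1) with hδ
  have hδ0 : 0 < δ := by positivity
  have h1 := h ((B + δ) / (A + δ)) (by positivity)
  have h2 : (B + δ) / (A + δ) * A ^ 2 ≤ (B + δ) * A := by
    rw [div_mul_eq_mul_div, div_le_iff₀ (by positivity)]
    nlinarith [mul_nonneg (mul_nonneg (by positivity : 0 ≤ B + δ) hA) hδ0.le]
  have h3 : ((B + δ) / (A + δ))⁻¹ * B ^ 2 ≤ (A + δ) * B := by
    rw [inv_div, div_mul_eq_mul_div, div_le_iff₀ (by positivity)]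
    nlinarith [mul_nonneg (mul_nonneg (by positivity : 0 ≤ A + δ) hB) hδ0.le]
  have h4 : δ * (A + B) ≤ ε := by
    rw [hδ, div_mul_eq_mul_div, div_le_iff₀ (by positivity)]
    nlinarith
  nlinarith

theorem low_measurableSet (r : ℝ) : MeasurableSet {t : ℝ | |t| < r} :=
  (isOpen_lt continuous_abs continuous_const).measurableSet

theorem low_eq_Ioo (r : ℝ) : {t : ℝ | |t| < r} = Ioo (-r) r := by
  ext t
  exact abs_lt (a := t) (b := r)

theorem low_volume (r : ℝ) : volume {t : ℝ | |t| < r} = ENNReal.ofReal (2 * r) := by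
  rw [low_eq_Ioo, Real.volume_Ioo]
  congr 1
  ring

theorem low_hasCompactSupport {r' : ℝ} {g : ℝ → ℝ} (h0 : ∀ t, r' ≤ |t| → g t = 0) :
    HasCompactSupport g := by
  refine HasCompactSupport.intro (K := Icc (-r') r') isCompact_Icc ?_
  intro t ht
  apply h0
  by_contra hcon
  exact ht (abs_le.1 (not_le.1 hcon).le)

theorem low_integrable {r' : ℝ} {g : ℝ → ℝ} (hg : Continuous g) (h0 : ∀ t, r' ≤ |t| → g t = 0) :
    Integrable g := hg.integrable_of_hasCompactSupport (low_hasCompactSupport h0)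

variable {E : Type*} [NormedAddCommGroup E] [InnerProductSpace ℝ E] [FiniteDimensional ℝ E]
  {X : Type*} [EMetricSpace X] [ChartedSpace E X]
  [IsManifold 𝓘(ℝ, E) ∞ X] [RiemannianBundle (fun x : X => TangentSpace 𝓘(ℝ, E) x)]
  [IsContMDiffRiemannianBundle 𝓘(ℝ, E) ∞ E (fun x : X => TangentSpace 𝓘(ℝ, E) x)]
  [IsRiemannianManifold 𝓘(ℝ, E) X] [MeasurableSpace X] [BorelSpace X]
  {E' : Type*} [NormedAddCommGroup E'] [InnerProductSpace ℝ E'] [FiniteDimensional ℝ E']
  {H : Type*} [EMetricSpace H] [ChartedSpace E' H]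
  [IsManifold 𝓘(ℝ, E') ∞ H] [RiemannianBundle (fun x : H => TangentSpace 𝓘(ℝ, E') x)]
  [IsContMDiffRiemannianBundle 𝓘(ℝ, E') ∞ E' (fun x : H => TangentSpace 𝓘(ℝ, E') x)]
  [IsRiemannianManifold 𝓘(ℝ, E') H] [MeasurableSpace H] [BorelSpace H]
  {s : X → X} {τ : X → ℝ} {r : ℝ} {Γ : H → ℝ → X} {ρ : X → H} {q : ℕ}

/-- `∫ f(t) ⟨Γ_t^* y, w⟩ dt`. -/
def lam0 (Γ : H → ℝ → X) (r : ℝ) (f : ℝ → ℝ) (w : PForm E' H q) (y : PForm E X q) : ℝ :=
  ∫ t in {t : ℝ | |t| < r}, f t * l2 (T0 Γ t y) w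

/-- `∫ f(t) ⟨Γ_t^* ι_{∂_t} x, w⟩ dt`. -/
def lam1 (Γ : H → ℝ → X) (r : ℝ) (f : ℝ → ℝ) (w : PForm E' H q) (x : PForm E X (q + 1)) : ℝ :=
  ∫ t in {t : ℝ | |t| < r}, f t * l2 (T1 Γ t x) w

theorem low_T0_add (Γ : H → ℝ → X) (t : ℝ) (y y' : PForm E X q) :
    (T0 Γ t (y + y') : PForm E' H q) = T0 Γ t y + T0 Γ t y' := by
  funext z; ext v; rfl

theorem low_T0_smul (Γ : H → ℝ → X) (t : ℝ) (c : ℝ) (y : PForm E X q) :
    (T0 Γ t (c • y) : PForm E' H q) = c • T0 Γ t y := by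
  funext z; ext v; rfl

theorem low_T1_add (Γ : H → ℝ → X) (t : ℝ) (y y' : PForm E X (q + 1)) :
    (T1 Γ t (y + y') : PForm E' H q) = T1 Γ t y + T1 Γ t y' := by
  funext z; ext v; rfl

theorem low_T1_smul (Γ : H → ℝ → X) (t : ℝ) (c : ℝ) (y : PForm E X (q + 1)) :
    (T1 Γ t (c • y) : PForm E' H q) = c • T1 Γ t y := by
  funext z; ext v; rfl

theorem low_T0_eq_zero {Γ : H → ℝ → X} {t : ℝ} {y : PForm E X q} {z : H} (h : y (Γ z t) = 0) :
    (T0 Γ t y : PForm E' H q) z = 0 := by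
  rw [T0, h]; rfl

theorem low_T1_eq_zero {Γ : H → ℝ → X} {t : ℝ} {y : PForm E X (q + 1)} {z : H} (h : y (Γ z t) = 0) :
    (T1 Γ t y : PForm E' H q) z = 0 := by
  rw [T1, h]; rfl

/-- `t ↦ f(t) ⟨A_t, w⟩` is integrable. -/
theorem JCont.low_integrable_l2 {A : ℝ → PForm E' H q} (hA : JCont r A) {f : ℝ → ℝ} (hf : CFun r f)
    {w : PForm E' H q} (hw : w ∈ OmegaC E' H q) : Integrable (fun t => f t * l2 (A t) w) := by
  obtain ⟨hfs, r', hr'0, hr'r, hf0⟩ := hf
  have h1 : Continuous (fun t : ℝ => f t * l2 (A t) w) :=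
    hA.continuous_l2 (jcont_const hw.1) hfs.continuous hr'r hf0 hw.2 (fun t _ z hz => by
      by_contra hcon
      exact hz (subset_closure hcon))
  exact low_integrable h1 (r' := r') fun t ht => by rw [hf0 t ht, zero_mul]

theorem Mirror.lam0_add (h : Mirror E E' s τ r Γ ρ) {f : ℝ → ℝ} (hf : CFun r f)
    {w : PForm E' H q} (hw : w ∈ OmegaC E' H q) {y y' : PForm E X q} (hy : y ∈ OmegaC E X q)
    (hy' : y' ∈ OmegaC E X q) : lam0 Γ r f w (y + y') = lam0 Γ r f w y + lam0 Γ r f w y' := by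
  unfold lam0
  rw [← integral_add ((h.jcont_T0 hy.1).low_integrable_l2 hf hw).integrableOn
    ((h.jcont_T0 hy'.1).low_integrable_l2 hf hw).integrableOn]
  refine setIntegral_congr_fun (low_measurableSet r) fun t ht => ?_
  show f t * l2 (T0 Γ t (y + y')) w = f t * l2 (T0 Γ t y) w + f t * l2 (T0 Γ t y') w
  rw [low_T0_add, l2_add_left (h.T0_mem ht hy) (h.T0_mem ht hy') hw, mul_add]

theorem lam0_smul (Γ : H → ℝ → X) (r : ℝ) (f : ℝ → ℝ) (w : PForm E' H q) (c : ℝ)
    (y : PForm E X q) : lam0 Γ r f w (c • y) = c * lam0 Γ r f w y := by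
  unfold lam0
  rw [← integral_const_mul]
  refine setIntegral_congr_fun (low_measurableSet r) fun t _ => ?_
  show f t * l2 (T0 Γ t (c • y)) w = c * (f t * l2 (T0 Γ t y) w)
  rw [low_T0_smul, l2_smul_left]
  ring

theorem Mirror.lam1_add (h : Mirror E E' s τ r Γ ρ) {f : ℝ → ℝ} (hf : CFun r f)
    {w : PForm E' H q} (hw : w ∈ OmegaC E' H q) {y y' : PForm E X (q + 1)}
    (hy : y ∈ OmegaC E X (q + 1)) (hy' : y' ∈ OmegaC E X (q + 1)) :
    lam1 Γ r f w (y + y') = lam1 Γ r f w y + lam1 Γ r f w y' := by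
  unfold lam1
  rw [← integral_add ((h.jcont_T1 hy.1).low_integrable_l2 hf hw).integrableOn
    ((h.jcont_T1 hy'.1).low_integrable_l2 hf hw).integrableOn]
  refine setIntegral_congr_fun (low_measurableSet r) fun t ht => ?_
  show f t * l2 (T1 Γ t (y + y')) w = f t * l2 (T1 Γ t y) w + f t * l2 (T1 Γ t y') w
  rw [low_T1_add, l2_add_left (h.T1_mem ht hy) (h.T1_mem ht hy') hw, mul_add]

theorem lam1_smul (Γ : H → ℝ → X) (r : ℝ) (f : ℝ → ℝ) (w : PForm E' H q) (c : ℝ)
    (y : PForm E X (q + 1)) : lam1 Γ r f w (c • y) = c * lam1 Γ r f w y := by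
  unfold lam1
  rw [← integral_const_mul]
  refine setIntegral_congr_fun (low_measurableSet r) fun t _ => ?_
  show f t * l2 (T1 Γ t (c • y)) w = c * (f t * l2 (T1 Γ t y) w)
  rw [low_T1_smul, l2_smul_left]
  ring

/-- the bound for both functionals. -/
theorem Mirror.lam_bound_aux (h : Mirror E E' s τ r Γ ρ) (hc : Compare E E' τ r Γ) {f : ℝ → ℝ}
    (hf : CFun r f) {m : ℕ} (T : ℝ → PForm E X m → PForm E' H q)
    (hmem : ∀ t : ℝ, |t| < r → ∀ y ∈ OmegaC E X m, T t y ∈ OmegaC E' H q)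
    (hj : ∀ y ∈ OmegaC E X m, JCont r (fun t => T t y))
    (h0 : ∀ (t : ℝ) (y : PForm E X m) (z : H), y (Γ z t) = 0 → T t y z = 0)
    (hpin : ∃ C : ℝ, 0 ≤ C ∧ ∀ (y : PForm E X m) (z : H) (t : ℝ), |t| < r →
      pin (T t y) (T t y) z ≤ C * pin y y (Γ z t)) :
    ∃ C : ℝ, 0 ≤ C ∧ ∀ (w : OmC E' H q) (y : OmC E X m),
      |∫ t in {t : ℝ | |t| < r}, f t * l2 (T t y.1) w.1| ≤ C * ‖w‖ * ‖y‖ := by
  obtain ⟨C1, hC1, hpin⟩ := hpin
  obtain ⟨K, hK, hcomp⟩ := hc
  have hfC := hf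
  obtain ⟨hfs, r', hr'0, hr'r, hf0⟩ := hf
  have hr := h.r_pos
  have hfc : Continuous f := hfs.continuous
  obtain ⟨M0, hM0⟩ := (low_hasCompactSupport hf0).exists_bound_of_continuous hfc
  set M := M0 ^ 2 with hM
  have hfM : ∀ t, f t ^ 2 ≤ M := by
    intro t
    have := hM0 t
    rw [Real.norm_eq_abs] at this
    rw [hM, ← sq_abs]
    exact pow_le_pow_left₀ (abs_nonneg _) this 2
  have hM' : 0 ≤ M := sq_nonneg _
  refine ⟨2 * Real.sqrt (C1 * (K * M) / 2) * Real.sqrt r, by positivity, ?_⟩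
  intro w y
  -- the function `F`
  set F : X → ℝ := fun x => f (τ x) ^ 2 * pin y.1 y.1 x with hF
  have hτc : Continuous τ := h.smooth_τ.continuous
  have hpc : Continuous (pin y.1 y.1) := continuous_pin y.2.1 y.2.1
  have hFc : Continuous F := ((hfc.comp hτc).pow 2).mul hpc
  have hFs : HasCompactSupport F := (hasCompactSupport_pin y.2 y.1).mul_left
  have hF0 : ∀ x, 0 ≤ F x := fun x => mul_nonneg (sq_nonneg _) (pin_self_nonneg _ _)
  have hFr : ∀ x, r' ≤ |τ x| → F x = 0 := by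
    intro x hx
    show f (τ x) ^ 2 * _ = 0
    rw [hf0 _ hx]
    ring
  have h1 := (hcomp F hFc hFs hF0 ⟨r', hr'r, hFr⟩).1
  have h2 : ∫ x, F x ∂(vol E X) ≤ M * ‖y‖ ^ 2 := by
    rw [norm_sq_eq, l2, ← integral_const_mul]
    refine integral_mono (hFc.integrable_of_hasCompactSupport hFs)
      ((integrable_pin y.2 y.2).const_mul _) fun x => ?_
    exact mul_le_mul_of_nonneg_right (hfM _) (pin_self_nonneg _ _)
  -- the function on `H × ℝ`
  obtain ⟨K', hK', hsupp⟩ := h.supp_T0 y.2 hr'r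
  set G : ℝ → H → ℝ := fun t z => if |t| < r then F (Γ z t) else 0 with hG
  have hGc : Continuous (fun p : ℝ × H => G p.1 p.2) := by
    rw [continuous_iff_continuousAt]
    rintro ⟨t, z⟩
    by_cases ht : |t| < r
    · have hU : IsOpen {p : ℝ × H | |p.1| < r} := isOpen_lt (continuous_abs.comp continuous_fst)
        continuous_const
      have h3 : ContinuousOn (fun p : ℝ × H => F (Γ p.2 p.1)) {p : ℝ × H | |p.1| < r} := by
        have h4 : ContinuousOn (fun p : ℝ × H => Γ p.2 p.1) {p : ℝ × H | |p.1| < r} :=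
          h.smooth_Γ.continuousOn.comp (f := fun p : ℝ × H => (p.2, p.1))
            (continuous_swap.continuousOn) (fun p hp => hp)
        exact hFc.comp_continuousOn h4
      refine (h3.continuousAt (hU.mem_nhds ht)).congr ?_
      filter_upwards [hU.mem_nhds ht] with p hp
      exact (if_pos hp).symm
    · have hU : IsOpen {p : ℝ × H | r' < |p.1|} := isOpen_lt continuous_const
        (continuous_abs.comp continuous_fst)
      have hp0 : (t, z) ∈ {p : ℝ × H | r' < |p.1|} := hr'r.trans_le (not_lt.1 ht)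
      refine (continuousAt_const (y := (0 : ℝ))).congr ?_
      filter_upwards [hU.mem_nhds hp0] with p hp
      show (0 : ℝ) = if |p.1| < r then F (Γ p.2 p.1) else 0
      split_ifs with h5
      · rw [hFr]
        rw [h.τ_Γ _ _ h5]
        exact (show r' < |p.1| from hp).le
      · rfl
  have hG0 : ∀ t z, z ∉ K' → G t z = 0 := by
    intro t z hz
    show (if |t| < r then F (Γ z t) else 0) = 0
    split_ifs with ht
    · by_cases ht' : |t| ≤ r'
      · show f (τ (Γ z t)) ^ 2 * pin y.1 y.1 (Γ z t) = 0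
        rw [pin_eq_zero _ (hsupp t ht' z hz), mul_zero]
      · apply hFr
        rw [h.τ_Γ _ _ ht]
        exact (not_le.1 ht').le
    · rfl
  have hGi : Continuous (fun t => ∫ z, G t z ∂(vol E' H)) := by
    have h3 : (fun t => ∫ z, G t z ∂(vol E' H)) = fun t => ∫ z in K', G t z ∂(vol E' H) := by
      funext t
      exact (setIntegral_eq_integral_of_forall_compl_eq_zero (fun z hz => hG0 t z hz)).symm
    rw [h3]
    have : LocallyCompactSpace H := ChartedSpace.locallyCompactSpace E' H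
    have : IsLocallyFiniteMeasure (vol E' H) := isLocallyFiniteMeasure_of_isFiniteMeasureOnCompacts
    exact continuous_parametric_integral_of_continuous (f := G) hGc hK'
  have hG1 : ∀ t, r' ≤ |t| → ∫ z, G t z ∂(vol E' H) = 0 := by
    intro t ht
    have : ∀ z, G t z = 0 := by
      intro z
      show (if |t| < r then F (Γ z t) else 0) = 0
      split_ifs with ht'
      · apply hFr
        rwa [h.τ_Γ _ _ ht']
      · rfl
    simp [this]
  have hGint : Integrable (fun t => ∫ z, G t z ∂(vol E' H)) := low_integrable hGi hG1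
  have hGS : ∫ t in {t : ℝ | |t| < r}, ∫ z, G t z ∂(vol E' H) =
      ∫ t in {t : ℝ | |t| < r}, ∫ z, F (Γ z t) ∂(vol E' H) := by
    refine setIntegral_congr_fun (low_measurableSet r) fun t ht => ?_
    refine integral_congr_ae (Eventually.of_forall fun z => ?_)
    exact if_pos ht
  have h3 : ∀ t, |t| < r → f t ^ 2 * l2 (T t y.1) (T t y.1) ≤ C1 * ∫ z, G t z ∂(vol E' H) := by
    intro t ht
    rw [l2, ← integral_const_mul, ← integral_const_mul]
    refine integral_mono ((integrable_pin (hmem t ht _ y.2) (hmem t ht _ y.2)).const_mul _) ?_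
      fun z => ?_
    · refine Integrable.const_mul ?_ _
      have hc1 : Continuous (fun z => G t z) := hGc.comp (f := fun z : H => (t, z)) (by fun_prop)
      refine hc1.integrable_of_hasCompactSupport (HasCompactSupport.intro hK' fun z hz => hG0 t z hz)
    · show f t ^ 2 * pin (T t y.1) (T t y.1) z ≤ C1 * (if |t| < r then F (Γ z t) else 0)
      rw [if_pos ht]
      show f t ^ 2 * pin (T t y.1) (T t y.1) z ≤ C1 * (f (τ (Γ z t)) ^ 2 * pin y.1 y.1 (Γ z t))
      rw [h.τ_Γ _ _ ht]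
      calc f t ^ 2 * pin (T t y.1) (T t y.1) z ≤ f t ^ 2 * (C1 * pin y.1 y.1 (Γ z t)) :=
            mul_le_mul_of_nonneg_left (hpin _ _ _ ht) (sq_nonneg _)
        _ = _ := by ring
  have hAint : Integrable (fun t => f t ^ 2 * l2 (T t y.1) (T t y.1)) := by
    have hc1 : Continuous (fun t => f t ^ 2 * l2 (T t y.1) (T t y.1)) :=
      (hj y.1 y.2).continuous_l2 (hj y.1 y.2) (hfc.pow 2) hr'r
        (fun t ht => by
          show f t ^ 2 = 0
          rw [hf0 t ht]; ring) hK'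
        (fun t ht z hz => h0 t y.1 z (hsupp t ht z hz))
    exact low_integrable (r' := r') hc1 fun t ht => by rw [hf0 t ht]; ring
  have h4 : ∫ t in {t : ℝ | |t| < r}, f t ^ 2 * l2 (T t y.1) (T t y.1) ≤
      C1 * (K * M) * ‖y‖ ^ 2 := by
    calc ∫ t in {t : ℝ | |t| < r}, f t ^ 2 * l2 (T t y.1) (T t y.1)
        ≤ ∫ t in {t : ℝ | |t| < r}, C1 * ∫ z, G t z ∂(vol E' H) :=
          setIntegral_mono_on hAint.integrableOn (hGint.const_mul _).integrableOn
            (low_measurableSet r) h3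
      _ = C1 * ∫ t in {t : ℝ | |t| < r}, ∫ z, G t z ∂(vol E' H) := integral_const_mul _ _
      _ ≤ C1 * (K * (M * ‖y‖ ^ 2)) := by
          refine mul_le_mul_of_nonneg_left ?_ hC1
          rw [hGS]
          exact h1.trans (mul_le_mul_of_nonneg_left h2 hK)
      _ = _ := by ring
  have hint : Integrable (fun t => f t * l2 (T t y.1) w.1) := (hj y.1 y.2).low_integrable_l2 hfC w.2
  have hSfin : volume {t : ℝ | |t| < r} < ⊤ := by
    rw [low_volume]
    exact ENNReal.ofReal_lt_top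
  have key : ∀ a : ℝ, 0 < a → |∫ t in {t : ℝ | |t| < r}, f t * l2 (T t y.1) w.1| ≤
      a * (Real.sqrt (C1 * (K * M) / 2) * ‖y‖) ^ 2 + a⁻¹ * (Real.sqrt r * ‖w‖) ^ 2 := by
    intro a ha
    have hconst : IntegrableOn (fun _ : ℝ => a⁻¹ / 2 * ‖w‖ ^ 2) {t : ℝ | |t| < r} :=
      integrableOn_const hSfin.ne
    calc |∫ t in {t : ℝ | |t| < r}, f t * l2 (T t y.1) w.1|
        ≤ ∫ t in {t : ℝ | |t| < r}, |f t * l2 (T t y.1) w.1| := abs_integral_le_integral_abs
      _ ≤ ∫ t in {t : ℝ | |t| < r}, (a / 2 * (f t ^ 2 * l2 (T t y.1) (T t y.1)) +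
            a⁻¹ / 2 * ‖w‖ ^ 2) := by
          refine setIntegral_mono_on hint.abs.integrableOn
            ((hAint.const_mul _).integrableOn.add hconst) (low_measurableSet r) fun t ht => ?_
          set T' : OmC E' H q := ⟨T t y.1, hmem t ht _ y.2⟩ with hT'
          have e1 : |l2 (T t y.1) w.1| ≤ ‖T'‖ * ‖w‖ := by
            have := abs_real_inner_le_norm T' w
            rwa [OmC.inner_def] at this
          have e2 : ‖T'‖ ^ 2 = l2 (T t y.1) (T t y.1) := norm_sq_eq T'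
          rw [← e2, abs_mul]
          have e3 : |f t| * |l2 (T t y.1) w.1| ≤ |f t| * (‖T'‖ * ‖w‖) :=
            mul_le_mul_of_nonneg_left e1 (abs_nonneg _)
          refine e3.trans ?_
          have e4 : 0 ≤ (a * (|f t| * ‖T'‖) - ‖w‖) ^ 2 := sq_nonneg _
          have e5 : f t ^ 2 = |f t| ^ 2 := (sq_abs _).symm
          rw [e5]
          have e6 : |f t| * (‖T'‖ * ‖w‖) = a⁻¹ * (a * (|f t| * ‖T'‖) * ‖w‖) := by
            field_simp
          have e7 : a / 2 * (|f t| ^ 2 * ‖T'‖ ^ 2) + a⁻¹ / 2 * ‖w‖ ^ 2 =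
              a⁻¹ * (((a * (|f t| * ‖T'‖)) ^ 2 + ‖w‖ ^ 2) / 2) := by
            field_simp
          rw [e6, e7]
          refine mul_le_mul_of_nonneg_left ?_ (inv_nonneg.2 ha.le)
          nlinarith [e4]
      _ = a / 2 * (∫ t in {t : ℝ | |t| < r}, f t ^ 2 * l2 (T t y.1) (T t y.1)) +
            a⁻¹ / 2 * ‖w‖ ^ 2 * (2 * r) := by
          rw [integral_add (hAint.const_mul _).integrableOn hconst, integral_const_mul]
          congr 1
          rw [setIntegral_const, smul_eq_mul, measureReal_def, low_volume,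
            ENNReal.toReal_ofReal (by positivity)]
          ring
      _ ≤ a / 2 * (C1 * (K * M) * ‖y‖ ^ 2) + a⁻¹ / 2 * ‖w‖ ^ 2 * (2 * r) := by
          have := mul_le_mul_of_nonneg_left h4 (by positivity : 0 ≤ a / 2)
          linarith
      _ = _ := by
          rw [mul_pow, mul_pow, Real.sq_sqrt (by positivity), Real.sq_sqrt hr.le]
          ring
  have := low_le_of_scaling (by positivity) (by positivity) key
  calc |∫ t in {t : ℝ | |t| < r}, f t * l2 (T t y.1) w.1| ≤ _ := this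
    _ = _ := by ring

variable (q) in
theorem Mirror.lam0_bound (h : Mirror E E' s τ r Γ ρ) (hc : Compare E E' τ r Γ) {f : ℝ → ℝ}
    (hf : CFun r f) : ∃ C : ℝ, 0 ≤ C ∧ ∀ (w : OmC E' H q) (y : OmC E X q),
      |lam0 Γ r f w.1 y.1| ≤ C * ‖w‖ * ‖y‖ :=
  h.lam_bound_aux hc hf (fun t y => T0 Γ t y) (fun _ ht _ hy => h.T0_mem ht hy)
    (fun _ hy => h.jcont_T0 hy.1) (fun _ _ _ h0 => low_T0_eq_zero h0) (h.pin_T0_le q)

variable (q) in
theorem Mirror.lam1_bound (h : Mirror E E' s τ r Γ ρ) (hc : Compare E E' τ r Γ) {f : ℝ → ℝ}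
    (hf : CFun r f) : ∃ C : ℝ, 0 ≤ C ∧ ∀ (w : OmC E' H q) (y : OmC E X (q + 1)),
      |lam1 Γ r f w.1 y.1| ≤ C * ‖w‖ * ‖y‖ :=
  h.lam_bound_aux hc hf (fun t y => T1 Γ t y) (fun _ ht _ hy => h.T1_mem ht hy)
    (fun _ hy => h.jcont_T1 hy.1) (fun _ _ _ h0 => low_T1_eq_zero h0) (h.pin_T1_le q)

/-- `λ_0(dy; w) = λ_0(y; δw)`. -/
theorem Mirror.lam0_extD (h : Mirror E E' s τ r Γ ρ) {f : ℝ → ℝ} {w : PForm E' H (q + 1)}
    {c : PForm E' H q} (hwc : IsCodiff w c) {y : PForm E X q} (hy : y ∈ OmegaC E X q) :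
    lam0 Γ r f w (extD y) = lam0 Γ r f c y := by
  unfold lam0
  refine setIntegral_congr_fun (low_measurableSet r) fun t ht => ?_
  show f t * l2 (T0 Γ t (extD y)) w = f t * l2 (T0 Γ t y) c
  rw [← h.extD_T0 ht hy.1, hwc _ (h.T0_mem ht hy)]

theorem JCont.low_add {A B : ℝ → PForm E' H q} (hA : JCont r A) (hB : JCont r B) :
    JCont r (fun t => A t + B t) := by
  intro z₀
  have h1 := (hA z₀).add (hB z₀)
  refine h1.congr fun p _ => ?_
  exact congrFun (inChart_add (A p.2) (B p.2) z₀) p.1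

/-- `λ_1(dx; w) = - λ_0'(x; w) - λ_1(x; δw)`. -/
theorem Mirror.lam1_extD (h : Mirror E E' s τ r Γ ρ) {f : ℝ → ℝ} (hf : CFun r f)
    {w : PForm E' H (q + 1)} {c : PForm E' H q} (hw : w ∈ OmegaC E' H (q + 1))
    (hc : c ∈ OmegaC E' H q) (hwc : IsCodiff w c) {x : PForm E X (q + 1)}
    (hx : x ∈ OmegaC E X (q + 1)) :
    lam1 Γ r f w (extD x) = - lam0 Γ r (deriv f) w x - lam1 Γ r f c x := by
  have hdx : extD x ∈ OmegaC E X (q + 1 + 1) := extD_mem hx
  have hj1 : JCont r (fun t => (T1 Γ t (extD x) : PForm E' H (q + 1))) := h.jcont_T1 hdx.1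
  have hj2 : JCont r (fun t => extD (T1 Γ t x : PForm E' H q)) := h.jcont_extD_T1 hx.1
  have h1 := ibp_l2 (h.jcont_T0 hx.1) (hj1.low_add hj2)
    (fun _ ht z v => h.hasDerivAt_T0 ht hx.1 z v) hf hw
  have h2 : ∫ t in {t : ℝ | |t| < r}, f t * l2 ((T1 Γ t (extD x) : PForm E' H (q + 1)) +
      extD (T1 Γ t x : PForm E' H q)) w = lam1 Γ r f w (extD x) + lam1 Γ r f c x := by
    unfold lam1
    rw [← integral_add (hj1.low_integrable_l2 hf hw).integrableOn
      ((h.jcont_T1 hx.1).low_integrable_l2 hf hc).integrableOn]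
    refine setIntegral_congr_fun (low_measurableSet r) fun t ht => ?_
    show f t * l2 ((T1 Γ t (extD x) : PForm E' H (q + 1)) + extD (T1 Γ t x : PForm E' H q)) w =
      f t * l2 (T1 Γ t (extD x)) w + f t * l2 (T1 Γ t x) c
    rw [l2_add_left (h.T1_mem ht hdx) (extD_mem (h.T1_mem ht hx)) hw, hwc _ (h.T1_mem ht hx),
      mul_add]
  rw [h2] at h1
  unfold lam0
  linarith

theorem Mirror.lam1_extD_zero (h : Mirror E E' s τ r Γ ρ) {f : ℝ → ℝ} (hf : CFun r f)
    {w : PForm E' H 0} (hw : w ∈ OmegaC E' H 0) {x : PForm E X 0} (hx : x ∈ OmegaC E X 0) :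
    lam1 Γ r f w (extD x) = - lam0 Γ r (deriv f) w x :=
  ibp_l2 (h.jcont_T0 hx.1) (h.jcont_T1 (extD_mem hx).1)
    (fun _ ht z v => h.hasDerivAt_T0_zero ht hx.1 z v) hf hw

/-- multiplication by a function of `τ`. -/
theorem Mirror.lam0_fmul (h : Mirror E E' s τ r Γ ρ) (f g : ℝ → ℝ) (w : PForm E' H q)
    (y : PForm E X q) :
    lam0 Γ r f w (fmul (fun x => g (τ x)) y) = lam0 Γ r (fun t => f t * g t) w y := by
  unfold lam0
  refine setIntegral_congr_fun (low_measurableSet r) fun t ht => ?_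
  show f t * l2 (T0 Γ t (fmul (fun x => g (τ x)) y)) w = f t * g t * l2 (T0 Γ t y) w
  have h1 : (T0 Γ t (fmul (fun x => g (τ x)) y) : PForm E' H q) = g t • T0 Γ t y := by
    funext z
    ext v
    show g (τ (Γ z t)) • (y (Γ z t)) _ = g t • (y (Γ z t)) _
    rw [h.τ_Γ z t ht]
  rw [h1, l2_smul_left]
  ring

theorem Mirror.lam1_fmul (h : Mirror E E' s τ r Γ ρ) (f g : ℝ → ℝ) (w : PForm E' H q)
    (y : PForm E X (q + 1)) :
    lam1 Γ r f w (fmul (fun x => g (τ x)) y) = lam1 Γ r (fun t => f t * g t) w y := by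
  unfold lam1
  refine setIntegral_congr_fun (low_measurableSet r) fun t ht => ?_
  show f t * l2 (T1 Γ t (fmul (fun x => g (τ x)) y)) w = f t * g t * l2 (T1 Γ t y) w
  have h1 : (T1 Γ t (fmul (fun x => g (τ x)) y) : PForm E' H q) = g t • T1 Γ t y := by
    funext z
    ext v
    show g (τ (Γ z t)) • (y (Γ z t)) _ = g t • (y (Γ z t)) _
    rw [h.τ_Γ z t ht]
  rw [h1, l2_smul_left]
  ring

/-- the pull-back along an arbitrary map. -/
def lowPull (g : H → X) (y : PForm E X q) (z : H) : (TangentSpace 𝓘(ℝ, E') z) [⋀^Fin q]→L[ℝ] ℝ :=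
  (y (g z)).compContinuousLinearMap (mfderiv 𝓘(ℝ, E') 𝓘(ℝ, E) g z)

theorem Mirror.low_T0_pull (h : Mirror E E' s τ r Γ ρ) {t : ℝ} (ht : |t| < r) (y : PForm E X q) :
    (T0 Γ t (pull s y) : PForm E' H q) = T0 Γ (-t) y := by
  funext z
  have h1 : (fun z' : H => s (Γ z' t)) = fun z' => Γ z' (-t) := funext fun z' => h.flip z' t ht
  have h2 : (T0 Γ t (pull s y) : PForm E' H q) z = lowPull (fun z' : H => s (Γ z' t)) y z := by
    ext v
    show y (s (Γ z t)) _ = y (s (Γ z t)) _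
    congr 1
    funext i
    have h3 := mfderiv_comp (I := 𝓘(ℝ, E')) (I' := 𝓘(ℝ, E)) (I'' := 𝓘(ℝ, E)) z
      (g := s) (f := fun z' : H => Γ z' t)
      ((h.smooth_s _).mdifferentiableAt (by simp)) ((h.smooth_left ht z).mdifferentiableAt (by simp))
    exact (DFunLike.congr_fun h3 (v i)).symm
  rw [h2, h1]
  rfl

/-- the reflection. -/
theorem Mirror.lam0_pull (h : Mirror E E' s τ r Γ ρ) (f : ℝ → ℝ) (w : PForm E' H q)
    (y : PForm E X q) : lam0 Γ r f w (pull s y) = lam0 Γ r (fun t => f (-t)) w y := by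
  unfold lam0
  rw [← integral_indicator (low_measurableSet r), ← integral_indicator (low_measurableSet r),
    ← integral_neg_eq_self]
  refine integral_congr_ae (Eventually.of_forall fun t => ?_)
  show indicator {t : ℝ | |t| < r} (fun t => f t * l2 (T0 Γ t (pull s y)) w) (-t) =
    indicator {t : ℝ | |t| < r} (fun t => f (-t) * l2 (T0 Γ t y) w) t
  by_cases ht : |t| < r
  · have ht' : |-t| < r := by rwa [abs_neg]
    rw [indicator_of_mem (s := {t : ℝ | |t| < r}) ht', indicator_of_mem (s := {t : ℝ | |t| < r}) ht,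
      h.low_T0_pull ht', neg_neg]
  · have ht' : ¬ |-t| < r := by rwa [abs_neg]
    rw [indicator_of_notMem (s := {t : ℝ | |t| < r}) ht',
      indicator_of_notMem (s := {t : ℝ | |t| < r}) ht]

end Pool.Agent.ZSp
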