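import Pool.Agent.Work.MP_058ed1_gt.T.UpL2
import Pool.Agent.Work.MP_058ed1_gt.T.Low
import Pool.Agent.Work.MP_058ed1_gt.T.AlgT
import Pool.Agent.Work.MP_058ed1_gt.T.Comp
import Pool.Agent.Work.MP_058ed1_gt.C.Ex
import Pool.Agent.Work.MP_058ed1_gt.C.Est
import Pool.Agent.Work.MP_058ed1_gt.C.Bump
import Pool.Agent.Work.MP_058ed1_gt.D.Zero

/-!
# Transfer theorem: assembly
-/

open scoped Manifold ContDiff Topology Bundle ENNReal NNReal
open Set MeasureTheory Bundle Filter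

set_option linter.unusedSectionVars false

noncomputable section

namespace Pool.Agent.ZSp

variable {E : Type*} [NormedAddCommGroup E] [InnerProductSpace ℝ E] [FiniteDimensional ℝ E]
  {X : Type*} [EMetricSpace X] [ChartedSpace E X]
  [IsManifold 𝓘(ℝ, E) ∞ X] [RiemannianBundle (fun x : X => TangentSpace 𝓘(ℝ, E) x)]
  [IsContMDiffRiemannianBundle 𝓘(ℝ, E) ∞ E (fun x : X => TangentSpace 𝓘(ℝ, E) x)]
  [IsRiemannianManifold 𝓘(ℝ, E) X] [MeasurableSpace X] [BorelSpace X]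
  {E' : Type*} [NormedAddCommGroup E'] [InnerProductSpace ℝ E'] [FiniteDimensional ℝ E']
  {H : Type*} [EMetricSpace H] [ChartedSpace E' H]
  [IsManifold 𝓘(ℝ, E') ∞ H] [RiemannianBundle (fun x : H => TangentSpace 𝓘(ℝ, E') x)]
  [IsContMDiffRiemannianBundle 𝓘(ℝ, E') ∞ E' (fun x : H => TangentSpace 𝓘(ℝ, E') x)]
  [IsRiemannianManifold 𝓘(ℝ, E') H] [MeasurableSpace H] [BorelSpace H]
  {s : X → X} {τ : X → ℝ} {r : ℝ} {Γ : H → ℝ → X} {ρ : X → H} {q : ℕ}

/-! ### the reflection -/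

theorem Mirror.isRefl (h : Mirror E E' s τ r Γ ρ) : IsRefl E s := by
  obtain ⟨L, hL, -⟩ := h.bdd
  exact ⟨h.smooth_s, h.invol, L, hL⟩

theorem Mirror.fix (h : Mirror E E' s τ r Γ ρ) (x : X) (hx : τ x = 0) : s x = x := by
  have h0 : |τ x| < r := by rw [hx, abs_zero]; exact h.r_pos
  have h1 := h.Γ_ρ x h0
  rw [hx] at h1
  have h2 := h.flip (ρ x) 0 (by rw [abs_zero]; exact h.r_pos)
  rw [neg_zero, h1] at h2
  exact h2

theorem Mirror.regular (h : Mirror E E' s τ r Γ ρ) (x : X) (hx : τ x = 0) :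
    mfderiv 𝓘(ℝ, E) 𝓘(ℝ, ℝ) τ x ≠ 0 := by
  intro h0
  have hr0 : |(0 : ℝ)| < r := by rw [abs_zero]; exact h.r_pos
  have hG : Γ (ρ x) 0 = x := by
    have := h.Γ_ρ x (by rw [hx]; exact hr0)
    rwa [hx] at this
  have h1 : MDifferentiableAt 𝓘(ℝ, ℝ) 𝓘(ℝ, E) (fun t : ℝ => Γ (ρ x) t) 0 := by
    have := (h.smooth_right (ρ x)).contMDiffAt (x := (0 : ℝ))
      ((isOpen_abs_lt r).mem_nhds (by show |(0:ℝ)| < r; exact hr0))
    exact this.mdifferentiableAt (by simp)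
  have h2 : MDifferentiableAt 𝓘(ℝ, E) 𝓘(ℝ, ℝ) τ (Γ (ρ x) 0) :=
    (h.smooth_τ _).mdifferentiableAt (by simp)
  have h3 := h2.hasMFDerivAt.comp (0 : ℝ) h1.hasMFDerivAt
  have h4 : HasMFDerivAt 𝓘(ℝ, ℝ) 𝓘(ℝ, ℝ) (τ ∘ fun t : ℝ => Γ (ρ x) t) (0 : ℝ)
      (ContinuousLinearMap.id ℝ ℝ) := by
    refine (hasMFDerivAt_id (I := 𝓘(ℝ, ℝ)) (0 : ℝ)).congr_of_eventuallyEq ?_
    filter_upwards [(isOpen_abs_lt r).mem_nhds (show (0 : ℝ) ∈ {t : ℝ | |t| < r} from hr0)] with t ht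
    exact h.τ_Γ (ρ x) t ht
  have h5 := hasMFDerivAt_unique h3 h4
  have h6 : mfderiv 𝓘(ℝ, E) 𝓘(ℝ, ℝ) τ (Γ (ρ x) 0) = 0 := by rw [hG]; exact h0
  rw [h6] at h5
  have h7 := congr($h5 (1 : ℝ))
  have h8 : (0 : ℝ) = 1 := h7
  exact zero_ne_one h8

/-! ### the operator `N` -/

/-- `N = ε (1 - s^*) / 2`. -/
def NC (h : Mirror E E' s τ r Γ ρ) (q : ℕ) : L2F E X q →L[ℝ] L2F E X q :=
  (1 / 2 : ℝ) • ((EC h.smooth_τ q).comp (ContinuousLinearMap.id ℝ _ - SC h.isRefl q))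

theorem NC_apply (h : Mirror E E' s τ r Γ ρ) (a : L2F E X q) :
    NC h q a = (1 / 2 : ℝ) • EC h.smooth_τ q (a - SC h.isRefl q a) := rfl

theorem NC_DD (h : Mirror E E' s τ r Γ ρ) {a : L2F E X q} {b : L2F E X (q + 1)}
    (hab : (a, b) ∈ DD E X q) : (NC h q a, NC h (q + 1) b) ∈ DD E X q := by
  have h1 : (a - SC h.isRefl q a, b - SC h.isRefl (q + 1) b) ∈ DD E X q :=
    (DD E X q).sub_mem hab (SC_DD h.isRefl hab)
  have h2 : SC h.isRefl q (a - SC h.isRefl q a) = - (a - SC h.isRefl q a) := by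
    rw [map_sub, SC_SC_self]; abel
  have h3 : SC h.isRefl (q + 1) (b - SC h.isRefl (q + 1) b) =
      - (b - SC h.isRefl (q + 1) b) := by
    rw [map_sub, SC_SC_self]; abel
  have h4 := EC_DD h.isRefl h.smooth_τ h.fix h.regular h1 h2 h3
  exact (DD E X q).smul_mem (1 / 2 : ℝ) h4

theorem DD_DD {a : L2F E X q} {b : L2F E X (q + 1)} (hab : (a, b) ∈ DD E X q) :
    (b, 0) ∈ DD E X (q + 1) := by
  obtain ⟨u, -, hw⟩ := DD_seq hab
  refine DD_of_tendsto hw (tendsto_const_nhds (x := (0 : L2F E X (q + 1 + 1)))) fun k => ?_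
  have h1 := DD_coe (dC (u k))
  rw [dC_dC] at h1
  exact h1

theorem DD_functional {φ : L2F E X q →L[ℝ] ℝ} {ψ : L2F E X (q + 1) →L[ℝ] ℝ}
    (h : ∀ u : OmC E X q, ψ (dC u : L2F E X (q + 1)) = φ (u : L2F E X q)) {a : L2F E X q}
    {b : L2F E X (q + 1)} (hab : (a, b) ∈ DD E X q) : ψ b = φ a := by
  obtain ⟨u, hu, hw⟩ := DD_seq hab
  have h1 := (ψ.continuous.tendsto _).comp hw
  have h2 := (φ.continuous.tendsto _).comp hu
  exact tendsto_nhds_unique (h1.congr fun k => h (u k)) h2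

/-! ### the maps from `H` to `X` -/

theorem bump_cfun_a {a b : ℝ → ℝ} (hab : BumpPair r a b) : CFun r a := by
  obtain ⟨r', h0, h1, h2⟩ := hab.supp
  exact ⟨hab.a_smooth, r', h0, h1, fun t ht => (h2 t ht).1⟩

theorem bump_cfun_b {a b : ℝ → ℝ} (hab : BumpPair r a b) : CFun r b := by
  obtain ⟨r', h0, h1, h2⟩ := hab.supp
  exact ⟨hab.b_smooth, r', h0, h1, fun t ht => (h2 t ht).2⟩

/-- `α ↦ f(τ) ρ^*α`. -/
def uC (h : Mirror E E' s τ r Γ ρ) {f : ℝ → ℝ} (hf : CFun r f) :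
    OmC E' H q →ₗ[ℝ] OmC E X q where
  toFun α := ⟨uF τ r ρ f α.1, h.uF_mem hf α.2⟩
  map_add' α β := Subtype.ext (uF_add f α.1 β.1)
  map_smul' c α := Subtype.ext (uF_smul f c α.1)

/-- `α ↦ f'(τ) dτ ∧ ρ^*α`. -/
def rC (h : Mirror E E' s τ r Γ ρ) {f : ℝ → ℝ} (hf : CFun r f) :
    OmC E' H q →ₗ[ℝ] OmC E X (q + 1) where
  toFun α := ⟨rF τ r ρ f α.1, h.rF_mem hf α.2⟩
  map_add' α β := Subtype.ext (h.rF_add hf α.2.1 β.2.1)
  map_smul' c α := Subtype.ext (h.rF_smul hf c α.2.1)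

theorem norm_le_of_sq {a b C : ℝ} (_ha : 0 ≤ a) (hb : 0 ≤ b) (hC : 0 ≤ C)
    (h : a ^ 2 ≤ C * b ^ 2) : a ≤ Real.sqrt C * b := by
  have h1 : a ^ 2 ≤ (Real.sqrt C * b) ^ 2 := by rwa [mul_pow, Real.sq_sqrt hC]
  exact (abs_le_of_sq_le_sq' h1 (by positivity)).2

theorem norm_uC_le (h : Mirror E E' s τ r Γ ρ) (hc : Compare E E' τ r Γ) {f : ℝ → ℝ}
    (hf : CFun r f) (q : ℕ) : ∃ C : ℝ, ∀ α : OmC E' H q, ‖uC h hf α‖ ≤ C * ‖α‖ := by
  obtain ⟨C, hC, h1⟩ := h.l2_uF_le q hc hf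
  refine ⟨Real.sqrt C, fun α => norm_le_of_sq (norm_nonneg _) (norm_nonneg _) hC ?_⟩
  rw [norm_sq_eq, norm_sq_eq]
  exact h1 α.1 α.2

theorem norm_rC_le (h : Mirror E E' s τ r Γ ρ) (hc : Compare E E' τ r Γ) {f : ℝ → ℝ}
    (hf : CFun r f) (q : ℕ) : ∃ C : ℝ, ∀ α : OmC E' H q, ‖rC h hf α‖ ≤ C * ‖α‖ := by
  obtain ⟨C, hC, h1⟩ := h.l2_rF_le q hc hf
  refine ⟨Real.sqrt C, fun α => norm_le_of_sq (norm_nonneg _) (norm_nonneg _) hC ?_⟩
  rw [norm_sq_eq, norm_sq_eq]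
  exact h1 α.1 α.2

theorem dC_uC (h : Mirror E E' s τ r Γ ρ) {f : ℝ → ℝ} (hf : CFun r f) (α : OmC E' H q) :
    dC (uC h hf α) = rC h hf α + uC h hf (dC α) := by
  apply Subtype.ext
  show extD (uF τ r ρ f α.1) = rF τ r ρ f α.1 + uF τ r ρ f (extD α.1)
  unfold rF
  abel

theorem dC_rC (h : Mirror E E' s τ r Γ ρ) {f : ℝ → ℝ} (hf : CFun r f) (α : OmC E' H q) :
    dC (rC h hf α) = - rC h hf (dC α) := Subtype.ext (h.extD_rF hf α.2.1)

theorem pullC_rC (h : Mirror E E' s τ r Γ ρ) {f : ℝ → ℝ} (hf : CFun r f)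
    (he : ∀ t, f (-t) = f t) (α : OmC E' H q) : pullC h.isRefl (rC h hf α) = rC h hf α :=
  Subtype.ext (h.pull_rF hf he α.2.1)

/-- the sign is reached away from `0`. -/
theorem stp_eq_sign {k₁ : ℕ} {r₁ : ℝ} (hk₁ : 1 < k₁ * r₁) {k : ℕ} (hk : k₁ ≤ k) {t : ℝ}
    (ht : r₁ ≤ |t|) : stp (k * t) = Real.sign t := by
  have h3 : (0 : ℝ) ≤ k := by positivity
  have h4 : (k₁ : ℝ) ≤ k := by exact_mod_cast hk
  have h5 : (0 : ℝ) ≤ k₁ := by positivity
  have h6 : 0 < r₁ := by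
    by_contra hcon
    push Not at hcon
    nlinarith
  have h7 : 1 ≤ k * |t| := by nlinarith [abs_nonneg t]
  rcases lt_trichotomy t 0 with h | h | h
  · rw [Real.sign_of_neg h]
    apply stp_of_le_neg_one
    rw [abs_of_neg h] at h7
    nlinarith
  · rw [h, abs_zero] at ht
    linarith
  · rw [Real.sign_of_pos h]
    apply stp_of_one_le
    rw [abs_of_pos h] at h7
    exact h7

theorem sign_sq_of_ne {t : ℝ} (h : t ≠ 0) : Real.sign t * Real.sign t = 1 := by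
  rcases lt_or_gt_of_ne h with h | h
  · rw [Real.sign_of_neg h]; norm_num
  · rw [Real.sign_of_pos h]; norm_num

section bump

variable {a b : ℝ → ℝ}

theorem bump_const (hab : BumpPair r a b) {r₁ : ℝ} (hb : ∀ t, |t| ≤ r₁ → b t = 0) {t : ℝ}
    (ht : |t| < r₁) : ∀ᶠ t' in 𝓝 t, a t' = a t := by
  have hop : IsOpen (Ioo (-r₁) r₁) := isOpen_Ioo
  have hd : DifferentiableOn ℝ a (Ioo (-r₁) r₁) :=
    (hab.a_smooth.differentiable (by simp)).differentiableOn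
  have hd0 : (Ioo (-r₁) r₁).EqOn (deriv a) 0 := by
    intro u hu
    rw [hab.deriv_a u, hb u (abs_le.2 ⟨hu.1.le, hu.2.le⟩), mul_zero]
    rfl
  obtain ⟨c, hc⟩ := hop.exists_is_const_of_deriv_eq_zero isPreconnected_Ioo hd hd0
  have htm : t ∈ Ioo (-r₁) r₁ := abs_lt.1 ht
  filter_upwards [hop.mem_nhds htm] with t' ht'
  rw [hc t' ht', hc t htm]

theorem rF_eq_zero_of_lt (h : Mirror E E' s τ r Γ ρ) (hab : BumpPair r a b) {r₁ : ℝ}
    (hb : ∀ t, |t| ≤ r₁ → b t = 0) {α : PForm E' H q} (hα : SmoothForm α) {x : X}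
    (hx : |τ x| < r₁) : (rF τ r ρ a α : PForm E X (q + 1)) x = 0 :=
  h.rF_zero (bump_cfun_a hab) hα (bump_const hab hb hx)

theorem fmul_congr_of_support {f g : X → ℝ} {w : PForm E X q}
    (h : ∀ x, w x ≠ 0 → f x = g x) : fmul f w = fmul g w := by
  funext x
  show f x • w x = g x • w x
  by_cases h0 : w x = 0
  · rw [h0, smul_zero, smul_zero]
  · rw [h x h0]

/-- `ε R α` is smooth. -/
theorem mulC_rC_eq (h : Mirror E E' s τ r Γ ρ) (hab : BumpPair r a b) {r₁ : ℝ}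
    (hb : ∀ t, |t| ≤ r₁ → b t = 0) {k₁ : ℕ} (hk₁ : 1 < k₁ * r₁) {k : ℕ} (hk : k₁ ≤ k)
    (α : OmC E' H q) :
    mulC (stpk τ k) (stpk_smooth h.smooth_τ k) (rC h (bump_cfun_a hab) α) =
      mulC (stpk τ k₁) (stpk_smooth h.smooth_τ k₁) (rC h (bump_cfun_a hab) α) := by
  apply Subtype.ext
  refine fmul_congr_of_support fun x hx => ?_
  have h1 : r₁ ≤ |τ x| := by
    by_contra hcon
    push Not at hcon
    exact hx (rF_eq_zero_of_lt h hab hb α.2.1 hcon)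
  show stp (k * τ x) = stp (k₁ * τ x)
  rw [stp_eq_sign hk₁ hk h1, stp_eq_sign hk₁ le_rfl h1]

theorem mulC_mulC_rC (h : Mirror E E' s τ r Γ ρ) (hab : BumpPair r a b) {r₁ : ℝ}
    (hb : ∀ t, |t| ≤ r₁ → b t = 0) {k₁ : ℕ} (hk₁ : 1 < k₁ * r₁) {k : ℕ} (hk : k₁ ≤ k)
    (α : OmC E' H q) :
    mulC (stpk τ k) (stpk_smooth h.smooth_τ k)
      (mulC (stpk τ k₁) (stpk_smooth h.smooth_τ k₁) (rC h (bump_cfun_a hab) α)) =
      rC h (bump_cfun_a hab) α := by
  apply Subtype.ext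
  funext x
  show stp (k * τ x) • (stp (k₁ * τ x) • rF τ r ρ a α.1 x) = rF τ r ρ a α.1 x
  by_cases h1 : r₁ ≤ |τ x|
  · rw [stp_eq_sign hk₁ hk h1, stp_eq_sign hk₁ le_rfl h1, smul_smul, sign_sq_of_ne, one_smul]
    intro h0
    rw [h0, abs_zero] at h1
    have h5 : (0 : ℝ) ≤ k₁ := by positivity
    nlinarith
  · push Not at h1
    rw [rF_eq_zero_of_lt h hab hb α.2.1 h1, smul_zero, smul_zero]

/-- `U1 α = ε R α`. -/
def u1 (h : Mirror E E' s τ r Γ ρ) (hab : BumpPair r a b) (k₁ : ℕ) :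
    OmC E' H q →ₗ[ℝ] OmC E X (q + 1) :=
  (mulC (stpk τ k₁) (stpk_smooth h.smooth_τ k₁)).comp (rC h (bump_cfun_a hab))

theorem u1_val (h : Mirror E E' s τ r Γ ρ) (hab : BumpPair r a b) (k₁ : ℕ) (α : OmC E' H q) :
    (u1 h hab k₁ α).1 = fmul (fun x => stp (k₁ * τ x)) (rF τ r ρ a α.1) := rfl

theorem EC_rC (h : Mirror E E' s τ r Γ ρ) (hab : BumpPair r a b) {r₁ : ℝ}
    (hb : ∀ t, |t| ≤ r₁ → b t = 0) {k₁ : ℕ} (hk₁ : 1 < k₁ * r₁) (α : OmC E' H q) :
    EC h.smooth_τ (q + 1) (rC h (bump_cfun_a hab) α : L2F E X (q + 1)) =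
      (u1 h hab k₁ α : L2F E X (q + 1)) := by
  apply EC_of_eventually
  filter_upwards [eventually_ge_atTop k₁] with k hk
  exact mulC_rC_eq h hab hb hk₁ hk α

theorem EC_u1 (h : Mirror E E' s τ r Γ ρ) (hab : BumpPair r a b) {r₁ : ℝ}
    (hb : ∀ t, |t| ≤ r₁ → b t = 0) {k₁ : ℕ} (hk₁ : 1 < k₁ * r₁) (α : OmC E' H q) :
    EC h.smooth_τ (q + 1) (u1 h hab k₁ α : L2F E X (q + 1)) =
      (rC h (bump_cfun_a hab) α : L2F E X (q + 1)) := by
  apply EC_of_eventually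
  filter_upwards [eventually_ge_atTop k₁] with k hk
  exact mulC_mulC_rC h hab hb hk₁ hk α

theorem NC_u1 (h : Mirror E E' s τ r Γ ρ) (hab : BumpPair r a b) {r₁ : ℝ}
    (hb : ∀ t, |t| ≤ r₁ → b t = 0) {k₁ : ℕ} (hk₁ : 1 < k₁ * r₁) (α : OmC E' H q) :
    NC h (q + 1) (u1 h hab k₁ α : L2F E X (q + 1)) =
      (rC h (bump_cfun_a hab) α : L2F E X (q + 1)) := by
  have h1 : SC h.isRefl (q + 1) (u1 h hab k₁ α : L2F E X (q + 1)) =
      - (u1 h hab k₁ α : L2F E X (q + 1)) := by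
    rw [← EC_rC h hab hb hk₁, SC_EC_odd h.smooth_τ h.isRefl h.odd, SC_coe,
      pullC_rC h (bump_cfun_a hab) hab.a_even]
  rw [NC_apply, h1, sub_neg_eq_add, ← two_smul ℝ, map_smul, smul_smul, EC_u1 h hab hb hk₁]
  norm_num

/-- multiplication by a function which is locally constant near the support commutes with `d`. -/
theorem extD_fmul_of_locally {g : X → ℝ} {w : PForm E X q}
    (hw : SmoothForm w) (h : ∀ x, (∀ᶠ y in 𝓝 x, g y = g x) ∨ (∀ᶠ y in 𝓝 x, w y = 0)) :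
    extD (fmul g w) = fmul g (extD w) := by
  funext x
  rcases h x with h1 | h1
  · have h2 : ∀ᶠ y in 𝓝 x, fmul g w y = (g x • w) y := by
      filter_upwards [h1] with y hy
      show g y • w y = g x • w y
      rw [hy]
    rw [extD_congr h2, extD_smul hw]
    rfl
  · have h2 : ∀ᶠ y in 𝓝 x, fmul g w y = (0 : PForm E X q) y := by
      filter_upwards [h1] with y hy
      show g y • w y = 0
      rw [hy, smul_zero]
    have h3 : ∀ᶠ y in 𝓝 x, w y = (0 : PForm E X q) y := h1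
    show extD (fmul g w) x = g x • extD w x
    rw [extD_congr h2, extD_congr h3, extD_zero]
    show (0 : PForm E X (q + 1)) x = g x • (0 : PForm E X (q + 1)) x
    show (0 : TangentSpace 𝓘(ℝ, E) x [⋀^Fin (q + 1)]→L[ℝ] ℝ) = g x • 0
    rw [smul_zero]

theorem dC_u1 (h : Mirror E E' s τ r Γ ρ) (hab : BumpPair r a b) {r₁ : ℝ}
    (hb : ∀ t, |t| ≤ r₁ → b t = 0) {k₁ : ℕ} (hk₁ : 1 < k₁ * r₁) (α : OmC E' H q) :
    dC (u1 h hab k₁ α) = - u1 h hab k₁ (dC α) := by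
  have h0 : dC (u1 h hab k₁ α) = mulC (stpk τ k₁) (stpk_smooth h.smooth_τ k₁)
      (dC (rC h (bump_cfun_a hab) α)) := by
    apply Subtype.ext
    refine extD_fmul_of_locally (h.rF_mem (bump_cfun_a hab) α.2).1 fun x => ?_
    by_cases hx : |τ x| < r₁
    · right
      have h1 : ∀ᶠ y in 𝓝 x, |τ y| < r₁ :=
        (h.smooth_τ.continuous.abs.continuousAt.eventually_lt_const hx)
      filter_upwards [h1] with y hy
      exact rF_eq_zero_of_lt h hab hb α.2.1 hy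
    · left
      push Not at hx
      have h5 : (0 : ℝ) ≤ k₁ := by positivity
      have hk0 : (0 : ℝ) < k₁ := by
        rcases h5.lt_or_eq with h6 | h6
        · exact h6
        · rw [← h6, zero_mul] at hk₁
          linarith
      have hcont := h.smooth_τ.continuous
      have h8 : 1 < k₁ * |τ x| := by nlinarith
      rcases lt_trichotomy (τ x) 0 with h9 | h9 | h9
      · rw [abs_of_neg h9] at h8
        have h10 : k₁ * τ x < -1 := by linarith
        have h11 : ∀ᶠ y in 𝓝 x, (k₁ : ℝ) * τ y < -1 :=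
          ((continuous_const.mul hcont).continuousAt.eventually_lt_const h10)
        filter_upwards [h11] with y hy
        show stp (k₁ * τ y) = stp (k₁ * τ x)
        rw [stp_of_le_neg_one hy.le, stp_of_le_neg_one h10.le]
      · rw [h9, abs_zero] at h8
        linarith
      · rw [abs_of_pos h9] at h8
        have h11 : ∀ᶠ y in 𝓝 x, 1 < (k₁ : ℝ) * τ y :=
          ((continuous_const.mul hcont).continuousAt.eventually_const_lt h8)
        filter_upwards [h11] with y hy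
        show stp (k₁ * τ y) = stp (k₁ * τ x)
        rw [stp_of_one_le hy.le, stp_of_one_le h8.le]
  rw [h0, dC_rC, map_neg]
  rfl

end bump

/-! ### the functionals -/

/-- `λ_0(·; w)` on `Ω_c(X)`. -/
def lamT0 (h : Mirror E E' s τ r Γ ρ) {f : ℝ → ℝ} (hf : CFun r f) (w : OmC E' H q) :
    OmC E X q →ₗ[ℝ] ℝ where
  toFun y := lam0 Γ r f w.1 y.1
  map_add' y y' := h.lam0_add hf w.2 y.2 y'.2
  map_smul' c y := lam0_smul Γ r f w.1 c y.1

/-- `λ_1(·; w)` on `Ω_c(X)`. -/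
def lamT1 (h : Mirror E E' s τ r Γ ρ) {f : ℝ → ℝ} (hf : CFun r f) (w : OmC E' H q) :
    OmC E X (q + 1) →ₗ[ℝ] ℝ where
  toFun y := lam1 Γ r f w.1 y.1
  map_add' y y' := h.lam1_add hf w.2 y.2 y'.2
  map_smul' c y := lam1_smul Γ r f w.1 c y.1

theorem norm_lamT0_le (h : Mirror E E' s τ r Γ ρ) (hc : Compare E E' τ r Γ) {f : ℝ → ℝ}
    (hf : CFun r f) (w : OmC E' H q) : ∃ C : ℝ, ∀ y, ‖lamT0 h hf w y‖ ≤ C * ‖y‖ := by
  obtain ⟨C, -, h1⟩ := h.lam0_bound q hc hf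
  exact ⟨C * ‖w‖, fun y => h1 w y⟩

theorem norm_lamT1_le (h : Mirror E E' s τ r Γ ρ) (hc : Compare E E' τ r Γ) {f : ℝ → ℝ}
    (hf : CFun r f) (w : OmC E' H q) : ∃ C : ℝ, ∀ y, ‖lamT1 h hf w y‖ ≤ C * ‖y‖ := by
  obtain ⟨C, -, h1⟩ := h.lam1_bound q hc hf
  exact ⟨C * ‖w‖, fun y => h1 w y⟩

/-- `λ_0(·; w)` on `L²`. -/
def Lam0 (h : Mirror E E' s τ r Γ ρ) (hc : Compare E E' τ r Γ) {f : ℝ → ℝ} (hf : CFun r f)
    (w : OmC E' H q) : L2F E X q →L[ℝ] ℝ := extC (lamT0 h hf w) (norm_lamT0_le h hc hf w)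

/-- `λ_1(·; w)` on `L²`. -/
def Lam1 (h : Mirror E E' s τ r Γ ρ) (hc : Compare E E' τ r Γ) {f : ℝ → ℝ} (hf : CFun r f)
    (w : OmC E' H q) : L2F E X (q + 1) →L[ℝ] ℝ :=
  extC (lamT1 h hf w) (norm_lamT1_le h hc hf w)

theorem Lam0_coe (h : Mirror E E' s τ r Γ ρ) (hc : Compare E E' τ r Γ) {f : ℝ → ℝ}
    (hf : CFun r f) (w : OmC E' H q) (y : OmC E X q) :
    Lam0 h hc hf w (y : L2F E X q) = lam0 Γ r f w.1 y.1 := extC_coe _ _ _

theorem Lam1_coe (h : Mirror E E' s τ r Γ ρ) (hc : Compare E E' τ r Γ) {f : ℝ → ℝ}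
    (hf : CFun r f) (w : OmC E' H q) (y : OmC E X (q + 1)) :
    Lam1 h hc hf w (y : L2F E X (q + 1)) = lam1 Γ r f w.1 y.1 := extC_coe _ _ _

theorem functional_bound {φ : L2F E X q →L[ℝ] ℝ} {C : ℝ}
    (h : ∀ u : OmC E X q, |φ (u : L2F E X q)| ≤ C * ‖u‖) (y : L2F E X q) : |φ y| ≤ C * ‖y‖ := by
  induction y using UniformSpace.Completion.induction_on with
  | hp => exact isClosed_le (φ.continuous.abs) (continuous_const.mul continuous_norm)
  | ih u => rw [UniformSpace.Completion.norm_coe]; exact h u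

theorem Lam0_bound (h : Mirror E E' s τ r Γ ρ) (hc : Compare E E' τ r Γ) {f : ℝ → ℝ}
    (hf : CFun r f) (q : ℕ) : ∃ C : ℝ, ∀ (w : OmC E' H q) (y : L2F E X q),
      |Lam0 h hc hf w y| ≤ C * ‖w‖ * ‖y‖ := by
  obtain ⟨C, -, h1⟩ := h.lam0_bound q hc hf
  refine ⟨C, fun w y => functional_bound (fun u => ?_) y⟩
  rw [Lam0_coe]
  exact h1 w u

theorem Lam1_bound (h : Mirror E E' s τ r Γ ρ) (hc : Compare E E' τ r Γ) {f : ℝ → ℝ}
    (hf : CFun r f) (q : ℕ) : ∃ C : ℝ, ∀ (w : OmC E' H q) (y : L2F E X (q + 1)),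
      |Lam1 h hc hf w y| ≤ C * ‖w‖ * ‖y‖ := by
  obtain ⟨C, -, h1⟩ := h.lam1_bound q hc hf
  refine ⟨C, fun w y => functional_bound (fun u => ?_) y⟩
  rw [Lam1_coe]
  exact h1 w u

theorem lam0_neg (Γ : H → ℝ → X) (r : ℝ) (f : ℝ → ℝ) (w : PForm E' H q) (y : PForm E X q) :
    lam0 Γ r (fun t => - f t) w y = - lam0 Γ r f w y := by
  unfold lam0
  rw [← integral_neg]
  refine integral_congr_ae (Eventually.of_forall fun t => ?_)
  show - f t * l2 (T0 Γ t y) w = - (f t * l2 (T0 Γ t y) w)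
  ring

section bump2

variable {a b : ℝ → ℝ}

theorem Lam0_EC (h : Mirror E E' s τ r Γ ρ) (hc : Compare E E' τ r Γ) (hab : BumpPair r a b)
    {r₁ : ℝ} (hb : ∀ t, |t| ≤ r₁ → b t = 0) {k₁ : ℕ} (hk₁ : 1 < k₁ * r₁) (w : OmC E' H q)
    (y : OmC E X q) : Lam0 h hc (bump_cfun_b hab) w (EC h.smooth_τ q (y : L2F E X q)) =
      lam0 Γ r (deriv a) w.1 y.1 := by
  have h1 := ((Lam0 h hc (bump_cfun_b hab) w).continuous.tendsto _).comp
    (EC_tendsto h.smooth_τ y)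
  refine tendsto_nhds_unique h1 (tendsto_const_nhds.congr' ?_)
  filter_upwards [eventually_ge_atTop k₁] with k hk
  show lam0 Γ r (deriv a) w.1 y.1 = Lam0 h hc (bump_cfun_b hab) w
    (mulC (stpk τ k) (stpk_smooth h.smooth_τ k) y : L2F E X q)
  rw [Lam0_coe]
  show _ = lam0 Γ r b w.1 (fmul (fun x => stp (k * τ x)) y.1)
  rw [h.lam0_fmul b (fun t => stp (k * t))]
  congr 1
  funext t
  rw [hab.deriv_a]
  by_cases ht : r₁ ≤ |t|
  · rw [stp_eq_sign hk₁ hk ht, mul_comm]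
  · push Not at ht
    rw [hb t ht.le, mul_zero, zero_mul]

theorem Lam0_NC (h : Mirror E E' s τ r Γ ρ) (hc : Compare E E' τ r Γ) (hab : BumpPair r a b)
    {r₁ : ℝ} (hb : ∀ t, |t| ≤ r₁ → b t = 0) {k₁ : ℕ} (hk₁ : 1 < k₁ * r₁) (w : OmC E' H q)
    (y : OmC E X q) : Lam0 h hc (bump_cfun_b hab) w (NC h q (y : L2F E X q)) =
      lam0 Γ r (deriv a) w.1 y.1 := by
  have h1 : (y : L2F E X q) - SC h.isRefl q (y : L2F E X q) =
      ((y - pullC h.isRefl y : OmC E X q) : L2F E X q) := by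
    rw [SC_coe, coe_sub']
  have hodd : ∀ t, deriv a (-t) = - deriv a t := by
    intro t
    rw [hab.deriv_a, hab.deriv_a, hab.b_even, Real.sign_neg]
    ring
  have h2 : lam0 Γ r (deriv a) w.1 (pullC h.isRefl y).1 = - lam0 Γ r (deriv a) w.1 y.1 := by
    show lam0 Γ r (deriv a) w.1 (pull s y.1) = _
    rw [h.lam0_pull]
    have h3 : (fun t => deriv a (-t)) = fun t => - deriv a t := funext hodd
    rw [h3, lam0_neg]
  rw [NC_apply, h1, map_smul, smul_eq_mul, Lam0_EC h hc hab hb hk₁]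
  have h4 : CFun r (deriv a) := by
    obtain ⟨r', h0, hr', h5⟩ := hab.supp
    refine ⟨?_, r', h0, hr', fun t ht => ?_⟩
    · exact (contDiff_infty_iff_deriv.1 hab.a_smooth).2
    · rw [hab.deriv_a, (h5 t ht).2, mul_zero]
  have h5 : lam0 Γ r (deriv a) w.1 (y - pullC h.isRefl y).1 =
      lam0 Γ r (deriv a) w.1 y.1 - lam0 Γ r (deriv a) w.1 (pullC h.isRefl y).1 :=
    map_sub (lamT0 h h4 w) y (pullC h.isRefl y)
  rw [h5, h2]
  ring

theorem setIntegral_abs_lt {g : ℝ → ℝ} (h : ∀ t, r ≤ |t| → g t = 0) :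
    ∫ t in {t : ℝ | |t| < r}, g t = ∫ t, g t := by
  apply setIntegral_eq_integral_of_forall_compl_eq_zero
  intro t ht
  apply h
  by_contra hcon
  push Not at hcon
  exact ht hcon

theorem measurableSet_abs_lt : MeasurableSet {t : ℝ | |t| < r} :=
  (isOpen_abs_lt r).measurableSet

theorem Lam_total (h : Mirror E E' s τ r Γ ρ) (hc : Compare E E' τ r Γ)
    (hab : BumpPair r a b) {r₁ : ℝ} (hb : ∀ t, |t| ≤ r₁ → b t = 0) {k₁ : ℕ}
    (hk₁ : 1 < k₁ * r₁) (w : OmC E' H q) :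
    Lam1 h hc (bump_cfun_a hab) w (u1 h hab k₁ w : L2F E X (q + 1)) +
      Lam0 h hc (bump_cfun_b hab) w (uC h (bump_cfun_a hab) w : L2F E X q) =
      -2 * ‖w‖ ^ 2 := by
  obtain ⟨r', h0, hr', h5⟩ := hab.supp
  have hz : ∀ t, r ≤ |t| → a t * b t = 0 := fun t ht => by
    rw [(h5 t (hr'.le.trans ht)).1, zero_mul]
  have hI : ∫ t in {t : ℝ | |t| < r}, a t * b t * l2 w.1 w.1 = - ‖w‖ ^ 2 := by
    rw [integral_mul_const, setIntegral_abs_lt hz, hab.integral, norm_sq_eq]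
    ring
  have e1 : Lam1 h hc (bump_cfun_a hab) w (u1 h hab k₁ w : L2F E X (q + 1)) = - ‖w‖ ^ 2 := by
    rw [Lam1_coe, u1_val, h.lam1_fmul a (fun t => stp (k₁ * t)), ← hI]
    unfold lam1
    refine setIntegral_congr_fun measurableSet_abs_lt fun t ht => ?_
    show a t * stp (k₁ * t) * l2 (T1 Γ t (rF τ r ρ a w.1)) w.1 = a t * b t * l2 w.1 w.1
    rw [h.T1_rF (bump_cfun_a hab) ht w.2.1, l2_smul_left, hab.deriv_a]
    by_cases h1 : r₁ ≤ |t|
    · rw [stp_eq_sign hk₁ le_rfl h1]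
      have h2 : t ≠ 0 := by
        intro h3
        rw [h3, abs_zero] at h1
        have h6 : (0 : ℝ) ≤ k₁ := by positivity
        nlinarith
      linear_combination a t * b t * l2 w.1 w.1 * sign_sq_of_ne h2
    · push Not at h1
      rw [hb t h1.le]
      ring
  have e2 : Lam0 h hc (bump_cfun_b hab) w (uC h (bump_cfun_a hab) w : L2F E X q) =
      - ‖w‖ ^ 2 := by
    rw [Lam0_coe, ← hI]
    unfold lam0
    refine setIntegral_congr_fun measurableSet_abs_lt fun t ht => ?_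
    show b t * l2 (T0 Γ t (uF τ r ρ a w.1)) w.1 = a t * b t * l2 w.1 w.1
    rw [h.T0_uF ht, l2_smul_left]
    ring
  rw [e1, e2]
  ring

end bump2

/-! ### the conclusion -/

theorem exAt_of_not_zeroInSpec {q : ℕ} (h : ¬ ZeroInSpec E X q) :
    ExAt (K := fun q => L2F E X q) (fun q => DD E X q) q := by
  cases q with
  | zero => exact fun a ha => exact_zero_of_not_zeroInSpec h a ha
  | succ q => exact fun a ha => exact_of_not_zeroInSpec h a ha

theorem Mirror.exists_zeroInSpec (h : Mirror E E' s τ r Γ ρ) (hc : Compare E E' τ r Γ)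
    {p : ℕ} (hp : ZeroApprox E' H p) : ∃ q, p ≤ q ∧ q ≤ p + 2 ∧ ZeroInSpec E X q := by
  by_contra hcon
  push Not at hcon
  obtain ⟨a, b, hab⟩ := exists_bumpPair h.r_pos
  obtain ⟨r₁, hr₁, hb⟩ := hab.b_zero
  obtain ⟨k₁, hk⟩ := exists_nat_gt (1 / r₁)
  have hk₁ : 1 < k₁ * r₁ := by rwa [div_lt_iff₀ hr₁] at hk
  let A : TData (fun q => L2F E X q) (fun q => OmC E' H q) :=
    { D := fun q => DD E X q
      D_closed := fun q => DD_closed
      D_D := fun q a b hab' => DD_DD hab'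
      N := fun q => NC h q
      N_D := fun q a b hab' => NC_DD h hab'
      dM := fun q => dCl
      dM_dM := fun q w => dC_dC w
      U0 := fun q => coeL.comp (uC h (bump_cfun_a hab))
      U1 := fun q => coeL.comp (u1 h hab k₁)
      U0_bdd := by
        intro q
        obtain ⟨C, hC⟩ := norm_uC_le h hc (bump_cfun_a hab) q
        refine ⟨C, fun w => ?_⟩
        show ‖((uC h (bump_cfun_a hab) w : OmC E X q) : L2F E X q)‖ ≤ _
        rw [norm_coe]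
        exact hC w
      U1_bdd := by
        intro q
        obtain ⟨C, hC⟩ := norm_rC_le h hc (bump_cfun_a hab) q
        refine ⟨C, fun w => ?_⟩
        show ‖((u1 h hab k₁ w : OmC E X (q + 1)) : L2F E X (q + 1))‖ ≤ _
        rw [norm_coe]
        refine (norm_mulC_le (stpk_smooth h.smooth_τ k₁) (fun x => abs_stp_le _) _).trans ?_
        rw [one_mul]
        exact hC w
      U0_D := by
        intro q w
        show (((uC h (bump_cfun_a hab) w : OmC E X q) : L2F E X q),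
          NC h (q + 1) (u1 h hab k₁ w : L2F E X (q + 1)) +
            (uC h (bump_cfun_a hab) (dC w) : L2F E X (q + 1))) ∈ DD E X q
        have h1 : NC h (q + 1) (u1 h hab k₁ w : L2F E X (q + 1)) +
            (uC h (bump_cfun_a hab) (dC w) : L2F E X (q + 1)) =
            (dC (uC h (bump_cfun_a hab) w) : L2F E X (q + 1)) := by
          rw [NC_u1 h hab hb hk₁, dC_uC]
          exact (UniformSpace.Completion.coe_add _ _).symm
        rw [h1]
        exact DD_coe _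
      U1_D := by
        intro q w
        show (((u1 h hab k₁ w : OmC E X (q + 1)) : L2F E X (q + 1)),
          - (u1 h hab k₁ (dC w) : L2F E X (q + 1 + 1))) ∈ DD E X (q + 1)
        have h1 := DD_coe (u1 h hab k₁ w)
        rw [dC_u1 h hab hb hk₁] at h1
        have h2 : ((- u1 h hab k₁ (dC w) : OmC E X (q + 1 + 1)) : L2F E X (q + 1 + 1)) =
            - (u1 h hab k₁ (dC w) : L2F E X (q + 1 + 1)) := UniformSpace.Completion.coe_neg _
        rw [h2] at h1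
        exact h1
      L0 := fun q w => (Lam0 h hc (bump_cfun_b hab) w : L2F E X q →L[ℝ] ℝ).toLinearMap
      L1 := fun q w => (Lam1 h hc (bump_cfun_a hab) w : L2F E X (q + 1) →L[ℝ] ℝ).toLinearMap
      L0_bdd := fun q => Lam0_bound h hc (bump_cfun_b hab) q
      L1_bdd := fun q => Lam1_bound h hc (bump_cfun_a hab) q
      Cod := fun q w c => IsCodiff w.1 c.1
      stokes0 := by
        intro q w c hwc y y' hy
        refine DD_functional (φ := Lam0 h hc (bump_cfun_b hab) c)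
          (ψ := Lam0 h hc (bump_cfun_b hab) w) (fun u => ?_) hy
        rw [Lam0_coe, Lam0_coe]
        exact h.lam0_extD hwc u.2
      stokes1 := by
        intro q w c hwc x x' hx
        have h1 := DD_functional
          (φ := - (Lam0 h hc (bump_cfun_b hab) w).comp (NC h (q + 1)) -
            Lam1 h hc (bump_cfun_a hab) c)
          (ψ := Lam1 h hc (bump_cfun_a hab) w) (fun u => ?_) hx
        · exact h1
        · show Lam1 h hc (bump_cfun_a hab) w (dC u : L2F E X (q + 1 + 1)) =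
            - Lam0 h hc (bump_cfun_b hab) w (NC h (q + 1) (u : L2F E X (q + 1))) -
              Lam1 h hc (bump_cfun_a hab) c (u : L2F E X (q + 1))
          rw [Lam1_coe, Lam0_NC h hc hab hb hk₁, Lam1_coe]
          exact h.lam1_extD (bump_cfun_a hab) w.2 c.2 hwc u.2
      stokes10 := by
        intro w x x' hx
        have h1 := DD_functional
          (φ := - (Lam0 h hc (bump_cfun_b hab) w).comp (NC h 0))
          (ψ := Lam1 h hc (bump_cfun_a hab) w) (fun u => ?_) hx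
        · exact h1
        · show Lam1 h hc (bump_cfun_a hab) w (dC u : L2F E X (0 + 1)) =
            - Lam0 h hc (bump_cfun_b hab) w (NC h 0 (u : L2F E X 0))
          rw [Lam1_coe, Lam0_NC h hc hab hb hk₁]
          exact h.lam1_extD_zero (bump_cfun_a hab) w.2 u.2
      total := fun q w => Lam_total h hc hab hb hk₁ w }
  cases p with
  | zero =>
    obtain ⟨C, hC, hbd⟩ := A.bound_zero (exAt_of_not_zeroInSpec (hcon 0 le_rfl (by omega)))
      (exAt_of_not_zeroInSpec (hcon 1 (by omega) (by omega)))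
      (exAt_of_not_zeroInSpec (hcon 2 (by omega) (by omega)))
    obtain ⟨w, η, hL, hlt⟩ := hp (C ^ 2)
    obtain ⟨hw, hη, hd⟩ := hL
    let w' : OmC E' H 0 := ⟨w, hw⟩
    let η' : OmC E' H 0 := ⟨η, hη⟩
    have h1 : ‖w'‖ ^ 2 ≤ C * ‖dC w'‖ ^ 2 := hbd w'
    have h2 : ‖dC w'‖ ^ 2 = inner ℝ w' η' := by
      rw [norm_sq_eq]
      exact hd w hw
    have h3 : inner ℝ w' η' ≤ ‖w'‖ * ‖η'‖ := real_inner_le_norm _ _
    have h4 : C ^ 2 * ‖η'‖ ^ 2 < ‖w'‖ ^ 2 := by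
      rw [norm_sq_eq, norm_sq_eq]
      exact hlt
    have h5 : ‖w'‖ ^ 2 ≤ C * (‖w'‖ * ‖η'‖) := h1.trans (by rw [h2]; gcongr)
    have h6 : 0 < ‖w'‖ := by
      rcases (norm_nonneg w').lt_or_eq with h7 | h7
      · exact h7
      · rw [← h7] at h4
        nlinarith [sq_nonneg ‖η'‖, sq_nonneg (C * ‖η'‖)]
    have h7 : ‖w'‖ ≤ C * ‖η'‖ := by
      by_contra hcon'
      push Not at hcon'
      nlinarith
    nlinarith [norm_nonneg η', mul_nonneg hC (norm_nonneg η')]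
  | succ p =>
    obtain ⟨C, hC, hbd⟩ := A.bound p (exAt_of_not_zeroInSpec (hcon (p + 1) le_rfl (by omega)))
      (exAt_of_not_zeroInSpec (hcon (p + 2) (by omega) (by omega)))
      (exAt_of_not_zeroInSpec (hcon (p + 3) (by omega) (by omega)))
    obtain ⟨w, η, hL, hlt⟩ := hp (C ^ 2)
    obtain ⟨hw, hη, c, d, hc', hd', hwc, hwd, he⟩ := hL
    let w' : OmC E' H (p + 1) := ⟨w, hw⟩
    let η' : OmC E' H (p + 1) := ⟨η, hη⟩
    let c' : OmC E' H p := ⟨c, hc'⟩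
    let d' : OmC E' H (p + 1) := ⟨d, hd'⟩
    have h1 : ‖w'‖ ^ 2 ≤ C * (‖dC w'‖ ^ 2 + ‖c'‖ ^ 2) := hbd w' c' (fun a ha => hwc a ha)
    have eη : η' = dC c' + d' := Subtype.ext (funext he)
    have h2 : ‖dC w'‖ ^ 2 = inner ℝ w' d' := by
      rw [norm_sq_eq]
      exact hwd w hw
    have h2' : ‖c'‖ ^ 2 = inner ℝ (dC c') w' := by
      rw [norm_sq_eq]
      exact (hwc c hc').symm
    have h3 : ‖dC w'‖ ^ 2 + ‖c'‖ ^ 2 = inner ℝ η' w' := by
      rw [eη, inner_add_left, h2, h2', real_inner_comm d' w']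
      ring
    have h3' : inner ℝ η' w' ≤ ‖η'‖ * ‖w'‖ := real_inner_le_norm _ _
    have h4 : C ^ 2 * ‖η'‖ ^ 2 < ‖w'‖ ^ 2 := by
      rw [norm_sq_eq, norm_sq_eq]
      exact hlt
    have h5 : ‖w'‖ ^ 2 ≤ C * (‖η'‖ * ‖w'‖) := h1.trans (by rw [h3]; gcongr)
    have h6 : 0 < ‖w'‖ := by
      rcases (norm_nonneg w').lt_or_eq with h7 | h7
      · exact h7
      · rw [← h7] at h4
        nlinarith [sq_nonneg ‖η'‖, sq_nonneg (C * ‖η'‖)]
    have h7 : ‖w'‖ ≤ C * ‖η'‖ := by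
      by_contra hcon'
      push Not at hcon'
      nlinarith
    nlinarith [norm_nonneg η', mul_nonneg hC (norm_nonneg η')]

/-- **the transfer theorem.** -/
theorem Mirror.exists_zeroSpec (h : Mirror E E' s τ r Γ ρ)
    (hd : Module.finrank ℝ E = Module.finrank ℝ E' + 1) {p : ℕ} (hp : ZeroApprox E' H p) :
    ∃ q, p ≤ q ∧ q ≤ p + 2 ∧ ZeroSpec E X q := by
  obtain ⟨q, h1, h2, h3⟩ := h.exists_zeroInSpec (h.compare hd) hp
  exact ⟨q, h1, h2, zeroSpec_of_zeroInSpec h3⟩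

end Pool.Agent.ZSp
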