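import Pool.Agent.Work.MP_058ed1_gt.T.Chart
import Pool.Agent.Work.MP_058ed1_gt.T.Cartan
import Pool.Agent.Work.MP_058ed1_gt.G.FormsA

/-!
# Transfer theorem, module TPROP: `Γ_t^*` and `Γ_t^* ι_{∂_t}` on smooth forms
-/

open scoped Manifold ContDiff Topology Bundle ENNReal NNReal
open Set MeasureTheory Bundle Filter

set_option linter.unusedSectionVars false

noncomputable section

namespace Pool.Agent.ZSp

variable {E : Type*} [NormedAddCommGroup E] [InnerProductSpace ℝ E] [FiniteDimensional ℝ E]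
  {X : Type*} [EMetricSpace X] [ChartedSpace E X]
  [IsManifold 𝓘(ℝ, E) ∞ X] [RiemannianBundle (fun x : X => TangentSpace 𝓘(ℝ, E) x)]
  [IsContMDiffRiemannianBundle 𝓘(ℝ, E) ∞ E (fun x : X => TangentSpace 𝓘(ℝ, E) x)]
  [IsRiemannianManifold 𝓘(ℝ, E) X] [MeasurableSpace X] [BorelSpace X]
  {E' : Type*} [NormedAddCommGroup E'] [InnerProductSpace ℝ E'] [FiniteDimensional ℝ E']
  {H : Type*} [EMetricSpace H] [ChartedSpace E' H]
  [IsManifold 𝓘(ℝ, E') ∞ H] [RiemannianBundle (fun x : H => TangentSpace 𝓘(ℝ, E') x)]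
  [IsContMDiffRiemannianBundle 𝓘(ℝ, E') ∞ E' (fun x : H => TangentSpace 𝓘(ℝ, E') x)]
  [IsRiemannianManifold 𝓘(ℝ, E') H] [MeasurableSpace H] [BorelSpace H]
  {s : X → X} {τ : X → ℝ} {r : ℝ} {Γ : H → ℝ → X} {ρ : X → H} {q : ℕ}

/-- a form is determined at `z` by its expression in the chart around `z`. -/
theorem inChart_self_comp (w : PForm E' H q) (z : H) :
    (inChart w z (ch E' z z)).compContinuousLinearMap
      (mfderiv 𝓘(ℝ, E') 𝓘(ℝ, E') (ch E' z) z) = w z := by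
  ext v
  have h0 : (ch E' z).symm (ch E' z z) = z := extChartAt_to_inv z
  change w ((ch E' z).symm (ch E' z z)) _ = w z v
  refine (form_congr w h0 _).trans ?_
  congr 1
  funext i
  exact mfderiv_ch_symm_comp (mem_extChartAt_source (I := 𝓘(ℝ, E')) z) (v i)

/-- `Γ_t` in the chart around `z₀`. -/
def Gt (Γ : H → ℝ → X) (z₀ : H) (t : ℝ) : E' → X := fun y => Γ ((ch E' z₀).symm y) t

theorem Mirror.smooth_Gt (h : Mirror E E' s τ r Γ ρ) (z₀ : H) {t : ℝ} (ht : |t| < r) :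
    ContMDiffOn 𝓘(ℝ, E') 𝓘(ℝ, E) ∞ (Gt Γ z₀ t : E' → X) (ch E' z₀).target :=
  (h.smooth_left ht).comp_contMDiffOn (contMDiffOn_extChartAt_symm z₀)

theorem Mirror.inChart_T0' (h : Mirror E E' s τ r Γ ρ) {z₀ : H} {y : E'}
    (hy : y ∈ (ch E' z₀).target) {t : ℝ} (ht : |t| < r) (w : PForm E X q) :
    inChart (T0 Γ t w : PForm E' H q) z₀ y = pullV (Gt Γ z₀ t) w y := by
  have h2 : HasMFDerivAt 𝓘(ℝ, E') 𝓘(ℝ, E) (Gt Γ z₀ t : E' → X) y
      ((mfderiv 𝓘(ℝ, E') 𝓘(ℝ, E) (fun z' => Γ z' t) ((ch E' z₀).symm y)).comp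
        (mfderiv 𝓘(ℝ, E') 𝓘(ℝ, E') (ch E' z₀).symm y)) :=
    HasMFDerivAt.comp y (h.mdiff_left ht _).hasMFDerivAt (mdiff_ch_symm hy).hasMFDerivAt
  have h3 : mfderiv 𝓘(ℝ, E') 𝓘(ℝ, E) (Gt Γ z₀ t : E' → X) y =
      (mfderiv 𝓘(ℝ, E') 𝓘(ℝ, E) (fun z' => Γ z' t) ((ch E' z₀).symm y)).comp
        (mfderiv 𝓘(ℝ, E') 𝓘(ℝ, E') (ch E' z₀).symm y) := h2.mfderiv
  ext v
  change w (Γ ((ch E' z₀).symm y) t) (fun i => mfderiv 𝓘(ℝ, E') 𝓘(ℝ, E) (fun z' => Γ z' t)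
      ((ch E' z₀).symm y) (mfderiv 𝓘(ℝ, E') 𝓘(ℝ, E') (ch E' z₀).symm y (v i))) =
    w (Γ ((ch E' z₀).symm y) t) (fun i => mfderiv 𝓘(ℝ, E') 𝓘(ℝ, E)
      (Gt Γ z₀ t : E' → X) y (v i))
  congr 1
  funext i
  exact (congrArg (fun A : E' →L[ℝ] E => A (v i)) h3).symm

theorem Mirror.smooth_T0 (h : Mirror E E' s τ r Γ ρ) {t : ℝ} (ht : |t| < r) {w : PForm E X q}
    (hw : SmoothForm w) : SmoothForm (T0 Γ t w : PForm E' H q) := by
  intro z₀
  exact (pullV_contDiffOn (ch_target_open z₀) (h.smooth_Gt z₀ ht) hw).congr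
    fun y hy => h.inChart_T0' hy ht w

/-- contraction and restriction of a smooth family of forms. -/
theorem contDiffAt_iotaD {V V' U : Type*} [NormedAddCommGroup V] [NormedSpace ℝ V]
    [NormedAddCommGroup V'] [NormedSpace ℝ V'] [FiniteDimensional ℝ V']
    [NormedAddCommGroup U] [NormedSpace ℝ U]
    {F : U → V [⋀^Fin (q + 1)]→L[ℝ] ℝ} {p : U} {m : WithTop ℕ∞} (hF : ContDiffAt ℝ m F p)
    (u : V) (D : V' →L[ℝ] V) : ContDiffAt ℝ m (fun z => iotaD (F z) u D) p := by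
  apply contDiffAt_altV
  intro v
  exact contDiffAt_altV_apply hF _

/-- the form `Γ_t^* ι w` in the chart, as a function of `(y, t)`. -/
def Fi (Γ : H → ℝ → X) (z₀ : H) (w : PForm E X (q + 1)) (p : E' × ℝ) : E' [⋀^Fin q]→L[ℝ] ℝ :=
  iotaD (V := E' × ℝ) (V' := E') (pullV (Gz Γ z₀) w p) ((0 : E'), (1 : ℝ))
        (ContinuousLinearMap.inl ℝ E' ℝ)

theorem Mirror.contDiffAt_Fi (h : Mirror E E' s τ r Γ ρ) {z₀ : H} {y : E'}
    (hy : y ∈ (ch E' z₀).target) {t : ℝ} (ht : |t| < r) {w : PForm E X (q + 1)}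
    (hw : SmoothForm w) :
    ContDiffAt ℝ ∞ (Fi Γ z₀ w : E' × ℝ → E' [⋀^Fin q]→L[ℝ] ℝ) (y, t) :=
  contDiffAt_iotaD (h.contDiffAt_pullV hw hy ht) _ _

theorem Mirror.inChart_T1' (h : Mirror E E' s τ r Γ ρ) {z₀ : H} {y : E'}
    (hy : y ∈ (ch E' z₀).target) {t : ℝ} (ht : |t| < r) (w : PForm E X (q + 1)) :
    inChart (T1 Γ t w : PForm E' H q) z₀ y = Fi Γ z₀ w (y, t) := h.inChart_T1 hy ht w

theorem Mirror.smooth_T1 (h : Mirror E E' s τ r Γ ρ) {t : ℝ} (ht : |t| < r)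
    {w : PForm E X (q + 1)} (hw : SmoothForm w) : SmoothForm (T1 Γ t w : PForm E' H q) := by
  intro z₀ y hy
  refine ContDiffAt.contDiffWithinAt ?_
  have h1 : ContDiffAt ℝ ∞ (fun y' : E' => (y', t)) y := contDiffAt_id.prodMk contDiffAt_const
  have h2 : ContDiffAt ℝ ∞ (fun y' : E' => (Fi Γ z₀ w (y', t) : E' [⋀^Fin q]→L[ℝ] ℝ)) y :=
    ContDiffAt.comp (f := fun y' : E' => (y', t)) (g := Fi Γ z₀ w) y (h.contDiffAt_Fi hy ht hw) h1
  refine h2.congr_of_eventuallyEq ?_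
  filter_upwards [ch_target_nhds hy] with y' hy'
  exact h.inChart_T1' hy' ht w

theorem Mirror.extD_T0 (h : Mirror E E' s τ r Γ ρ) {t : ℝ} (ht : |t| < r) {w : PForm E X q}
    (hw : SmoothForm w) : extD (T0 Γ t w : PForm E' H q) = T0 Γ t (extD w) := by
  funext z
  have hz := ch_self_mem_target (E := E') z
  have h1 : inChart (T0 Γ t w : PForm E' H q) z =ᶠ[𝓝 (ch E' z z)] pullV (Gt Γ z t) w := by
    filter_upwards [ch_target_nhds hz] with y hy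
    exact h.inChart_T0' hy ht w
  have h2 : extDeriv (inChart (T0 Γ t w : PForm E' H q) z) (ch E' z z) =
      inChart (T0 Γ t (extD w) : PForm E' H (q + 1)) z (ch E' z z) := by
    rw [h1.extDeriv_eq, extDeriv_pullV (ch_target_open z) (h.smooth_Gt z ht) hw hz,
      h.inChart_T0' hz ht (extD w)]
  rw [← inChart_self_comp (T0 Γ t (extD w) : PForm E' H (q + 1)) z, ← h2]
  rfl

/-- the supports stay in a compact set for `|t| ≤ r' < r`. -/
theorem Mirror.supp_T0 (h : Mirror E E' s τ r Γ ρ) {w : PForm E X q} (hw : w ∈ OmegaC E X q)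
    {r' : ℝ} (hr' : r' < r) : ∃ K : Set H, IsCompact K ∧
      ∀ t : ℝ, |t| ≤ r' → ∀ z : H, z ∉ K → w (Γ z t) = 0 := by
  have hcl : IsClosed {x : X | |τ x| ≤ r'} :=
    isClosed_le (continuous_abs.comp h.smooth_τ.continuous) continuous_const
  refine ⟨ρ '' (closure {x | w x ≠ 0} ∩ {x : X | |τ x| ≤ r'}), ?_, ?_⟩
  · refine (hw.2.inter_right hcl).image_of_continuousOn (h.smooth_ρ.continuousOn.mono ?_)
    rintro x ⟨-, hx⟩
    exact lt_of_le_of_lt hx hr'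
  · intro t ht z hz
    by_contra hne
    have htr : |t| < r := lt_of_le_of_lt ht hr'
    refine hz ⟨Γ z t, ⟨subset_closure hne, ?_⟩, h.ρ_Γ z t htr⟩
    show |τ (Γ z t)| ≤ r'
    rw [h.τ_Γ z t htr]
    exact ht

theorem T0_eq_zero {t : ℝ} {w : PForm E X q} {z : H} (hz : w (Γ z t) = 0) :
    (T0 Γ t w : PForm E' H q) z = 0 := by
  ext v
  show w (Γ z t) _ = 0
  rw [hz]
  rfl

theorem T1_eq_zero {t : ℝ} {w : PForm E X (q + 1)} {z : H} (hz : w (Γ z t) = 0) :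
    (T1 Γ t w : PForm E' H q) z = 0 := by
  ext v
  show w (Γ z t) _ = 0
  rw [hz]
  rfl

theorem Mirror.T0_mem (h : Mirror E E' s τ r Γ ρ) {t : ℝ} (ht : |t| < r) {w : PForm E X q}
    (hw : w ∈ OmegaC E X q) : (T0 Γ t w : PForm E' H q) ∈ OmegaC E' H q := by
  obtain ⟨K, hK, hK0⟩ := h.supp_T0 hw ht
  refine ⟨h.smooth_T0 ht hw.1, hK.of_isClosed_subset isClosed_closure
    (closure_minimal ?_ hK.isClosed)⟩
  intro z hz
  by_contra hcon
  exact hz (T0_eq_zero (hK0 t le_rfl z hcon))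

theorem Mirror.T1_mem (h : Mirror E E' s τ r Γ ρ) {t : ℝ} (ht : |t| < r)
    {w : PForm E X (q + 1)} (hw : w ∈ OmegaC E X (q + 1)) :
    (T1 Γ t w : PForm E' H q) ∈ OmegaC E' H q := by
  obtain ⟨K, hK, hK0⟩ := h.supp_T0 hw ht
  refine ⟨h.smooth_T1 ht hw.1, hK.of_isClosed_subset isClosed_closure
    (closure_minimal ?_ hK.isClosed)⟩
  intro z hz
  by_contra hcon
  exact hz (T1_eq_zero (hK0 t le_rfl z hcon))

theorem jcont_const {r : ℝ} {w : PForm E' H q} (hw : SmoothForm w) :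
    JCont r (fun _ : ℝ => w) := by
  intro z₀
  exact (hw z₀).continuousOn.comp continuousOn_fst fun p hp => hp.1

theorem Mirror.jcont_T0 (h : Mirror E E' s τ r Γ ρ) {w : PForm E X q} (hw : SmoothForm w) :
    JCont r (fun t : ℝ => (T0 Γ t w : PForm E' H q)) := by
  intro z₀
  have h1 : ContinuousOn (fun p : E' × ℝ => (pullV (Gz Γ z₀) w p).compContinuousLinearMap
      (ContinuousLinearMap.inl ℝ E' ℝ)) ((ch E' z₀).target ×ˢ {t : ℝ | |t| < r}) := by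
    rintro ⟨y, t⟩ ⟨hy, ht⟩
    refine ContinuousAt.continuousWithinAt ?_
    have h2 : ContDiffAt ℝ ∞ (fun p : E' × ℝ => (pullV (Gz Γ z₀) w p).compContinuousLinearMap
      (ContinuousLinearMap.inl ℝ E' ℝ)) (y, t) :=
      contDiffAt_altCompV (A := fun _ : E' × ℝ => ContinuousLinearMap.inl ℝ E' ℝ)
        (h.contDiffAt_pullV hw hy ht) contDiffAt_const
    exact h2.continuousAt
  refine h1.congr ?_
  rintro ⟨y, t⟩ ⟨hy, ht⟩
  exact h.inChart_T0 hy ht w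

theorem Mirror.jcont_T1 (h : Mirror E E' s τ r Γ ρ) {w : PForm E X (q + 1)}
    (hw : SmoothForm w) : JCont r (fun t : ℝ => (T1 Γ t w : PForm E' H q)) := by
  intro z₀
  have h1 : ContinuousOn (Fi Γ z₀ w : E' × ℝ → E' [⋀^Fin q]→L[ℝ] ℝ)
      ((ch E' z₀).target ×ˢ {t : ℝ | |t| < r}) := by
    rintro ⟨y, t⟩ ⟨hy, ht⟩
    exact (h.contDiffAt_Fi hy ht hw).continuousAt.continuousWithinAt
  refine h1.congr ?_
  rintro ⟨y, t⟩ ⟨hy, ht⟩
  exact h.inChart_T1 hy ht w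

theorem Mirror.jcont_extD_T1 (h : Mirror E E' s τ r Γ ρ) {w : PForm E X (q + 1)}
    (hw : SmoothForm w) : JCont r (fun t : ℝ => extD (T1 Γ t w : PForm E' H q)) := by
  intro z₀
  have h1 : ContinuousOn (fun p : E' × ℝ => ContinuousAlternatingMap.alternatizeUncurryFinCLM ℝ E' ℝ
      ((fderiv ℝ (Fi Γ z₀ w : E' × ℝ → E' [⋀^Fin q]→L[ℝ] ℝ) p).comp
        (ContinuousLinearMap.inl ℝ E' ℝ)))
      ((ch E' z₀).target ×ˢ {t : ℝ | |t| < r}) := by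
    rintro ⟨y, t⟩ ⟨hy, ht⟩
    refine ContinuousAt.continuousWithinAt ?_
    have h2 : ContDiffAt ℝ ∞ (fderiv ℝ (Fi Γ z₀ w : E' × ℝ → E' [⋀^Fin q]→L[ℝ] ℝ)) (y, t) :=
      (h.contDiffAt_Fi hy ht hw).fderiv_right (by simp)
    refine (ContinuousAlternatingMap.alternatizeUncurryFinCLM ℝ E' ℝ).continuous.continuousAt.comp
      ?_
    exact h2.continuousAt.clm_comp continuousAt_const
  refine h1.congr ?_
  rintro ⟨y, t⟩ ⟨hy, ht⟩
  show inChart (extD (T1 Γ t w : PForm E' H q)) z₀ y = _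
  rw [inChart_extD (h.smooth_T1 ht hw) z₀ hy]
  have h3 : inChart (T1 Γ t w : PForm E' H q) z₀ =ᶠ[𝓝 y] fun y' => Fi Γ z₀ w (y', t) := by
    filter_upwards [ch_target_nhds hy] with y' hy'
    exact h.inChart_T1' hy' ht w
  rw [h3.extDeriv_eq]
  have h4 : HasFDerivAt (fun y' : E' => (Fi Γ z₀ w (y', t) : E' [⋀^Fin q]→L[ℝ] ℝ))
      ((fderiv ℝ (Fi Γ z₀ w : E' × ℝ → E' [⋀^Fin q]→L[ℝ] ℝ) (y, t)).comp
        (ContinuousLinearMap.inl ℝ E' ℝ)) y := by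
    have h5 : HasFDerivAt (Fi Γ z₀ w : E' × ℝ → E' [⋀^Fin q]→L[ℝ] ℝ)
        (fderiv ℝ (Fi Γ z₀ w : E' × ℝ → E' [⋀^Fin q]→L[ℝ] ℝ) (y, t)) (y, t) :=
      ((h.contDiffAt_Fi hy ht hw).differentiableAt (by simp)).hasFDerivAt
    have h6 : HasFDerivAt (fun y' : E' => (y', t)) (ContinuousLinearMap.inl ℝ E' ℝ) y :=
      (hasFDerivAt_id y).prodMk (hasFDerivAt_const t y)
    exact HasFDerivAt.comp y h5 h6
  unfold extDeriv
  rw [h4.fderiv]
  rfl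

end Pool.Agent.ZSp
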