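import Pool.Agent.Work.MP_058ed1_gt.T.Tprop
import Pool.Agent.Work.MP_058ed1_gt.C.Leib

/-!
# Transfer theorem, module UP: the forms `f(τ) ρ^* α` and `f'(τ) dτ ∧ ρ^* α`
-/

open scoped Manifold ContDiff Topology Bundle ENNReal NNReal
open Set MeasureTheory Bundle Filter

set_option linter.unusedSectionVars false

noncomputable section

namespace Pool.Agent.ZSp

variable {E : Type*} [NormedAddCommGroup E] [InnerProductSpace ℝ E] [FiniteDimensional ℝ E]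
  {X : Type*} [EMetricSpace X] [ChartedSpace E X]
  [IsManifold 𝓘(ℝ, E) ∞ X] [RiemannianBundle (fun x : X => TangentSpace 𝓘(ℝ, E) x)]
  [IsContMDiffRiemannianBundle 𝓘(ℝ, E) ∞ E (fun x : X => TangentSpace 𝓘(ℝ, E) x)]
  [IsRiemannianManifold 𝓘(ℝ, E) X] [MeasurableSpace X] [BorelSpace X]
  {E' : Type*} [NormedAddCommGroup E'] [InnerProductSpace ℝ E'] [FiniteDimensional ℝ E']
  {H : Type*} [EMetricSpace H] [ChartedSpace E' H]
  [IsManifold 𝓘(ℝ, E') ∞ H] [RiemannianBundle (fun x : H => TangentSpace 𝓘(ℝ, E') x)]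
  [IsContMDiffRiemannianBundle 𝓘(ℝ, E') ∞ E' (fun x : H => TangentSpace 𝓘(ℝ, E') x)]
  [IsRiemannianManifold 𝓘(ℝ, E') H] [MeasurableSpace H] [BorelSpace H]
  {s : X → X} {τ : X → ℝ} {r : ℝ} {Γ : H → ℝ → X} {ρ : X → H} {q : ℕ}

theorem exists_cutoff {f : ℝ → ℝ} (hf : CFun r f) : ∃ χ : ℝ → ℝ, CFun r χ ∧
    ∃ r₁ : ℝ, (∀ t, r₁ ≤ |t| → f t = 0) ∧ ∃ r₂ : ℝ, r₁ < r₂ ∧ ∀ t, |t| ≤ r₂ → χ t = 1 := by
  obtain ⟨hfs, r', hr'0, hr'r, hf0⟩ := hf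
  let b : ContDiffBump (0 : ℝ) :=
    ⟨(2 * r' + r) / 3, (r' + 2 * r) / 3, by linarith, by linarith⟩
  refine ⟨b, ⟨b.contDiff, (r' + 2 * r) / 3, by linarith, by linarith, fun t ht => ?_⟩, r', hf0,
    (2 * r' + r) / 3, by linarith, fun t ht => ?_⟩
  · exact b.zero_of_le_dist (by rw [Real.dist_eq, sub_zero]; exact ht)
  · exact b.one_of_mem_closedBall (by rw [mem_closedBall_zero_iff, Real.norm_eq_abs]; exact ht)

/-! ### basic facts about the collar -/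

theorem Mirror.up_isOpen (h : Mirror E E' s τ r Γ ρ) : IsOpen {x : X | |τ x| < r} :=
  isOpen_lt (continuous_abs.comp h.smooth_τ.continuous) continuous_const

theorem Mirror.up_mdiff_ρ (h : Mirror E E' s τ r Γ ρ) {x : X} (hx : |τ x| < r) :
    MDifferentiableAt 𝓘(ℝ, E) 𝓘(ℝ, E') ρ x :=
  (h.smooth_ρ.contMDiffAt (h.up_isOpen.mem_nhds hx)).mdifferentiableAt (by simp)

theorem Mirror.up_ρ_s (h : Mirror E E' s τ r Γ ρ) {x : X} (hx : |τ x| < r) : ρ (s x) = ρ x := by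
  have h1 : s x = Γ (ρ x) (-τ x) := by
    conv_lhs => rw [← h.Γ_ρ x hx]
    exact h.flip _ _ hx
  rw [h1, h.ρ_Γ _ _ (by rwa [abs_neg])]

theorem Mirror.up_abs_s (h : Mirror E E' s τ r Γ ρ) (x : X) : |τ (s x)| = |τ x| := by
  rw [h.odd, abs_neg]

theorem uF_of_lt {f : ℝ → ℝ} {α : PForm E' H q} {x : X} (hx : |τ x| < r) :
    (uF τ r ρ f α : PForm E X q) x = f (τ x) • (α (ρ x)).compContinuousLinearMap
      (mfderiv 𝓘(ℝ, E) 𝓘(ℝ, E') ρ x) := if_pos hx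

theorem uF_of_not_lt {f : ℝ → ℝ} {α : PForm E' H q} {x : X} (hx : ¬ |τ x| < r) :
    (uF τ r ρ f α : PForm E X q) x = 0 := if_neg hx

theorem uF_eq_zero {f : ℝ → ℝ} {α : PForm E' H q} {x : X} (hx : f (τ x) = 0) :
    (uF τ r ρ f α : PForm E X q) x = 0 := by
  by_cases h : |τ x| < r
  · rw [uF_of_lt h, hx, zero_smul]
  · exact uF_of_not_lt h

theorem uF_add (f : ℝ → ℝ) (α β : PForm E' H q) :
    (uF τ r ρ f (α + β) : PForm E X q) = uF τ r ρ f α + uF τ r ρ f β := by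
  funext x
  by_cases h : |τ x| < r
  · show (uF τ r ρ f (α + β) : PForm E X q) x = uF τ r ρ f α x + uF τ r ρ f β x
    rw [uF_of_lt h, uF_of_lt h, uF_of_lt h, ← smul_add]
    rfl
  · show (uF τ r ρ f (α + β) : PForm E X q) x = uF τ r ρ f α x + uF τ r ρ f β x
    rw [uF_of_not_lt h, uF_of_not_lt h, uF_of_not_lt h, add_zero]

theorem uF_smul (f : ℝ → ℝ) (c : ℝ) (α : PForm E' H q) :
    (uF τ r ρ f (c • α) : PForm E X q) = c • uF τ r ρ f α := by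
  funext x
  by_cases h : |τ x| < r
  · show (uF τ r ρ f (c • α) : PForm E X q) x = c • uF τ r ρ f α x
    rw [uF_of_lt h, uF_of_lt h, smul_comm]
    rfl
  · show (uF τ r ρ f (c • α) : PForm E X q) x = c • uF τ r ρ f α x
    rw [uF_of_not_lt h, uF_of_not_lt h, smul_zero]

/-! ### `uF` in a chart -/

/-- the map `ρ ∘ ψ`. -/
def Rz (ρ : X → H) (x₀ : X) : E → H := fun y => ρ ((ch E x₀).symm y)

theorem Mirror.up_isOpen_dom (h : Mirror E E' s τ r Γ ρ) (x₀ : X) :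
    IsOpen {y : E | y ∈ (ch E x₀).target ∧ |τ ((ch E x₀).symm y)| < r} := by
  have h1 : ContinuousOn (fun y : E => |τ ((ch E x₀).symm y)|) (ch E x₀).target :=
    (continuous_abs.comp h.smooth_τ.continuous).comp_continuousOn
      (continuousOn_extChartAt_symm x₀)
  exact h1.isOpen_inter_preimage (ch_target_open x₀) isOpen_Iio

theorem Mirror.up_smooth_Rz (h : Mirror E E' s τ r Γ ρ) (x₀ : X) :
    ContMDiffOn 𝓘(ℝ, E) 𝓘(ℝ, E') ∞ (Rz (E := E) ρ x₀)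
      {y : E | y ∈ (ch E x₀).target ∧ |τ ((ch E x₀).symm y)| < r} := by
  have h1 : ContMDiffOn 𝓘(ℝ, E) 𝓘(ℝ, E) ∞ (ch E x₀).symm
      {y : E | y ∈ (ch E x₀).target ∧ |τ ((ch E x₀).symm y)| < r} :=
    (contMDiffOn_extChartAt_symm x₀).mono fun y hy => hy.1
  exact h.smooth_ρ.comp h1 fun y hy => hy.2

theorem Mirror.inChart_uF (h : Mirror E E' s τ r Γ ρ) (f : ℝ → ℝ) (α : PForm E' H q) {x₀ : X}
    {y : E} (hy : y ∈ (ch E x₀).target) (hr : |τ ((ch E x₀).symm y)| < r) :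
    inChart (uF τ r ρ f α : PForm E X q) x₀ y =
      f (τ ((ch E x₀).symm y)) • pullV (Rz (E := E) ρ x₀) α y := by
  ext v
  have h1 : HasMFDerivAt 𝓘(ℝ, E) 𝓘(ℝ, E') (Rz (E := E) ρ x₀) y
      ((mfderiv 𝓘(ℝ, E) 𝓘(ℝ, E') ρ ((ch E x₀).symm y)).comp
        (mfderiv 𝓘(ℝ, E) 𝓘(ℝ, E) (ch E x₀).symm y)) :=
    HasMFDerivAt.comp y (h.up_mdiff_ρ hr).hasMFDerivAt (mdiff_ch_symm hy).hasMFDerivAt
  have h2 : pullV (Rz (E := E) ρ x₀) α y v = α (ρ ((ch E x₀).symm y)) (fun i =>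
      mfderiv 𝓘(ℝ, E) 𝓘(ℝ, E') ρ ((ch E x₀).symm y)
        (mfderiv 𝓘(ℝ, E) 𝓘(ℝ, E) (ch E x₀).symm y (v i))) := by
    show α (ρ ((ch E x₀).symm y)) (fun i => mfderiv 𝓘(ℝ, E) 𝓘(ℝ, E') (Rz (E := E) ρ x₀) y (v i))
      = _
    rw [h1.mfderiv]
    rfl
  have h3 : inChart (uF τ r ρ f α : PForm E X q) x₀ y v =
      (uF τ r ρ f α : PForm E X q) ((ch E x₀).symm y) (fun i =>
        mfderiv 𝓘(ℝ, E) 𝓘(ℝ, E) (ch E x₀).symm y (v i)) := rfl
  rw [h3, uF_of_lt hr, ContinuousAlternatingMap.smul_apply, ContinuousAlternatingMap.smul_apply, h2]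
  rfl

theorem Mirror.uF_smooth (h : Mirror E E' s τ r Γ ρ) {f : ℝ → ℝ} (hf : CFun r f)
    {α : PForm E' H q} (hα : SmoothForm α) : SmoothForm (uF τ r ρ f α : PForm E X q) := by
  obtain ⟨hfs, r', hr'0, hr'r, hf0⟩ := hf
  intro x₀ y hy
  by_cases hr : |τ ((ch E x₀).symm y)| < r
  · have hU := h.up_isOpen_dom x₀
    have h1 : inChart (uF τ r ρ f α : PForm E X q) x₀ =ᶠ[𝓝 y] fun z =>
        f (τ ((ch E x₀).symm z)) • pullV (Rz (E := E) ρ x₀) α z := by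
      filter_upwards [hU.mem_nhds (show y ∈ {y : E | y ∈ (ch E x₀).target ∧
        |τ ((ch E x₀).symm y)| < r} from ⟨hy, hr⟩)] with z hz
      exact h.inChart_uF f α hz.1 hz.2
    have h2 : ContDiffAt ℝ ∞ (fun z => f (τ ((ch E x₀).symm z))) y :=
      (hfs.contDiffAt).comp y ((contDiffOn_fun h.smooth_τ x₀).contDiffAt (ch_target_nhds hy))
    have h3 : ContDiffAt ℝ ∞ (pullV (Rz (E := E) ρ x₀) α) y :=
      (pullV_contDiffOn hU (h.up_smooth_Rz x₀) hα).contDiffAt (hU.mem_nhds ⟨hy, hr⟩)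
    exact ((h2.smul h3).congr_of_eventuallyEq h1).contDiffWithinAt
  · have h1 : inChart (uF τ r ρ f α : PForm E X q) x₀ =ᶠ[𝓝 y] fun _ => 0 := by
      have h2 : ∀ᶠ z in 𝓝 y, r' < |τ ((ch E x₀).symm z)| := by
        have h3 : ContinuousAt (fun z : E => |τ ((ch E x₀).symm z)|) y :=
          (continuous_abs.comp h.smooth_τ.continuous).continuousAt.comp (continuousAt_ch_symm hy)
        exact h3.eventually (isOpen_Ioi.mem_nhds (hr'r.trans_le (not_lt.1 hr)))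
      filter_upwards [h2] with z hz
      rw [inChart, uF_eq_zero (hf0 _ hz.le)]
      rfl
    exact (contDiffAt_const.congr_of_eventuallyEq h1).contDiffWithinAt

theorem Mirror.uF_mem (h : Mirror E E' s τ r Γ ρ) {f : ℝ → ℝ} (hf : CFun r f)
    {α : PForm E' H q} (hα : α ∈ OmegaC E' H q) :
    (uF τ r ρ f α : PForm E X q) ∈ OmegaC E X q := by
  refine ⟨h.uF_smooth hf hα.1, ?_⟩
  obtain ⟨hfs, r', hr'0, hr'r, hf0⟩ := hf
  set K : Set X := (fun p : H × ℝ => Γ p.1 p.2) '' ((closure {z | α z ≠ 0}) ×ˢ Icc (-r') r')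
    with hKdef
  have hK : IsCompact K := by
    refine (hα.2.prod isCompact_Icc).image_of_continuousOn (h.smooth_Γ.continuousOn.mono ?_)
    rintro ⟨z, t⟩ ⟨_, ht⟩
    exact (abs_le.2 ht).trans_lt hr'r
  refine hK.of_isClosed_subset isClosed_closure (closure_minimal ?_ hK.isClosed)
  intro x hx
  have h1 : |τ x| < r := by
    by_contra hcon
    exact hx (uF_of_not_lt hcon)
  have h2 : |τ x| ≤ r' := by
    by_contra hcon
    exact hx (uF_eq_zero (hf0 _ (not_le.1 hcon).le))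
  have h3 : α (ρ x) ≠ 0 := by
    intro h0
    apply hx
    show (uF τ r ρ f α : PForm E X q) x = 0
    rw [uF_of_lt h1, h0]
    have : (0 : (TangentSpace 𝓘(ℝ, E') (ρ x)) [⋀^Fin q]→L[ℝ] ℝ).compContinuousLinearMap
      (mfderiv 𝓘(ℝ, E) 𝓘(ℝ, E') ρ x) = 0 := rfl
    rw [this, smul_zero]
  exact ⟨(ρ x, τ x), ⟨subset_closure h3, abs_le.1 h2⟩, h.Γ_ρ x h1⟩

/-! ### back to `H` -/

theorem Mirror.T0_uF (h : Mirror E E' s τ r Γ ρ) {t : ℝ} (ht : |t| < r) (f : ℝ → ℝ)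
    (α : PForm E' H q) :
    (T0 Γ t (uF τ r ρ f α : PForm E X q) : PForm E' H q) = f t • α := by
  funext z
  ext v
  have hτ : τ (Γ z t) = t := h.τ_Γ z t ht
  have hlt : |τ (Γ z t)| < r := by rw [hτ]; exact ht
  have h1 : HasMFDerivAt 𝓘(ℝ, E') 𝓘(ℝ, E') (fun z' : H => ρ (Γ z' t)) z
      ((mfderiv 𝓘(ℝ, E) 𝓘(ℝ, E') ρ (Γ z t)).comp
        (mfderiv 𝓘(ℝ, E') 𝓘(ℝ, E) (fun z' => Γ z' t) z)) :=
    HasMFDerivAt.comp z (h.up_mdiff_ρ hlt).hasMFDerivAt (h.mdiff_left ht z).hasMFDerivAt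
  have h2 : (fun z' : H => ρ (Γ z' t)) = fun z' => z' := funext fun z' => h.ρ_Γ z' t ht
  rw [h2] at h1
  have h3 : ∀ u : TangentSpace 𝓘(ℝ, E') z, (mfderiv 𝓘(ℝ, E) 𝓘(ℝ, E') ρ (Γ z t)
      (mfderiv 𝓘(ℝ, E') 𝓘(ℝ, E) (fun z' => Γ z' t) z u) : E') = u := by
    intro u
    have h4 := hasMFDerivAt_unique h1 (hasMFDerivAt_id z)
    exact DFunLike.congr_fun h4 u
  show (uF τ r ρ f α : PForm E X q) (Γ z t) (fun i =>
    mfderiv 𝓘(ℝ, E') 𝓘(ℝ, E) (fun z' => Γ z' t) z (v i)) = (f t • α z) v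
  rw [uF_of_lt hlt, ContinuousAlternatingMap.smul_apply, ContinuousAlternatingMap.smul_apply, hτ]
  congr 1
  refine (form_congr α (h.ρ_Γ z t ht) _).trans ?_
  congr 1
  funext i
  exact h3 (v i)

theorem Mirror.T1_uF (h : Mirror E E' s τ r Γ ρ) {t : ℝ} (ht : |t| < r) (f : ℝ → ℝ)
    (α : PForm E' H (q + 1)) :
    (T1 Γ t (uF τ r ρ f α : PForm E X (q + 1)) : PForm E' H q) = 0 := by
  funext z
  ext v
  have hτ : τ (Γ z t) = t := h.τ_Γ z t ht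
  have hlt : |τ (Γ z t)| < r := by rw [hτ]; exact ht
  have h1 : HasMFDerivAt 𝓘(ℝ, ℝ) 𝓘(ℝ, E') (fun t' : ℝ => ρ (Γ z t')) t
      ((mfderiv 𝓘(ℝ, E) 𝓘(ℝ, E') ρ (Γ z t)).comp
        (mfderiv 𝓘(ℝ, ℝ) 𝓘(ℝ, E) (fun t' => Γ z t') t)) :=
    HasMFDerivAt.comp t (h.up_mdiff_ρ hlt).hasMFDerivAt (h.mdiff_right ht z).hasMFDerivAt
  have h2 : (fun t' : ℝ => ρ (Γ z t')) =ᶠ[𝓝 t] fun _ => z := by
    filter_upwards [(isOpen_abs_lt r).mem_nhds ht] with t' ht'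
    exact h.ρ_Γ z t' ht'
  have h3 : HasMFDerivAt 𝓘(ℝ, ℝ) 𝓘(ℝ, E') (fun t' : ℝ => ρ (Γ z t')) t
      (0 : ℝ →L[ℝ] E') :=
    (hasMFDerivAt_const (I := 𝓘(ℝ, ℝ)) (I' := 𝓘(ℝ, E')) z t).congr_of_eventuallyEq h2
  have h4 : (mfderiv 𝓘(ℝ, E) 𝓘(ℝ, E') ρ (Γ z t)
      (mfderiv 𝓘(ℝ, ℝ) 𝓘(ℝ, E) (fun t' => Γ z t') t (1 : ℝ)) : E') = 0 := by
    have h5 := hasMFDerivAt_unique h1 h3
    exact congrArg (fun A : ℝ →L[ℝ] E' => A 1) h5
  show (uF τ r ρ f α : PForm E X (q + 1)) (Γ z t) (Matrix.vecCons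
    (mfderiv 𝓘(ℝ, ℝ) 𝓘(ℝ, E) (fun t' => Γ z t') t (1 : ℝ))
    (fun i => mfderiv 𝓘(ℝ, E') 𝓘(ℝ, E) (fun z' => Γ z' t) z (v i))) = 0
  rw [uF_of_lt hlt, ContinuousAlternatingMap.smul_apply]
  have h6 : ((α (ρ (Γ z t))).compContinuousLinearMap (mfderiv 𝓘(ℝ, E) 𝓘(ℝ, E') ρ (Γ z t)))
      (Matrix.vecCons (mfderiv 𝓘(ℝ, ℝ) 𝓘(ℝ, E) (fun t' => Γ z t') t (1 : ℝ))
        (fun i => mfderiv 𝓘(ℝ, E') 𝓘(ℝ, E) (fun z' => Γ z' t) z (v i))) = 0 := by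
    refine (α (ρ (Γ z t))).toAlternatingMap.map_coord_zero 0 ?_
    exact h4
  rw [h6, smul_zero]

theorem Mirror.pull_uF (h : Mirror E E' s τ r Γ ρ) {f : ℝ → ℝ} (hf : ∀ t, f (-t) = f t)
    (α : PForm E' H q) : pull s (uF τ r ρ f α : PForm E X q) = uF τ r ρ f α := by
  funext x
  by_cases hx : |τ x| < r
  · have hsx : |τ (s x)| < r := by rwa [h.up_abs_s]
    ext v
    have h1 : HasMFDerivAt 𝓘(ℝ, E) 𝓘(ℝ, E') (fun x' : X => ρ (s x')) x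
        ((mfderiv 𝓘(ℝ, E) 𝓘(ℝ, E') ρ (s x)).comp (mfderiv 𝓘(ℝ, E) 𝓘(ℝ, E) s x)) :=
      HasMFDerivAt.comp x (h.up_mdiff_ρ hsx).hasMFDerivAt
        ((h.smooth_s x).mdifferentiableAt (by simp)).hasMFDerivAt
    have h2 : (fun x' : X => ρ (s x')) =ᶠ[𝓝 x] ρ := by
      filter_upwards [h.up_isOpen.mem_nhds hx] with x' hx'
      exact h.up_ρ_s hx'
    have h3 : HasMFDerivAt 𝓘(ℝ, E) 𝓘(ℝ, E') (fun x' : X => ρ (s x')) x
        (mfderiv 𝓘(ℝ, E) 𝓘(ℝ, E') ρ x) :=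
      (h.up_mdiff_ρ hx).hasMFDerivAt.congr_of_eventuallyEq h2
    have h4 : ∀ u : TangentSpace 𝓘(ℝ, E) x, (mfderiv 𝓘(ℝ, E) 𝓘(ℝ, E') ρ (s x)
        (mfderiv 𝓘(ℝ, E) 𝓘(ℝ, E) s x u) : E') = mfderiv 𝓘(ℝ, E) 𝓘(ℝ, E') ρ x u := by
      intro u
      have h5 := hasMFDerivAt_unique h1 h3
      exact congrArg (fun A : E →L[ℝ] E' => A u) h5
    show (uF τ r ρ f α : PForm E X q) (s x) (fun i => mfderiv 𝓘(ℝ, E) 𝓘(ℝ, E) s x (v i)) =
      (uF τ r ρ f α : PForm E X q) x v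
    rw [uF_of_lt hsx, uF_of_lt hx, ContinuousAlternatingMap.smul_apply,
      ContinuousAlternatingMap.smul_apply, h.odd, hf]
    congr 1
    refine (form_congr α (h.up_ρ_s hx) _).trans ?_
    exact congrArg (α (ρ x)) (funext fun i => h4 (v i))
  · have hsx : ¬ |τ (s x)| < r := by rwa [h.up_abs_s]
    show ((uF τ r ρ f α : PForm E X q) (s x)).compContinuousLinearMap _ = _
    rw [uF_of_not_lt hsx, uF_of_not_lt hx]
    rfl

/-! ### the exterior derivative of `uF` -/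

/-- where `χ(τ) = 1` locally, `d` commutes with `ρ^*`. -/
theorem Mirror.up_extD_one (h : Mirror E E' s τ r Γ ρ) {χ : ℝ → ℝ} {α : PForm E' H q}
    (hα : SmoothForm α) {x : X} (hx : |τ x| < r) (hχ : ∀ᶠ x' in 𝓝 x, χ (τ x') = 1) :
    extD (uF τ r ρ χ α : PForm E X q) x =
      (extD α (ρ x)).compContinuousLinearMap (mfderiv 𝓘(ℝ, E) 𝓘(ℝ, E') ρ x) := by
  have h0 : (ch E x).symm (ch E x x) = x := extChartAt_to_inv x
  have hyt := ch_self_mem_target (E := E) x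
  have hU := h.up_isOpen_dom (E := E) x
  have hyU : ch E x x ∈ {y : E | y ∈ (ch E x).target ∧ |τ ((ch E x).symm y)| < r} := by
    refine ⟨hyt, ?_⟩
    rw [h0]
    exact hx
  have h1 : inChart (uF τ r ρ χ α : PForm E X q) x =ᶠ[𝓝 (ch E x x)]
      pullV (Rz (E := E) ρ x) α := by
    have h2 : ∀ᶠ y in 𝓝 (ch E x x), χ (τ ((ch E x).symm y)) = 1 := by
      have h3 : Tendsto (ch E x).symm (𝓝 (ch E x x)) (𝓝 x) := by
        have h4 := (continuousAt_ch_symm hyt).tendsto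
        rwa [h0] at h4
      exact h3.eventually hχ
    filter_upwards [h2, hU.mem_nhds hyU] with y hy hyU
    rw [h.inChart_uF χ α hyU.1 hyU.2, hy, one_smul]
  have h2 : extD (uF τ r ρ χ α : PForm E X q) x =
      (pullV (Rz (E := E) ρ x) (extD α) (ch E x x)).compContinuousLinearMap
        (mfderiv 𝓘(ℝ, E) 𝓘(ℝ, E) (ch E x) x) := by
    rw [extD, h1.extDeriv_eq, extDeriv_pullV hU (h.up_smooth_Rz x) hα hyU]
  rw [h2]
  ext v
  have h3 : HasMFDerivAt 𝓘(ℝ, E) 𝓘(ℝ, E') (fun x' : X => Rz (E := E) ρ x (ch E x x')) x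
      ((mfderiv 𝓘(ℝ, E) 𝓘(ℝ, E') (Rz (E := E) ρ x) (ch E x x)).comp
        (mfderiv 𝓘(ℝ, E) 𝓘(ℝ, E) (ch E x) x)) :=
    HasMFDerivAt.comp (g := Rz (E := E) ρ x) (f := ch E x) x
      ((((h.up_smooth_Rz x).contMDiffAt (hU.mem_nhds hyU)).mdifferentiableAt (by simp)).hasMFDerivAt)
      (mdiff_ch (mem_extChartAt_source (I := 𝓘(ℝ, E)) x)).hasMFDerivAt
  have h4 : (fun x' : X => Rz (E := E) ρ x (ch E x x')) =ᶠ[𝓝 x] ρ := by
    filter_upwards [extChartAt_source_mem_nhds (I := 𝓘(ℝ, E)) x] with x' hx'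
    show ρ ((ch E x).symm (ch E x x')) = ρ x'
    rw [(ch E x).left_inv hx']
  have h5 : HasMFDerivAt 𝓘(ℝ, E) 𝓘(ℝ, E') (fun x' : X => Rz (E := E) ρ x (ch E x x')) x
      (mfderiv 𝓘(ℝ, E) 𝓘(ℝ, E') ρ x) :=
    (h.up_mdiff_ρ hx).hasMFDerivAt.congr_of_eventuallyEq h4
  have h6 : ∀ u : TangentSpace 𝓘(ℝ, E) x,
      (mfderiv 𝓘(ℝ, E) 𝓘(ℝ, E') (Rz (E := E) ρ x) (ch E x x)
        (mfderiv 𝓘(ℝ, E) 𝓘(ℝ, E) (ch E x) x u) : E') = mfderiv 𝓘(ℝ, E) 𝓘(ℝ, E') ρ x u := by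
    intro u
    have h7 := hasMFDerivAt_unique h3 h5
    exact congrArg (fun A : E →L[ℝ] E' => A u) h7
  show extD α (ρ ((ch E x).symm (ch E x x))) (fun i =>
      mfderiv 𝓘(ℝ, E) 𝓘(ℝ, E') (Rz (E := E) ρ x) (ch E x x)
        (mfderiv 𝓘(ℝ, E) 𝓘(ℝ, E) (ch E x) x (v i))) = _
  refine (form_congr (extD α) (congrArg ρ h0) _).trans ?_
  exact congrArg (extD α (ρ x)) (funext fun i => h6 (v i))

theorem uF_eq_fmul {f χ : ℝ → ℝ} {r₁ r₂ : ℝ} (hr : r₁ < r₂) (h₁ : ∀ t, r₁ ≤ |t| → f t = 0)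
    (h₂ : ∀ t, |t| ≤ r₂ → χ t = 1) (α : PForm E' H q) :
    (uF τ r ρ f α : PForm E X q) = fmul (fun x => f (τ x)) (uF τ r ρ χ α) := by
  funext x
  show (uF τ r ρ f α : PForm E X q) x = f (τ x) • (uF τ r ρ χ α : PForm E X q) x
  by_cases hx : |τ x| < r
  · rw [uF_of_lt hx, uF_of_lt hx]
    by_cases h1 : r₁ ≤ |τ x|
    · rw [h₁ _ h1, zero_smul, zero_smul]
    · rw [h₂ _ ((not_le.1 h1).trans hr).le, one_smul]
  · rw [uF_of_not_lt hx, uF_of_not_lt hx, smul_zero]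

/-- `rF f α = f'(τ) dτ ∧ ρ^* α`. -/
theorem Mirror.rF_eq (h : Mirror E E' s τ r Γ ρ) {f χ : ℝ → ℝ} (hf : CFun r f)
    (_hχ : CFun r χ) {r₁ r₂ : ℝ} (hr : r₁ < r₂) (h₁ : ∀ t, r₁ ≤ |t| → f t = 0)
    (h₂ : ∀ t, |t| ≤ r₂ → χ t = 1) {α : PForm E' H q} (hα : SmoothForm α) :
    (rF τ r ρ f α : PForm E X (q + 1)) = dwedge (fun x => f (τ x)) (uF τ r ρ χ α) := by
  have h1 : (uF τ r ρ f (extD α) : PForm E X (q + 1)) =
      fmul (fun x => f (τ x)) (extD (uF τ r ρ χ α)) := by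
    funext x
    show (uF τ r ρ f (extD α) : PForm E X (q + 1)) x = f (τ x) • extD (uF τ r ρ χ α) x
    by_cases hx0 : f (τ x) = 0
    · rw [uF_eq_zero hx0, hx0, zero_smul]
    · have hx1 : |τ x| < r₁ := by
        by_contra hcon
        exact hx0 (h₁ _ (not_lt.1 hcon))
      have hxr : |τ x| < r := by
        obtain ⟨_, r', _, hr'r, hf0⟩ := hf
        by_contra hcon
        exact hx0 (hf0 _ (hr'r.le.trans (not_lt.1 hcon)))
      have hev : ∀ᶠ x' in 𝓝 x, χ (τ x') = 1 := by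
        have h3 : ∀ᶠ x' in 𝓝 x, |τ x'| < r₂ :=
          (continuous_abs.comp h.smooth_τ.continuous).continuousAt.eventually
            (isOpen_Iio.mem_nhds (hx1.trans hr))
        filter_upwards [h3] with x' hx'
        exact h₂ _ hx'.le
      rw [uF_of_lt hxr, h.up_extD_one hα hxr hev]
  unfold rF dwedge
  rw [h1, uF_eq_fmul hr h₁ h₂]

theorem Mirror.rF_mem (h : Mirror E E' s τ r Γ ρ) {f : ℝ → ℝ} (hf : CFun r f)
    {α : PForm E' H q} (hα : α ∈ OmegaC E' H q) :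
    (rF τ r ρ f α : PForm E X (q + 1)) ∈ OmegaC E X (q + 1) :=
  (OmegaC E X (q + 1)).sub_mem (extD_mem (h.uF_mem hf hα)) (h.uF_mem hf (extD_mem hα))

theorem Mirror.rF_add (h : Mirror E E' s τ r Γ ρ) {f : ℝ → ℝ} (hf : CFun r f)
    {α β : PForm E' H q} (hα : SmoothForm α) (hβ : SmoothForm β) :
    (rF τ r ρ f (α + β) : PForm E X (q + 1)) = rF τ r ρ f α + rF τ r ρ f β := by
  unfold rF
  rw [uF_add, extD_add (h.uF_smooth hf hα) (h.uF_smooth hf hβ), extD_add hα hβ, uF_add]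
  abel

theorem Mirror.rF_smul (h : Mirror E E' s τ r Γ ρ) {f : ℝ → ℝ} (hf : CFun r f) (c : ℝ)
    {α : PForm E' H q} (hα : SmoothForm α) :
    (rF τ r ρ f (c • α) : PForm E X (q + 1)) = c • rF τ r ρ f α := by
  unfold rF
  rw [uF_smul, extD_smul (h.uF_smooth hf hα), extD_smul hα, uF_smul, smul_sub]

/-- `rF f α` vanishes where `f` is locally constant. -/
theorem Mirror.rF_zero (h : Mirror E E' s τ r Γ ρ) {f : ℝ → ℝ} (hf : CFun r f)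
    {α : PForm E' H q} (hα : SmoothForm α) {x : X} (hx : ∀ᶠ t in 𝓝 (τ x), f t = f (τ x)) :
    (rF τ r ρ f α : PForm E X (q + 1)) x = 0 := by
  obtain ⟨χ, hχ, r₁, h₁, r₂, hr, h₂⟩ := exists_cutoff hf
  have h1 : deriv f (τ x) = 0 := by
    have h2 : f =ᶠ[𝓝 (τ x)] fun _ => f (τ x) := hx
    rw [h2.deriv_eq]
    simp
  rw [h.rF_eq hf hχ hr h₁ h₂ hα, dwedge_comp hf.1 h.smooth_τ (h.uF_smooth hχ hα), h1, zero_smul]

theorem Mirror.pull_rF (h : Mirror E E' s τ r Γ ρ) {f : ℝ → ℝ} (hf : CFun r f)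
    (he : ∀ t, f (-t) = f t) {α : PForm E' H q} (hα : SmoothForm α) :
    pull s (rF τ r ρ f α : PForm E X (q + 1)) = rF τ r ρ f α := by
  have h1 : pull s (rF τ r ρ f α : PForm E X (q + 1)) =
      pull s (extD (uF τ r ρ f α : PForm E X q)) -
        pull s (uF τ r ρ f (extD α) : PForm E X (q + 1)) := rfl
  rw [h1, ← extD_pull (h.uF_smooth hf hα) h.smooth_s, h.pull_uF he, h.pull_uF he]
  rfl

theorem up_neg_one_smul {m : ℕ} (w : PForm E X m) : (-1 : ℝ) • w = - w := by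
  funext x
  ext v
  show (-1 : ℝ) * w x v = - w x v
  ring

theorem Mirror.extD_rF (h : Mirror E E' s τ r Γ ρ) {f : ℝ → ℝ} (hf : CFun r f)
    {α : PForm E' H q} (hα : SmoothForm α) :
    extD (rF τ r ρ f α : PForm E X (q + 1)) = - rF τ r ρ f (extD α) := by
  have hu := h.uF_smooth hf hα
  have hu' := h.uF_smooth hf hα.extD
  have h1 : (rF τ r ρ f α : PForm E X (q + 1)) =
      extD (uF τ r ρ f α : PForm E X q) + (-1 : ℝ) • uF τ r ρ f (extD α) := by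
    unfold rF
    rw [up_neg_one_smul, sub_eq_add_neg]
  have h2 : (uF τ r ρ f (0 : PForm E' H (q + 1 + 1)) : PForm E X (q + 1 + 1)) = 0 := by
    have := uF_smul (E := E) (X := X) (τ := τ) (r := r) (ρ := ρ) f 0 (0 : PForm E' H (q + 1 + 1))
    rwa [zero_smul, zero_smul] at this
  rw [h1, extD_add hu.extD (hu'.smul _), extD_smul hu', extD_extD hu]
  unfold rF
  rw [extD_extD hα, h2, sub_zero, zero_add, up_neg_one_smul]

theorem Mirror.T1_rF (h : Mirror E E' s τ r Γ ρ) {f : ℝ → ℝ} (hf : CFun r f) {t : ℝ}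
    (ht : |t| < r) {α : PForm E' H q} (hα : SmoothForm α) :
    (T1 Γ t (rF τ r ρ f α : PForm E X (q + 1)) : PForm E' H q) = deriv f t • α := by
  have hfd : Differentiable ℝ f := hf.1.differentiable (by simp)
  have key : ∀ (z : H) (v : Fin q → TangentSpace 𝓘(ℝ, E') z),
      HasDerivAt (fun t' : ℝ => (T0 Γ t' (uF τ r ρ f α : PForm E X q) : PForm E' H q) z v)
        (deriv f t * α z v) t := by
    intro z v
    have h1 : (fun t' : ℝ => (T0 Γ t' (uF τ r ρ f α : PForm E X q) : PForm E' H q) z v) =ᶠ[𝓝 t]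
        fun t' => f t' * α z v := by
      filter_upwards [(isOpen_abs_lt r).mem_nhds ht] with t' ht'
      rw [h.T0_uF ht']
      rfl
    exact ((hfd t).hasDerivAt.mul_const _).congr_of_eventuallyEq h1
  have h0 : (T1 Γ t (rF τ r ρ f α : PForm E X (q + 1)) : PForm E' H q) =
      T1 Γ t (extD (uF τ r ρ f α : PForm E X q)) -
        T1 Γ t (uF τ r ρ f (extD α) : PForm E X (q + 1)) := by
    funext z; ext v; rfl
  rw [h0, h.T1_uF ht, sub_zero]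
  funext z
  ext v
  cases q with
  | zero =>
    exact (h.hasDerivAt_T0_zero ht (h.uF_smooth hf hα) z v).unique (key z v)
  | succ q =>
    have h1 := (h.hasDerivAt_T0 ht (h.uF_smooth hf hα) z v).unique (key z v)
    rw [h.T1_uF ht, extD_zero] at h1
    have h2 : ((0 : PForm E' H (q + 1)) z v : ℝ) = 0 := rfl
    rw [h2, add_zero] at h1
    exact h1

end Pool.Agent.ZSp
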