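import Pool.Agent.Work.MP_058ed1_gt.T.Up
import Pool.Agent.Work.MP_058ed1_gt.T.Bound

/-!
# Transfer theorem, module UPL2: `L²` bounds for `uF` and `rF`
-/

open scoped Manifold ContDiff Topology Bundle ENNReal NNReal
open Set MeasureTheory Bundle Filter

set_option linter.unusedSectionVars false

noncomputable section

namespace Pool.Agent.ZSp

variable {E : Type*} [NormedAddCommGroup E] [InnerProductSpace ℝ E] [FiniteDimensional ℝ E]
  {X : Type*} [EMetricSpace X] [ChartedSpace E X]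
  [IsManifold 𝓘(ℝ, E) ∞ X] [RiemannianBundle (fun x : X => TangentSpace 𝓘(ℝ, E) x)]
  [IsContMDiffRiemannianBundle 𝓘(ℝ, E) ∞ E (fun x : X => TangentSpace 𝓘(ℝ, E) x)]
  [IsRiemannianManifold 𝓘(ℝ, E) X] [MeasurableSpace X] [BorelSpace X]
  {E' : Type*} [NormedAddCommGroup E'] [InnerProductSpace ℝ E'] [FiniteDimensional ℝ E']
  {H : Type*} [EMetricSpace H] [ChartedSpace E' H]
  [IsManifold 𝓘(ℝ, E') ∞ H] [RiemannianBundle (fun x : H => TangentSpace 𝓘(ℝ, E') x)]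
  [IsContMDiffRiemannianBundle 𝓘(ℝ, E') ∞ E' (fun x : H => TangentSpace 𝓘(ℝ, E') x)]
  [IsRiemannianManifold 𝓘(ℝ, E') H] [MeasurableSpace H] [BorelSpace H]
  {s : X → X} {τ : X → ℝ} {r : ℝ} {Γ : H → ℝ → X} {ρ : X → H} {q : ℕ}

theorem l2_mono_of_pin {w w' : PForm E X q} {q' : ℕ} {v v' : PForm E X q'}
    (hw : w ∈ OmegaC E X q) (hw' : w' ∈ OmegaC E X q) (hv : v ∈ OmegaC E X q')
    (hv' : v' ∈ OmegaC E X q') {c : ℝ} (h : ∀ x, pin w w' x ≤ c * pin v v' x) :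
    l2 w w' ≤ c * l2 v v' := by
  unfold l2
  rw [← integral_const_mul]
  exact integral_mono (integrable_pin hw hw') ((integrable_pin hv hv').const_mul c) h

open Classical in
/-- the function `f(τ)² |α|²(ρ)`. -/
def upF (τ : X → ℝ) (r : ℝ) (ρ : X → H) (f : ℝ → ℝ) (α : PForm E' H q) (x : X) : ℝ :=
  if |τ x| < r then f (τ x) ^ 2 * pin α α (ρ x) else 0

theorem upF_nonneg (f : ℝ → ℝ) (α : PForm E' H q) (x : X) : 0 ≤ upF τ r ρ f α x := by
  unfold upF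
  split_ifs
  · exact mul_nonneg (sq_nonneg _) (pin_self_nonneg α _)
  · exact le_rfl

theorem upF_zero {f : ℝ → ℝ} {r' : ℝ} (h0 : ∀ t, r' ≤ |t| → f t = 0) (α : PForm E' H q)
    {x : X} (hx : r' ≤ |τ x|) : upF τ r ρ f α x = 0 := by
  unfold upF
  split_ifs
  · rw [h0 _ hx]; ring
  · rfl

theorem Mirror.continuous_upF (h : Mirror E E' s τ r Γ ρ) {f : ℝ → ℝ} (hf : CFun r f)
    {α : PForm E' H q} (hα : SmoothForm α) : Continuous (upF τ r ρ f α : X → ℝ) := by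
  obtain ⟨hf1, r', hr0, hr', h0⟩ := hf
  have hτ : Continuous τ := h.smooth_τ.continuous
  rw [continuous_iff_continuousAt]
  intro x
  by_cases hx : |τ x| < r
  · have hU : {x : X | |τ x| < r} ∈ 𝓝 x :=
      (isOpen_lt (continuous_abs.comp hτ) continuous_const).mem_nhds hx
    have h1 : ContinuousAt ρ x := (h.smooth_ρ.continuousOn).continuousAt hU
    have h2 : ContinuousAt (fun x => f (τ x) ^ 2 * pin α α (ρ x)) x :=
      ((hf1.continuous.comp hτ).continuousAt.pow 2).mul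
        ((continuous_pin hα hα).continuousAt.comp h1)
    refine h2.congr ?_
    filter_upwards [hU] with z hz
    exact (if_pos hz).symm
  · have hx' : r' < |τ x| := lt_of_lt_of_le hr' (not_lt.1 hx)
    have hU : {x : X | r' < |τ x|} ∈ 𝓝 x :=
      (isOpen_lt continuous_const (continuous_abs.comp hτ)).mem_nhds hx'
    refine (continuousAt_const (y := (0 : ℝ))).congr ?_
    filter_upwards [hU] with z hz
    exact (upF_zero h0 α (le_of_lt hz)).symm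

theorem Mirror.compact_collar (h : Mirror E E' s τ r Γ ρ) {K : Set H} (hK : IsCompact K)
    {r' : ℝ} (hr' : r' < r) :
    IsCompact ((fun z : H × ℝ => Γ z.1 z.2) '' (K ×ˢ Icc (-r') r')) := by
  refine (hK.prod isCompact_Icc).image_of_continuousOn ?_
  refine h.smooth_Γ.continuousOn.mono ?_
  rintro ⟨z, t⟩ ⟨_, ht⟩
  exact lt_of_le_of_lt (abs_le.2 ht) hr'

theorem Mirror.compactSupport_upF (h : Mirror E E' s τ r Γ ρ) {f : ℝ → ℝ} (hf : CFun r f)
    {α : PForm E' H q} (hα : α ∈ OmegaC E' H q) :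
    HasCompactSupport (upF τ r ρ f α : X → ℝ) := by
  obtain ⟨hf1, r', hr0, hr', h0⟩ := hf
  refine HasCompactSupport.intro (h.compact_collar hα.2 hr') ?_
  intro x hx
  by_cases hx' : r' ≤ |τ x|
  · exact upF_zero h0 α hx'
  · have hlt : |τ x| < r := lt_trans (not_le.1 hx') hr'
    unfold upF
    rw [if_pos hlt]
    have h1 : α (ρ x) = 0 := by
      by_contra hne
      apply hx
      refine ⟨(ρ x, τ x), ⟨subset_closure hne, abs_le.1 (not_le.1 hx').le⟩, ?_⟩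
      exact h.Γ_ρ x hlt
    rw [pin_eq_zero α h1, mul_zero]

theorem Mirror.upF_Γ (h : Mirror E E' s τ r Γ ρ) (f : ℝ → ℝ) (α : PForm E' H q) (z : H)
    {t : ℝ} (ht : |t| < r) : upF τ r ρ f α (Γ z t) = f t ^ 2 * pin α α z := by
  unfold upF
  rw [h.τ_Γ z t ht, if_pos ht, h.ρ_Γ z t ht]

/-- `∫ f(τ)² |α|²(ρ) ≤ C |α|²`. -/
theorem Mirror.integral_upF_le (h : Mirror E E' s τ r Γ ρ) (hc : Compare E E' τ r Γ)
    {f : ℝ → ℝ} (hf : CFun r f) : ∃ C : ℝ, 0 ≤ C ∧ ∀ α ∈ OmegaC E' H q,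
      ∫ x, upF τ r ρ f α x ∂(vol E X) ≤ C * l2 α α := by
  obtain ⟨K, hK0, hK⟩ := hc
  refine ⟨K * ∫ t in {t : ℝ | |t| < r}, f t ^ 2, mul_nonneg hK0
    (integral_nonneg fun t => sq_nonneg _), fun α hα => ?_⟩
  obtain ⟨r', hr0, hr', h0⟩ := hf.2
  have h1 := (hK (upF τ r ρ f α) (h.continuous_upF hf hα.1) (h.compactSupport_upF hf hα)
    (fun x => upF_nonneg f α x) ⟨r', hr', fun x hx => upF_zero h0 α hx⟩).2
  have h2 : ∫ t in {t : ℝ | |t| < r}, ∫ z, upF τ r ρ f α (Γ z t) ∂(vol E' H) =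
      ∫ t in {t : ℝ | |t| < r}, f t ^ 2 * l2 α α := by
    refine setIntegral_congr_fun (isOpen_abs_lt r).measurableSet fun t ht => ?_
    unfold l2
    rw [← integral_const_mul]
    refine integral_congr_ae (Eventually.of_forall fun z => ?_)
    exact h.upF_Γ f α z ht
  rw [h2, integral_mul_const] at h1
  linarith [h1, mul_assoc K (∫ t in {t : ℝ | |t| < r}, f t ^ 2) (l2 α α)]

variable (q) in
theorem Mirror.l2_uF_le (h : Mirror E E' s τ r Γ ρ) (hc : Compare E E' τ r Γ) {f : ℝ → ℝ}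
    (hf : CFun r f) : ∃ C : ℝ, 0 ≤ C ∧ ∀ α ∈ OmegaC E' H q,
      l2 (uF τ r ρ f α : PForm E X q) (uF τ r ρ f α) ≤ C * l2 α α := by
  obtain ⟨C₁, hC₁, h1⟩ := h.pin_uF_le q
  obtain ⟨C₂, hC₂, h2⟩ := h.integral_upF_le (q := q) hc hf
  refine ⟨C₁ * C₂, mul_nonneg hC₁ hC₂, fun α hα => ?_⟩
  have h3 : ∀ x, pin (uF τ r ρ f α : PForm E X q) (uF τ r ρ f α) x ≤
      C₁ * upF τ r ρ f α x := by
    intro x
    by_cases hx : |τ x| < r
    · have h4 := h1 f α x hx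
      have h5 : upF τ r ρ f α x = f (τ x) ^ 2 * pin α α (ρ x) := if_pos hx
      rw [h5, ← mul_assoc]
      exact h4
    · have h4 : (uF τ r ρ f α : PForm E X q) x = 0 := if_neg hx
      rw [pin_eq_zero _ h4]
      exact mul_nonneg hC₁ (upF_nonneg f α x)
  have h4 : l2 (uF τ r ρ f α : PForm E X q) (uF τ r ρ f α) ≤
      ∫ x, C₁ * upF τ r ρ f α x ∂(vol E X) := by
    refine integral_mono (integrable_pin (h.uF_mem hf hα) (h.uF_mem hf hα)) ?_ h3
    exact ((h.continuous_upF hf hα.1).integrable_of_hasCompactSupport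
      (h.compactSupport_upF hf hα)).const_mul C₁
  rw [integral_const_mul] at h4
  calc _ ≤ _ := h4
    _ ≤ C₁ * (C₂ * l2 α α) := mul_le_mul_of_nonneg_left (h2 α hα) hC₁
    _ = _ := by ring

theorem CFun.exists_deriv_bound {f : ℝ → ℝ} (hf : CFun r f) :
    ∃ M : ℝ, 0 ≤ M ∧ ∀ t, |deriv f t| ≤ M := by
  obtain ⟨hf1, r', hr0, hr', h0⟩ := hf
  have hc : HasCompactSupport f := by
    refine HasCompactSupport.intro (isCompact_Icc (a := -r') (b := r')) fun t ht => h0 t ?_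
    by_contra hcon
    exact ht (abs_le.1 (not_le.1 hcon).le)
  have h1 : Continuous (deriv f) := hf1.continuous_deriv (by simp)
  obtain ⟨M, hM⟩ := (hc.deriv).exists_bound_of_continuous h1
  exact ⟨M, le_trans (norm_nonneg _) (hM 0), fun t => hM t⟩

theorem Mirror.dReal_comp_le (h : Mirror E E' s τ r Γ ρ) {f : ℝ → ℝ} (hf : CFun r f) :
    ∃ M : ℝ, ∀ (x : X) (u : TangentSpace 𝓘(ℝ, E) x),
      |dReal E (fun x => f (τ x)) x u| ≤ M * ‖u‖ := by
  obtain ⟨M, hM0, hM⟩ := hf.exists_deriv_bound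
  obtain ⟨L, -, hL, -, -⟩ := h.bdd
  refine ⟨M * |L|, fun x u => ?_⟩
  have h1 : HasMFDerivAt 𝓘(ℝ, E) 𝓘(ℝ, ℝ) (fun x => f (τ x)) x
      ((ContinuousLinearMap.toSpanSingleton ℝ (deriv f (τ x))).comp
        (mfderiv 𝓘(ℝ, E) 𝓘(ℝ, ℝ) τ x)) := by
    refine HasMFDerivAt.comp x (g := f) (I' := 𝓘(ℝ, ℝ)) ?_
      (h.smooth_τ.mdifferentiableAt (by simp)).hasMFDerivAt
    exact ((hf.1.differentiable (by simp) (τ x)).hasDerivAt).hasFDerivAt.hasMFDerivAt
  have h2 : dReal E (fun x => f (τ x)) x u = dReal E τ x u * deriv f (τ x) := by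
    unfold dReal
    rw [h1.mfderiv]
    rfl
  rw [h2, abs_mul]
  by_cases hx : |τ x| < r
  · have h3 := (hL x hx u).2
    have h4 : |dReal E τ x u| ≤ |L| * ‖u‖ :=
      h3.trans (mul_le_mul_of_nonneg_right (le_abs_self L) (norm_nonneg u))
    calc _ ≤ |L| * ‖u‖ * M := mul_le_mul h4 (hM _) (abs_nonneg _)
          (mul_nonneg (abs_nonneg _) (norm_nonneg _))
      _ = _ := by ring
  · obtain ⟨hf1, r', hr0, hr', h0⟩ := hf
    have hx' : r' < |τ x| := lt_of_lt_of_le hr' (not_lt.1 hx)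
    have h5 : f =ᶠ[𝓝 (τ x)] fun _ => 0 := by
      have hU : {t : ℝ | r' < |t|} ∈ 𝓝 (τ x) :=
        (isOpen_lt continuous_const continuous_abs).mem_nhds hx'
      filter_upwards [hU] with t ht
      exact h0 t (le_of_lt ht)
    rw [h5.deriv_eq, deriv_const, abs_zero, mul_zero]
    exact mul_nonneg (mul_nonneg hM0 (abs_nonneg _)) (norm_nonneg _)

variable (q) in
theorem Mirror.l2_rF_le (h : Mirror E E' s τ r Γ ρ) (hc : Compare E E' τ r Γ) {f : ℝ → ℝ}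
    (hf : CFun r f) : ∃ C : ℝ, 0 ≤ C ∧ ∀ α ∈ OmegaC E' H q,
      l2 (rF τ r ρ f α : PForm E X (q + 1)) (rF τ r ρ f α) ≤ C * l2 α α := by
  obtain ⟨χ, hχ, r₁, h₁, r₂, hr, h₂⟩ := exists_cutoff hf
  obtain ⟨C₁, hC₁, h1⟩ := h.l2_uF_le q hc hχ
  obtain ⟨C₂, hC₂, h2⟩ := pin_dwedge_le_of_bound E X q
  obtain ⟨M, hM⟩ := h.dReal_comp_le hf
  have hfτ : ContMDiff 𝓘(ℝ, E) 𝓘(ℝ, ℝ) ∞ (fun x => f (τ x)) :=
    hf.1.contMDiff.comp h.smooth_τ
  refine ⟨C₂ * M ^ 2 * C₁, mul_nonneg (mul_nonneg hC₂ (sq_nonneg M)) hC₁, fun α hα => ?_⟩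
  have h3 : (rF τ r ρ f α : PForm E X (q + 1)) =
      dwedge (fun x => f (τ x)) (uF τ r ρ χ α) := h.rF_eq hf hχ hr h₁ h₂ hα.1
  have h4 := l2_mono_of_pin (h.rF_mem hf hα) (h.rF_mem hf hα) (h.uF_mem hχ hα)
    (h.uF_mem hχ hα) (c := C₂ * M ^ 2) (fun x => by
      rw [h3]
      exact h2 _ _ hfτ (h.uF_smooth hχ hα.1) x M (hM x))
  calc _ ≤ _ := h4
    _ ≤ C₂ * M ^ 2 * (C₁ * l2 α α) :=
        mul_le_mul_of_nonneg_left (h1 α hα) (mul_nonneg hC₂ (sq_nonneg M))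
    _ = _ := by ring

end Pool.Agent.ZSp
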